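import Pool.Agent.Lib.MP_07129f_an.XP.Defs

/-!
XP-ContA: continuous Schwarz functions with finitely many sign changes are tame.
-/

namespace Pool.Agent.MP07129f

open Complex Metric Set Filter Topology MeasureTheory

lemma finite_sphere_inter {ζ₀ : ℂ} (hζ₀ : ζ₀ ∈ sphere (0 : ℂ) 1) (ρ : ℝ) :
    {ζ : ℂ | ζ ∈ sphere (0 : ℂ) 1 ∧ ‖ζ - ζ₀‖ = ρ}.Finite := by
  set k : ℝ := 1 - ρ ^ 2 / 2 with hk
  set m : ℝ := √(1 - k ^ 2) with hm
  have hz₀ : ‖ζ₀‖ = 1 := mem_sphere_zero_iff_norm.1 hζ₀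
  have hn₀ : normSq ζ₀ = 1 := by rw [normSq_eq_norm_sq, hz₀]; norm_num
  refine Set.Finite.subset ((Set.toFinite {(⟨k, m⟩ : ℂ), (⟨k, -m⟩ : ℂ)}).image fun t => t * ζ₀) ?_
  rintro ζ ⟨hζ, hd⟩
  have hz : ‖ζ‖ = 1 := mem_sphere_zero_iff_norm.1 hζ
  have hn : normSq ζ = 1 := by rw [normSq_eq_norm_sq, hz]; norm_num
  set t : ℂ := ζ * (starRingEnd ℂ) ζ₀ with ht
  have hre : t.re = k := by
    have h1 := normSq_sub ζ ζ₀
    rw [normSq_eq_norm_sq (ζ - ζ₀), hd, hn, hn₀, ← ht] at h1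
    rw [hk]; linarith
  have hnt : t.re ^ 2 + t.im ^ 2 = 1 := by
    have h1 : normSq t = 1 := by rw [ht, normSq_mul, normSq_conj, hn, hn₀, one_mul]
    rw [normSq_apply] at h1
    nlinarith
  have him : t.im = m ∨ t.im = -m := by
    have h1 : t.im ^ 2 = 1 - k ^ 2 := by rw [← hre]; linarith
    have h2 : m ^ 2 = 1 - k ^ 2 := Real.sq_sqrt (by rw [← h1]; positivity)
    exact sq_eq_sq_iff_eq_or_eq_neg.1 (h1.trans h2.symm)
  refine ⟨t, ?_, ?_⟩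
  · rcases him with h | h
    · left; exact Complex.ext hre h
    · right; exact Complex.ext hre h
  · simp only [ht]
    rw [mul_assoc, mul_comm _ ζ₀, mul_conj, hn₀, ofReal_one, mul_one]

lemma exists_near {ζ₀ : ℂ} (hζ₀ : ζ₀ ∈ sphere (0 : ℂ) 1) {ρ : ℝ} (hρ : 0 < ρ) {E : Set ℂ}
    (hE : E.Finite) : ∃ e ∈ sphere (0 : ℂ) 1 \ E, ‖e - ζ₀‖ < ρ := by
  have hz₀ : ‖ζ₀‖ = 1 := mem_sphere_zero_iff_norm.1 hζ₀
  have hζ0 : ζ₀ ≠ 0 := by
    intro h0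
    rw [h0, norm_zero] at hz₀
    exact zero_ne_one hz₀
  have hpi := Real.pi_gt_three
  set φ : ℝ → ℂ := fun t => ζ₀ * exp (t * I) with hφ
  have hinj : InjOn φ (Ioo 0 (min ρ 1)) := by
    intro a ha b hb hab
    have h1 : exp (a * I) = exp (b * I) := mul_left_cancel₀ hζ0 hab
    have ha1 := (lt_min_iff.1 ha.2).2
    have hb1 := (lt_min_iff.1 hb.2).2
    have h2 : arg (exp (a * I)) = a := by
      rw [arg_exp_mul_I, toIocMod_eq_self]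
      constructor <;> linarith [ha.1]
    have h3 : arg (exp (b * I)) = b := by
      rw [arg_exp_mul_I, toIocMod_eq_self]
      constructor <;> linarith [hb.1]
    rw [← h2, ← h3, h1]
  have hinf : (φ '' Ioo 0 (min ρ 1)).Infinite :=
    (Ioo_infinite (lt_min hρ one_pos)).image hinj
  obtain ⟨e, ⟨t, ht, rfl⟩, heE⟩ := hinf.exists_notMem_finite hE
  have hn : ‖φ t‖ = 1 := by
    simp only [hφ]
    rw [norm_mul, hz₀, norm_exp_ofReal_mul_I, one_mul]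
  refine ⟨φ t, ⟨mem_sphere_zero_iff_norm.2 hn, heE⟩, ?_⟩
  have h1 := Real.norm_exp_I_mul_ofReal_sub_one_le (x := t)
  have h2 : φ t - ζ₀ = ζ₀ * (exp (I * (t : ℂ)) - 1) := by
    simp only [hφ]
    rw [mul_comm I]; ring
  rw [h2, norm_mul, hz₀, one_mul]
  refine h1.trans_lt ?_
  rw [Real.norm_eq_abs, abs_of_pos ht.1]
  exact (lt_min_iff.1 ht.2).1

lemma cayley_im {w : ℂ} : ((1 + w) / (1 - w)).im = 2 * w.im / normSq (1 - w) := by
  rw [div_im]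
  simp only [add_im, one_im, zero_add, sub_re, one_re, add_re, sub_im, zero_sub]
  ring

section
variable {α : ℝ} {F l P ω : ℂ → ℂ}

lemma tendsto_im_l (h : Dat α F l P) (hω : IsSchwarz ω)
    (hl : ∀ z ∈ ball (0 : ℂ) 1, exp (l z) = (1 + ω z) / (1 - ω z))
    (hc : ContinuousOn ω (closedBall 0 1)) {ζ : ℂ} (hζ : ζ ∈ sphere (0 : ℂ) 1) (h1 : ω ζ ≠ 1)
    (h2 : ω ζ ≠ -1) :
    0 ≤ ((1 + ω ζ) / (1 - ω ζ)).re ∧
    Tendsto (fun z => (l z).im) (𝓝[ball 0 1] ζ) (𝓝 (arg ((1 + ω ζ) / (1 - ω ζ)))) := by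
  have hcl : ζ ∈ closedBall (0 : ℂ) 1 := sphere_subset_closedBall hζ
  have hT : Tendsto ω (𝓝[ball 0 1] ζ) (𝓝 (ω ζ)) :=
    (hc ζ hcl).mono_left (nhdsWithin_mono _ ball_subset_closedBall)
  have hne : (𝓝[ball (0 : ℂ) 1] ζ).NeBot := by
    rw [← mem_closure_iff_nhdsWithin_neBot, closure_ball _ one_ne_zero]
    exact hcl
  have h1' : 1 - ω ζ ≠ 0 := sub_ne_zero.2 (Ne.symm h1)
  have h2' : 1 + ω ζ ≠ 0 := fun h0 => h2 (by linear_combination h0)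
  have hy : Tendsto (fun z => (1 + ω z) / (1 - ω z)) (𝓝[ball 0 1] ζ)
      (𝓝 ((1 + ω ζ) / (1 - ω ζ))) := (hT.const_add 1).div (hT.const_sub 1) h1'
  have hre : 0 ≤ ((1 + ω ζ) / (1 - ω ζ)).re := by
    refine ge_of_tendsto ((continuous_re.tendsto _).comp hy) ?_
    filter_upwards [self_mem_nhdsWithin] with z hz
    exact (re_cayley_pos (hω.2.2 z hz)).le
  have hy0 : (1 + ω ζ) / (1 - ω ζ) ≠ 0 := div_ne_zero h2' h1'
  have hslit : (1 + ω ζ) / (1 - ω ζ) ∈ slitPlane := by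
    rcases hre.lt_or_eq with h3 | h3
    · exact Or.inl h3
    · right
      intro h4
      exact hy0 (Complex.ext h3.symm h4)
  refine ⟨hre, ?_⟩
  refine ((continuousAt_arg hslit).tendsto.comp hy).congr' ?_
  filter_upwards [self_mem_nhdsWithin] with z hz
  have hpi := Real.pi_pos
  have h3 := abs_lt.1 (h.im_lt z hz)
  simp only [Function.comp]
  rw [← hl z hz, ← log_im, log_exp (by linarith) (by linarith)]

/-- a gap for `ω` gives a gap for `l` -/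
lemma abs_im_l_le (h : Dat α F l P) (hω : IsSchwarz ω)
    (hl : ∀ z ∈ ball (0 : ℂ) 1, exp (l z) = (1 + ω z) / (1 - ω z)) {z : ℂ}
    (hz : z ∈ ball (0 : ℂ) 1) {δ : ℝ} (hδ : 0 < δ) (h1 : ‖ω z‖ ≤ 1 - δ) :
    |(l z).im| ≤ Real.pi / 2 - δ / 2 := by
  have hw := hω.2.2 z hz
  have h2 := cos_im hw (hl z hz)
  have h3 := cos_le (h.im_lt z hz)
  have hn := norm_nonneg (ω z)
  have h4 : ‖1 - ω z ^ 2‖ ≤ 2 := by
    refine (norm_sub_le _ _).trans ?_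
    rw [norm_one, norm_pow]
    nlinarith
  have h5 : δ ≤ 1 - ‖ω z‖ ^ 2 := by nlinarith
  have h6 : 0 < Real.cos (l z).im := Real.cos_pos_of_mem_Ioo (abs_lt.1 (h.im_lt z hz))
  have h7 : Real.cos (l z).im * ‖1 - ω z ^ 2‖ ≤ Real.cos (l z).im * 2 := by gcongr
  linarith

/-- XP-ContA -/
lemma tameL_of_continuous (h : Dat α F l P) (hω : IsSchwarz ω)
    (hl : ∀ z ∈ ball (0 : ℂ) 1, exp (l z) = (1 + ω z) / (1 - ω z))
    (hc : ContinuousOn ω (closedBall 0 1)) (hs : FinSign ω) {ζ₀ : ℂ}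
    (hζ₀ : ζ₀ ∈ sphere (0 : ℂ) 1) (h1 : ‖ω ζ₀‖ ≠ 1) :
    ∃ (E : Set ℂ) (s : ℂ → ℝ) (δ : ℝ), TameL l E s δ ∧ ∃ e ∈ sphere (0 : ℂ) 1 \ E, s e = 0 := by
  obtain ⟨E₀, s₀, δ₀, hE₀, hs₀, hδ₀, hv⟩ := hs
  -- near a point with `|ω| ≤ 1 - δ₀`
  have hfar : ∀ ζ ∈ sphere (0 : ℂ) 1, ‖ω ζ‖ ≤ 1 - δ₀ → ∀ᶠ z in 𝓝[ball 0 1] ζ,
      |(l z).im| ≤ Real.pi / 2 - δ₀ / 4 := by
    intro ζ hζ hωζ
    have hT : Tendsto ω (𝓝[ball 0 1] ζ) (𝓝 (ω ζ)) :=
      (hc ζ (sphere_subset_closedBall hζ)).mono_left (nhdsWithin_mono _ ball_subset_closedBall)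
    filter_upwards [self_mem_nhdsWithin, hT.norm.eventually (gt_mem_nhds
      (show ‖ω ζ‖ < 1 - δ₀ / 2 by linarith))] with z hz hz2
    have h3 := abs_im_l_le h hω hl hz (half_pos hδ₀) hz2.le
    linarith
  have hcl : ζ₀ ∈ closedBall (0 : ℂ) 1 := sphere_subset_closedBall hζ₀
  have hlt : ‖ω ζ₀‖ < 1 := by
    refine lt_of_le_of_ne ?_ h1
    have hT : Tendsto ω (𝓝[ball 0 1] ζ₀) (𝓝 (ω ζ₀)) :=
      (hc ζ₀ hcl).mono_left (nhdsWithin_mono _ ball_subset_closedBall)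
    have hne : (𝓝[ball (0 : ℂ) 1] ζ₀).NeBot := by
      rw [← mem_closure_iff_nhdsWithin_neBot, closure_ball _ one_ne_zero]
      exact hcl
    refine le_of_tendsto hT.norm ?_
    filter_upwards [self_mem_nhdsWithin] with z hz
    exact (hω.2.2 z hz).le
  -- the radius
  set δ₁ : ℝ := (1 - ‖ω ζ₀‖) / 2 with hδ₁
  have hδ₁0 : 0 < δ₁ := by rw [hδ₁]; linarith
  obtain ⟨ρ', hρ', hρ'2⟩ : ∃ ρ' > 0, ∀ z ∈ closedBall (0 : ℂ) 1, ‖z - ζ₀‖ < ρ' → ‖ω z‖ ≤ 1 - δ₁ := by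
    have h2 := Metric.continuousWithinAt_iff.1 (hc ζ₀ hcl) δ₁ hδ₁0
    obtain ⟨ρ', hρ', h3⟩ := h2
    refine ⟨ρ', hρ', fun z hz hzd => ?_⟩
    have h4 := h3 hz (by rwa [dist_eq_norm])
    rw [dist_eq_norm] at h4
    have h5 := norm_sub_norm_le (ω z) (ω ζ₀)
    rw [hδ₁] at h4 ⊢
    linarith
  set ρ : ℝ := ρ' / 2 with hρ
  have hρ0 : 0 < ρ := by positivity
  set E : Set ℂ := E₀ ∪ {ζ : ℂ | ζ ∈ sphere (0 : ℂ) 1 ∧ ‖ζ - ζ₀‖ = ρ} with hE
  have hEf : E.Finite := hE₀.union (finite_sphere_inter hζ₀ ρ)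
  set s : ℂ → ℝ := fun ζ => if ‖ζ - ζ₀‖ < ρ then 0 else s₀ ζ with hsdef
  have hsub : sphere (0 : ℂ) 1 \ E ⊆ sphere (0 : ℂ) 1 \ E₀ := sdiff_subset_sdiff_right subset_union_left
  have hlocal : ∀ ζ ∈ sphere (0 : ℂ) 1 \ E, ¬ ‖ζ - ζ₀‖ < ρ → ρ < ‖ζ - ζ₀‖ := by
    intro ζ hζ h2
    refine lt_of_le_of_ne (not_lt.1 h2) fun h3 => hζ.2 (Or.inr ⟨hζ.1, h3.symm⟩)
  obtain ⟨e, he, hed⟩ := exists_near hζ₀ hρ0 hEf
  obtain ⟨δ, hδ, hδa, hδb, hδc⟩ : ∃ δ > 0, δ ≤ 1 / 2 ∧ δ ≤ δ₁ / 2 ∧ δ ≤ δ₀ / 4 :=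
    ⟨min (1 / 2) (min (δ₁ / 2) (δ₀ / 4)), by positivity, min_le_left _ _,
      (min_le_right _ _).trans (min_le_left _ _), (min_le_right _ _).trans (min_le_right _ _)⟩
  refine ⟨E, s, δ, ⟨hEf, ?_, ?_, hδ, ?_, ?_⟩, e, he, if_pos hed⟩
  · -- continuity of `s`
    intro ζ hζ
    by_cases h2 : ‖ζ - ζ₀‖ < ρ
    · have h3 : ∀ᶠ z in 𝓝 ζ, ‖z - ζ₀‖ < ρ := by
        have : Continuous fun z : ℂ => ‖z - ζ₀‖ := by fun_prop
        exact this.continuousAt.eventually (gt_mem_nhds h2)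
      have h4 : s =ᶠ[𝓝 ζ] fun _ => 0 := by
        filter_upwards [h3] with z hz using if_pos hz
      exact (continuousAt_const.congr h4.symm).continuousWithinAt
    · have h3 : ∀ᶠ z in 𝓝 ζ, ρ < ‖z - ζ₀‖ := by
        have : Continuous fun z : ℂ => ‖z - ζ₀‖ := by fun_prop
        exact this.continuousAt.eventually (lt_mem_nhds (hlocal ζ hζ h2))
      have h4 : s =ᶠ[𝓝 ζ] s₀ := by
        filter_upwards [h3] with z hz using if_neg (not_lt.2 hz.le)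
      have h5 : ContinuousWithinAt s₀ (sphere 0 1 \ E) ζ := (hs₀ ζ (hsub hζ)).mono hsub
      exact h5.congr_of_eventuallyEq (h4.filter_mono nhdsWithin_le_nhds) h4.self_of_nhds
  · -- values
    intro ζ hζ
    by_cases h2 : ‖ζ - ζ₀‖ < ρ
    · right; left; exact if_pos h2
    · have h3 : s ζ = s₀ ζ := if_neg h2
      rw [h3]
      rcases (hv ζ (hsub hζ)).1 with h4 | h4
      · exact Or.inl h4
      · exact Or.inr (Or.inr h4)
  · intro ζ hζ hs1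
    by_cases h2 : ‖ζ - ζ₀‖ < ρ
    · have h3 : ∀ᶠ z in 𝓝 ζ, ‖z - ζ₀‖ < ρ := by
        have : Continuous fun z : ℂ => ‖z - ζ₀‖ := by fun_prop
        exact this.continuousAt.eventually (gt_mem_nhds h2)
      filter_upwards [self_mem_nhdsWithin, nhdsWithin_le_nhds h3] with z hz hzρ
      have h4 := abs_im_l_le h hω hl hz hδ₁0 (hρ'2 z (ball_subset_closedBall hz) (by linarith))
      linarith [(abs_le.1 h4).1]
    · have h3 : s ζ = s₀ ζ := if_neg h2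
      rw [h3] at hs1
      obtain ⟨hv1, hωζ | ⟨hne1, hne2, hsg⟩⟩ := hv ζ (hsub hζ)
      · filter_upwards [hfar ζ hζ.1 hωζ] with z hz
        linarith [(abs_le.1 hz).1]
      have hs₀1 : s₀ ζ = 1 := hv1.resolve_left hs1
      rw [hs₀1, one_mul] at hsg
      obtain ⟨hre, hT⟩ := tendsto_im_l h hω hl hc hζ.1 hne1 hne2
      have h4 : 0 ≤ arg ((1 + ω ζ) / (1 - ω ζ)) := by
        rw [arg_nonneg_iff, cayley_im]
        have := normSq_nonneg (1 - ω ζ)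
        positivity
      have hpi := Real.pi_gt_three
      filter_upwards [hT.eventually (lt_mem_nhds (show -(1 / 2 : ℝ) < _ by linarith))] with z hz
      linarith
  · intro ζ hζ hs1
    by_cases h2 : ‖ζ - ζ₀‖ < ρ
    · have h3 : ∀ᶠ z in 𝓝 ζ, ‖z - ζ₀‖ < ρ := by
        have : Continuous fun z : ℂ => ‖z - ζ₀‖ := by fun_prop
        exact this.continuousAt.eventually (gt_mem_nhds h2)
      filter_upwards [self_mem_nhdsWithin, nhdsWithin_le_nhds h3] with z hz hzρ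
      have h4 := abs_im_l_le h hω hl hz hδ₁0 (hρ'2 z (ball_subset_closedBall hz) (by linarith))
      linarith [(abs_le.1 h4).2]
    · have h3 : s ζ = s₀ ζ := if_neg h2
      rw [h3] at hs1
      obtain ⟨hv1, hωζ | ⟨hne1, hne2, hsg⟩⟩ := hv ζ (hsub hζ)
      · filter_upwards [hfar ζ hζ.1 hωζ] with z hz
        linarith [(abs_le.1 hz).2]
      have hs₀1 : s₀ ζ = -1 := hv1.resolve_right hs1
      rw [hs₀1] at hsg
      have him : (ω ζ).im ≤ 0 := by linarith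
      obtain ⟨hre, hT⟩ := tendsto_im_l h hω hl hc hζ.1 hne1 hne2
      have h4 : arg ((1 + ω ζ) / (1 - ω ζ)) ≤ 0 := by
        have h6 : ((1 + ω ζ) / (1 - ω ζ)).im ≤ 0 := by
          rw [cayley_im]
          apply div_nonpos_of_nonpos_of_nonneg _ (normSq_nonneg _)
          linarith
        rcases h6.lt_or_eq with h7 | h7
        · exact (arg_neg_iff.2 h7).le
        · rw [arg_eq_zero_iff.2 ⟨hre, h7⟩]
      have hpi := Real.pi_gt_three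
      filter_upwards [hT.eventually (gt_mem_nhds (show _ < (1 / 2 : ℝ) by linarith))] with z hz
      linarith

end

end Pool.Agent.MP07129f
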