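import Pool.Agent.Lib.MP_07129f_an.XP.Defs

/-!
XP-ContB. Proof: as `inner_of_circle` in `Cor.lean`: `r e^{iθ} → e^{iθ}` within the closed disc.
-/

namespace Pool.Agent.MP07129f

open Complex Metric Set Filter Topology MeasureTheory

/-- XP-ContB: unimodular on the circle and continuous implies inner. -/
lemma inner_of_continuous {ω : ℂ → ℂ} (hc : ContinuousOn ω (closedBall 0 1))
    (h : ∀ ζ ∈ sphere (0 : ℂ) 1, ‖ω ζ‖ = 1) : IsInner ω := by
  refine Filter.Eventually.of_forall fun θ => ?_
  have hn : ‖exp (θ * I)‖ = 1 := Complex.norm_exp_ofReal_mul_I θ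
  have hs : exp (θ * I) ∈ sphere (0 : ℂ) 1 := by
    simp [hn]
  have hcw : ContinuousWithinAt ω (closedBall 0 1) (exp (θ * I)) :=
    hc _ (sphere_subset_closedBall hs)
  have ht : Tendsto (fun r : ℝ => (r : ℂ) * exp (θ * I)) (𝓝[Iio 1] 1)
      (𝓝[closedBall 0 1] (exp (θ * I))) := by
    rw [tendsto_nhdsWithin_iff]
    constructor
    · have hcont : Continuous fun r : ℝ => (r : ℂ) * exp (θ * I) := by fun_prop
      have := hcont.tendsto 1
      simp only [ofReal_one, one_mul] at this
      exact this.mono_left nhdsWithin_le_nhds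
    · have h0 : ∀ᶠ r : ℝ in 𝓝[Iio 1] 1, 0 < r :=
        (eventually_gt_nhds (show (0 : ℝ) < 1 by norm_num)).filter_mono nhdsWithin_le_nhds
      filter_upwards [h0, self_mem_nhdsWithin] with r hr hr1
      have hr1' : r < 1 := hr1
      rw [mem_closedBall_zero_iff, norm_mul, hn, mul_one, Complex.norm_real, Real.norm_eq_abs,
        abs_of_pos hr]
      exact hr1'.le
  have := (hcw.norm.tendsto).comp ht
  rw [h _ hs] at this
  exact this

end Pool.Agent.MP07129f
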