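import Pool.Agent.Lib.MP_07129f_an.XP.Defs

/-!
XP-Arc. Proof. Write `ζ = - e^{iφ₀}`, `φ₀ = arg (-ζ)`; `Re ζ < cos η` means
`cos φ₀ > - cos η = cos (π - η)`, i.e. `|φ₀| < π - η`. Let `φ₁ = (|φ₀| + π - η)/2 < π - η`.
(a) Compactness of `{φ : |φ| ≤ φ₁}`: there is `r₁ < 1` with `‖Y (- r e^{iφ})‖ ≤ K` for all
`|φ| ≤ φ₁`, `r₁ < r < 1` (each `-e^{iφ}` is a point of the sphere with real part `< cos η`; the map
`(r, φ) ↦ - r e^{iφ}` is continuous; `IsCompact` tube argument, e.g.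
`IsCompact.eventually_forall_of_forall_eventually`, or elim_nhds_subcover).
(b) For `z = - r e^{iφ}`, `|φ| ≤ φ₁`, `max r₁ (1/2) < r < 1`: the derivative of
`φ' ↦ X (- r e^{iφ'})` is `i z' X'(z') = i Q(z') Y(z')`, `z' = - r e^{iφ'}`, so
`‖X z - X (-r)‖ ≤ |∫_0^φ ‖Q‖ ‖Y‖| ≤ (K/κ) ∫_{-π}^{π} Re Q (- r e^{iφ'}) dφ' = 2 π K/κ`
(`Re Q ≥ 0`; `A_re` in `Avg.lean` gives the circle average `Re Q 0 = 1`; the substitution
`- r e^{iφ'} = circleMap 0 r (φ' + π)`). Hence `Im X z ≥ Im X (-r) - 2 π K/κ ≥ 0`.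
(c) Near `ζ` in the disc: `z = - ‖z‖ e^{i arg (-z)}`, `arg (-z) → φ₀` (`-ζ` is in the slit plane
because `|φ₀| < π`), so eventually `|arg (-z)| ≤ φ₁` and `‖z‖ > max r₁ (1/2)`.
-/

namespace Pool.Agent.MP07129f

open Complex Metric Set Filter Topology MeasureTheory

/-- the point `- r e^{it}` -/
private noncomputable def arcPt (r t : ℝ) : ℂ := -((r : ℂ) * exp (t * I))

private lemma arcPt_norm {r : ℝ} (hr : 0 ≤ r) (t : ℝ) : ‖arcPt r t‖ = r := by
  rw [arcPt, norm_neg, norm_mul, norm_exp_ofReal_mul_I, mul_one, norm_real, Real.norm_eq_abs,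
    abs_of_nonneg hr]

private lemma arcPt_zero (r : ℝ) : arcPt r 0 = -(r : ℂ) := by
  rw [arcPt]; simp

private lemma arcPt_mem {r : ℝ} (hr : 0 ≤ r) (hr1 : r < 1) (t : ℝ) : arcPt r t ∈ ball (0 : ℂ) 1 := by
  rw [mem_ball_zero_iff, arcPt_norm hr]; exact hr1

private lemma arcPt_cont : Continuous fun p : ℝ × ℝ => arcPt p.1 p.2 := by
  unfold arcPt; fun_prop

private lemma arcPt_deriv (r t : ℝ) : HasDerivAt (arcPt r) (arcPt r t * I) t := by
  have h1 : HasDerivAt (fun s : ℝ => (s : ℂ) * I) (1 * I) t :=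
    (hasDerivAt_id t).ofReal_comp.mul_const I
  have h2 := (h1.cexp.const_mul (r : ℂ)).neg
  refine h2.congr_deriv ?_
  rw [arcPt]; ring

private lemma arcPt_circle (r t : ℝ) : arcPt r t = circleMap 0 r (t + Real.pi) := by
  rw [arcPt, circleMap, zero_add]
  push_cast
  rw [add_mul, exp_add, exp_pi_mul_I]
  ring

private lemma arc_compact {Y : ℂ → ℂ} {K η φ₁ : ℝ} (hη : 0 < η) (h1 : φ₁ < Real.pi - η)
    (hYb : ∀ ζ ∈ sphere (0 : ℂ) 1, ζ.re < Real.cos η → ∀ᶠ z in 𝓝[ball 0 1] ζ, ‖Y z‖ ≤ K) :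
    ∀ᶠ r : ℝ in 𝓝 1, ∀ t ∈ Icc (-φ₁) φ₁, 0 < r → r < 1 → ‖Y (arcPt r t)‖ ≤ K := by
  refine isCompact_Icc.eventually_forall_of_forall_eventually
    (P := fun r t => 0 < r → r < 1 → ‖Y (arcPt r t)‖ ≤ K) ?_
  intro t ht
  have hre : (arcPt 1 t).re = -Real.cos t := by
    rw [arcPt, ofReal_one, one_mul, neg_re, exp_ofReal_mul_I_re]
  have hcos : -Real.cos η < Real.cos t := by
    rw [← Real.cos_pi_sub, ← Real.cos_abs t]
    exact Real.cos_lt_cos_of_nonneg_of_le_pi (abs_nonneg t) (by linarith)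
      (lt_of_le_of_lt (abs_le.2 ht) h1)
  have h2 := hYb (arcPt 1 t) (by rw [mem_sphere_zero_iff_norm, arcPt_norm zero_le_one])
    (by rw [hre]; linarith)
  rw [eventually_nhdsWithin_iff] at h2
  have h3 := (arcPt_cont.tendsto (1, t)).eventually h2
  filter_upwards [h3] with p hp h0 hlt
  exact hp (arcPt_mem h0.le hlt _)

private lemma arc_bound {Q X Y : ℂ → ℂ} {κ K φ₁ r : ℝ} (hκ : 0 < κ) (hK : 0 ≤ K)
    (hQ : DifferentiableOn ℂ Q (ball 0 1)) (hQ0 : Q 0 = 1)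
    (hQr : ∀ z ∈ ball (0 : ℂ) 1, κ * ‖Q z‖ ≤ (Q z).re)
    (hX : DifferentiableOn ℂ X (ball 0 1)) (hY : DifferentiableOn ℂ Y (ball 0 1))
    (hXd : ∀ z ∈ ball (0 : ℂ) 1, z * deriv X z = Q z * Y z)
    (hφ : φ₁ ≤ Real.pi) (hr0 : 0 < r) (hr1 : r < 1)
    (hYK : ∀ t ∈ Icc (-φ₁) φ₁, ‖Y (arcPt r t)‖ ≤ K) {φ : ℝ} (hφ1 : |φ| ≤ φ₁) :
    ‖X (arcPt r φ) - X (arcPt r 0)‖ ≤ 2 * Real.pi * K / κ := by
  have hc : Continuous (arcPt r) :=
    arcPt_cont.comp (continuous_const.prodMk continuous_id)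
  have hm : ∀ t, arcPt r t ∈ ball (0 : ℂ) 1 := arcPt_mem hr0.le hr1
  have hQc : Continuous fun t => Q (arcPt r t) := hQ.continuousOn.comp_continuous hc hm
  have hYc : Continuous fun t => Y (arcPt r t) := hY.continuousOn.comp_continuous hc hm
  have hd : ∀ t, HasDerivAt (fun t => X (arcPt r t)) (Q (arcPt r t) * Y (arcPt r t) * I) t := by
    intro t
    have h1 : HasDerivAt X (deriv X (arcPt r t)) (arcPt r t) :=
      (hX.differentiableAt (isOpen_ball.mem_nhds (hm t))).hasDerivAt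
    have h2 := h1.comp_of_eq t (arcPt_deriv r t) rfl
    refine h2.congr_deriv ?_
    rw [← hXd _ (hm t)]
    ring
  have hi : ∫ t in (0 : ℝ)..φ, Q (arcPt r t) * Y (arcPt r t) * I =
      X (arcPt r φ) - X (arcPt r 0) :=
    intervalIntegral.integral_eq_sub_of_hasDerivAt (fun t _ => hd t)
      (((hQc.mul hYc).mul continuous_const).intervalIntegrable _ _)
  have hg : Continuous fun t => K / κ * (Q (arcPt r t)).re :=
    continuous_const.mul (continuous_re.comp hQc)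
  have hKκ : 0 ≤ K / κ := div_nonneg hK hκ.le
  have hg0 : ∀ t, 0 ≤ (Q (arcPt r t)).re := fun t =>
    (mul_nonneg hκ.le (norm_nonneg _)).trans (hQr _ (hm t))
  have hsub : uIoc (0 : ℝ) φ ⊆ Icc (-φ₁) φ₁ := by
    intro t ht
    rw [mem_uIoc] at ht
    have := abs_le.1 hφ1
    rcases ht with ht | ht
    · constructor <;> linarith [ht.1, ht.2]
    · constructor <;> linarith [ht.1, ht.2]
  have h1 : ‖∫ t in (0 : ℝ)..φ, Q (arcPt r t) * Y (arcPt r t) * I‖ ≤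
      |∫ t in (0 : ℝ)..φ, K / κ * (Q (arcPt r t)).re| := by
    refine intervalIntegral.norm_integral_le_abs_of_norm_le ?_ (hg.intervalIntegrable _ _)
    refine (ae_restrict_iff' measurableSet_uIoc).2 (Eventually.of_forall fun t ht => ?_)
    rw [norm_mul, norm_mul, norm_I, mul_one]
    have a1 := hYK t (hsub ht)
    have a2 := hQr _ (hm t)
    calc ‖Q (arcPt r t)‖ * ‖Y (arcPt r t)‖ ≤ ‖Q (arcPt r t)‖ * K :=
          mul_le_mul_of_nonneg_left a1 (norm_nonneg _)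
      _ = K / κ * (κ * ‖Q (arcPt r t)‖) := by field_simp
      _ ≤ K / κ * (Q (arcPt r t)).re := mul_le_mul_of_nonneg_left a2 hKκ
  have h2 : |∫ t in (0 : ℝ)..φ, K / κ * (Q (arcPt r t)).re| ≤
      |∫ t in (-Real.pi)..Real.pi, K / κ * (Q (arcPt r t)).re| := by
    refine intervalIntegral.abs_integral_mono_interval ?_
      (Eventually.of_forall fun t => mul_nonneg hKκ (hg0 t)) (hg.intervalIntegrable _ _)
    intro t ht
    rw [mem_uIoc] at ht
    rw [mem_uIoc]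
    left
    have := abs_le.1 hφ1
    have hφ0 := (abs_nonneg φ).trans hφ1
    rcases ht with ht | ht
    · constructor <;> linarith [ht.1, ht.2, Real.pi_pos]
    · constructor
      · linarith [ht.1, ht.2, Real.pi_pos]
      · linarith [ht.1, ht.2, Real.pi_pos]
  have h3 : ∫ t in (-Real.pi)..Real.pi, (Q (arcPt r t)).re = 2 * Real.pi := by
    have e1 : ∫ t in (-Real.pi)..Real.pi, (Q (arcPt r t)).re =
        ∫ t in (-Real.pi)..Real.pi, (fun s => (Q (circleMap 0 r s)).re) (t + Real.pi) := by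
      refine intervalIntegral.integral_congr fun t _ => ?_
      simp only [arcPt_circle]
    rw [e1, intervalIntegral.integral_comp_add_right (fun s => (Q (circleMap 0 r s)).re)]
    have e2 := A_re hr0 hr1 hQ
    rw [A, Real.circleAverage_def, hQ0, one_re, smul_eq_mul] at e2
    have hp : (2 * Real.pi) ≠ 0 := by positivity
    rw [inv_mul_eq_iff_eq_mul₀ hp, mul_one] at e2
    rw [show -Real.pi + Real.pi = 0 by ring, show Real.pi + Real.pi = 2 * Real.pi by ring]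
    exact e2
  have h4 : ∫ t in (-Real.pi)..Real.pi, K / κ * (Q (arcPt r t)).re = K / κ * (2 * Real.pi) := by
    rw [intervalIntegral.integral_const_mul, h3]
  rw [h4, abs_of_nonneg (mul_nonneg hKκ (by positivity))] at h2
  rw [← hi]
  refine h1.trans (h2.trans (le_of_eq ?_))
  ring

/-- XP-Arc -/
lemma arc_im {Q X Y : ℂ → ℂ} {κ K B η : ℝ} (hκ : 0 < κ) (hK : 0 ≤ K) (hη : 0 < η) (hη1 : η ≤ 1)
    (hQ : DifferentiableOn ℂ Q (ball 0 1)) (hQ0 : Q 0 = 1)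
    (hQr : ∀ z ∈ ball (0 : ℂ) 1, κ * ‖Q z‖ ≤ (Q z).re)
    (hX : DifferentiableOn ℂ X (ball 0 1)) (hY : DifferentiableOn ℂ Y (ball 0 1))
    (hXd : ∀ z ∈ ball (0 : ℂ) 1, z * deriv X z = Q z * Y z)
    (hYb : ∀ ζ ∈ sphere (0 : ℂ) 1, ζ.re < Real.cos η → ∀ᶠ z in 𝓝[ball 0 1] ζ, ‖Y z‖ ≤ K)
    (hB : 2 * Real.pi * K / κ ≤ B) (hXr : ∀ r ∈ Ico (1 / 2 : ℝ) 1, B ≤ (X (-(r : ℂ))).im) :
    ∀ ζ ∈ sphere (0 : ℂ) 1, ζ.re < Real.cos η → ∀ᶠ z in 𝓝[ball 0 1] ζ, 0 ≤ (X z).im := by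
  intro ζ hζ hre
  rw [mem_sphere_zero_iff_norm] at hζ
  have hζ0 : -ζ ≠ 0 := by
    intro h
    rw [neg_eq_zero] at h
    rw [h, norm_zero] at hζ
    exact zero_ne_one hζ
  have hnζ : ‖-ζ‖ = 1 := by rw [norm_neg, hζ]
  have hcos : Real.cos (Real.pi - η) < Real.cos |arg (-ζ)| := by
    rw [Real.cos_abs, cos_arg hζ0, hnζ, div_one, neg_re, Real.cos_pi_sub]
    linarith
  have hpi : 1 < Real.pi := by linarith [Real.pi_gt_three]
  have harg : |arg (-ζ)| < Real.pi - η := by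
    by_contra hcon
    push Not at hcon
    have := Real.cos_le_cos_of_nonneg_of_le_pi (by linarith) (abs_arg_le_pi (-ζ)) hcon
    linarith
  have hslit : -ζ ∈ slitPlane := by
    rw [mem_slitPlane_iff_arg]
    refine ⟨fun h => ?_, hζ0⟩
    rw [h, abs_of_pos Real.pi_pos] at harg
    linarith
  obtain ⟨φ₁, hφa, hφb⟩ := exists_between harg
  have hcomp := arc_compact hη hφb hYb
  have c1 : ∀ᶠ z in 𝓝[ball 0 1] ζ, ∀ t ∈ Icc (-φ₁) φ₁, 0 < ‖z‖ → ‖z‖ < 1 →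
      ‖Y (arcPt ‖z‖ t)‖ ≤ K := by
    have ht : Tendsto (fun z : ℂ => ‖z‖) (𝓝[ball 0 1] ζ) (𝓝 1) := by
      have := (continuous_norm (E := ℂ)).tendsto ζ
      rw [hζ] at this
      exact this.mono_left nhdsWithin_le_nhds
    exact ht.eventually hcomp
  have c2 : ∀ᶠ z in 𝓝[ball 0 1] ζ, (1 / 2 : ℝ) < ‖z‖ := by
    have ht := (continuous_norm (E := ℂ)).tendsto ζ
    rw [hζ] at ht
    exact (ht.mono_left nhdsWithin_le_nhds).eventually (lt_mem_nhds (by norm_num))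
  have c3 : ∀ᶠ z in 𝓝[ball 0 1] ζ, |arg (-z)| < φ₁ := by
    have ht : ContinuousAt (fun z : ℂ => |arg (-z)|) ζ := by
      have h1 : ContinuousAt arg (-ζ) := continuousAt_arg hslit
      have h2 : ContinuousAt (fun z : ℂ => arg (-z)) ζ :=
        ContinuousAt.comp (f := fun z : ℂ => -z) h1 continuous_neg.continuousAt
      exact h2.abs
    exact (ht.tendsto.mono_left nhdsWithin_le_nhds).eventually (gt_mem_nhds hφa)
  filter_upwards [c1, c2, c3, self_mem_nhdsWithin] with z h1 h2 h3 h4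
  rw [mem_ball_zero_iff] at h4
  have h0 : 0 < ‖z‖ := by linarith
  have hz : arcPt ‖z‖ (arg (-z)) = z := by
    have := norm_mul_exp_arg_mul_I (-z)
    rw [norm_neg] at this
    rw [arcPt, this, neg_neg]
  have hb := arc_bound hκ hK hQ hQ0 hQr hX hY hXd (by linarith) h0 h4
    (fun t ht => h1 t ht h0 h4) h3.le
  rw [hz, arcPt_zero] at hb
  have hx := hXr ‖z‖ ⟨h2.le, h4⟩
  have him : |(X z - X (-(‖z‖ : ℂ))).im| ≤ ‖X z - X (-(‖z‖ : ℂ))‖ := abs_im_le_norm _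
  rw [sub_im] at him
  have := (abs_le.1 (him.trans hb)).1
  linarith

end Pool.Agent.MP07129f
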