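import Pool.Agent.Lib.MP_07129f_an.XP.Defs

/-!
XP-BdyA. Proof. (1) `1 + ξ` has real part `≥ 1/2`, `(log (1+ξ)).im = arg (1+ξ) =
arctan (Im ξ/(1 + Re ξ))`, which is odd in `Im ξ`, has the sign of `Im ξ` and is at most
`|Im ξ|/(1/2)` in absolute value (`Real.arctan_le_self` type bounds; or `Complex.arg` via `arcsin`,
or use `|sin x| ≥ ...`). (2) `Im (τ Y/(1 + τ X)) = (τ Im Y + Im Y Re X - Re Y Im X)/|1 + τ X|^2`
(`τ^2 = 1`), `|1 + τ X|^2 ≥ 49/64`, `0 ≤ Im X ≤ 1/8`, so `s Im ≤ (κ + κ/8 + κ/8) 64/49 ≤ 2 κ`.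
(3) `‖1 + τ X‖ ≥ 7/8`; `Complex.norm_log_one_add_half_le_self`: `‖log (1+ξ)‖ ≤ (3/2) ‖ξ‖` for
`‖ξ‖ ≤ 1/2`; `(3/2)(8/7) ≤ 2`.
-/

namespace Pool.Agent.MP07129f

open Complex Metric Set Filter Topology MeasureTheory

/-- XP-BdyA (1) -/
lemma sign_log_im_le {s κ : ℝ} (hs : s = 1 ∨ s = -1) (hκ : 0 ≤ κ) {ξ : ℂ} (hξ : ‖ξ‖ ≤ 1 / 2)
    (him : s * ξ.im ≤ κ) : s * (log (1 + ξ)).im ≤ 2 * κ := by
  rw [log_im]
  have hre0 : |ξ.re| ≤ 1 / 2 := (abs_re_le_norm ξ).trans hξ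
  have hre : 1 / 2 ≤ (1 + ξ).re := by
    have := (abs_le.1 hre0).1
    simp only [add_re, one_re]
    linarith
  have him1 : (1 + ξ).im = ξ.im := by simp
  have hpi : |arg (1 + ξ)| < Real.pi / 2 := abs_arg_lt_pi_div_two_iff.2 (Or.inl (by linarith))
  have htan : Real.tan (arg (1 + ξ)) = ξ.im / (1 + ξ).re := by
    rw [tan_arg, him1]
  have hpos : 0 < (1 + ξ).re := by linarith
  rcases hs with rfl | rfl
  · rw [one_mul] at him ⊢
    rcases lt_or_ge ξ.im 0 with h | h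
    · have : arg (1 + ξ) < 0 := arg_neg_iff.2 (by rw [him1]; exact h)
      linarith
    · have h0 : 0 ≤ arg (1 + ξ) := arg_nonneg_iff.2 (by rw [him1]; exact h)
      have h1 := Real.le_tan h0 (abs_lt.1 hpi).2
      rw [htan] at h1
      have h2 : ξ.im / (1 + ξ).re ≤ 2 * ξ.im := by
        rw [div_le_iff₀ hpos]
        nlinarith
      linarith
  · rcases le_or_gt 0 ξ.im with h | h
    · have h0 : 0 ≤ arg (1 + ξ) := arg_nonneg_iff.2 (by rw [him1]; exact h)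
      linarith
    · have h0 : arg (1 + ξ) < 0 := arg_neg_iff.2 (by rw [him1]; exact h)
      have h1 := Real.le_tan (x := -arg (1 + ξ)) (by linarith) (by linarith [(abs_lt.1 hpi).1])
      rw [Real.tan_neg, htan] at h1
      have h2 : -(ξ.im / (1 + ξ).re) ≤ -(2 * ξ.im) := by
        rw [neg_le_neg_iff, le_div_iff₀ hpos]
        nlinarith
      linarith

/-- XP-BdyA (2) -/
lemma sign_im_div_le {s τ κ : ℝ} (hs : s = 1 ∨ s = -1) (hτ : τ = 1 ∨ τ = -1) (hκ : 0 ≤ κ)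
    {X Y : ℂ} (hX : ‖X‖ ≤ 1 / 8) (hXi : 0 ≤ X.im) (hYi : |Y.im| ≤ κ) (hYr : -κ ≤ s * Y.re) :
    s * (τ * Y / (1 + τ * X)).im ≤ 2 * κ := by
  have hXre : |X.re| ≤ 1 / 8 := (abs_re_le_norm X).trans hX
  have hXim : |X.im| ≤ 1 / 8 := (abs_im_le_norm X).trans hX
  obtain ⟨hx1, hx2⟩ := abs_le.1 hXre
  obtain ⟨_, hx4⟩ := abs_le.1 hXim
  obtain ⟨hy1, hy2⟩ := abs_le.1 hYi
  have hτ2 : τ * τ = 1 := by rcases hτ with rfl | rfl <;> norm_num
  have hns : 49 / 64 ≤ normSq (1 + τ * X) := by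
    rw [normSq_apply]
    simp only [add_re, one_re, mul_re, ofReal_re, ofReal_im, add_im, one_im, mul_im, zero_mul,
      sub_zero, add_zero, zero_add]
    have h1 : 7 / 8 ≤ 1 + τ * X.re := by rcases hτ with rfl | rfl <;> linarith
    nlinarith [sq_nonneg (τ * X.im)]
  have hns0 : 0 < normSq (1 + τ * X) := by linarith
  have hmain : (τ * Y / (1 + τ * X)).im * normSq (1 + τ * X) =
      τ * Y.im + Y.im * X.re - Y.re * X.im := by
    rw [div_im]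
    simp only [add_re, one_re, mul_re, ofReal_re, ofReal_im, add_im, one_im, mul_im, zero_mul,
      sub_zero, add_zero, zero_add]
    have hne : normSq (1 + τ * X) ≠ 0 := hns0.ne'
    rw [sub_mul, div_mul_cancel₀ _ hne, div_mul_cancel₀ _ hne]
    linear_combination (Y.im * X.re - Y.re * X.im) * hτ2
  have hnum : s * (τ * Y.im + Y.im * X.re - Y.re * X.im) ≤ 5 / 4 * κ := by
    have a1 : s * (τ * Y.im) ≤ κ := by
      rcases hs with rfl | rfl <;> rcases hτ with rfl | rfl <;> linarith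
    have a2 : s * (Y.im * X.re) ≤ κ * (1 / 8) := by
      have h1 : |s * (Y.im * X.re)| ≤ κ * (1 / 8) := by
        rw [abs_mul, abs_mul]
        have hs1 : |s| = 1 := by rcases hs with rfl | rfl <;> norm_num
        rw [hs1, one_mul]
        exact mul_le_mul hYi hXre (abs_nonneg _) hκ
      exact (le_abs_self _).trans h1
    have a3 : -(s * Y.re) * X.im ≤ κ * (1 / 8) :=
      mul_le_mul (by linarith) hx4 hXi hκ
    nlinarith
  have hle : (s * (τ * Y / (1 + τ * X)).im) * normSq (1 + τ * X) ≤ 5 / 4 * κ := by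
    rw [mul_assoc, hmain]
    exact hnum
  by_contra hcon
  push Not at hcon
  have h2 : 2 * κ * normSq (1 + τ * X) <
      (s * (τ * Y / (1 + τ * X)).im) * normSq (1 + τ * X) :=
    mul_lt_mul_of_pos_right hcon hns0
  have h3 : 2 * κ * (49 / 64) ≤ 2 * κ * normSq (1 + τ * X) :=
    mul_le_mul_of_nonneg_left hns (by linarith)
  linarith

/-- XP-BdyA (3) -/
lemma norm_log_le {τ : ℝ} (hτ : τ = 1 ∨ τ = -1) {X Y : ℂ} (hX : ‖X‖ ≤ 1 / 8)
    (hY : ‖Y‖ ≤ 1 / 4) : ‖τ * Y / (1 + τ * X)‖ ≤ 1 / 2 ∧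
      ‖log (1 + τ * Y / (1 + τ * X))‖ ≤ 2 * ‖Y‖ := by
  have hτn : ‖(τ : ℂ)‖ = 1 := by rcases hτ with rfl | rfl <;> simp
  have hd : 7 / 8 ≤ ‖1 + τ * X‖ := by
    have h1 : ‖(1 : ℂ)‖ - ‖(τ * X : ℂ)‖ ≤ ‖1 + τ * X‖ := by
      have := norm_sub_norm_le (1 : ℂ) (-(τ * X))
      rwa [norm_neg, sub_neg_eq_add] at this
    rw [norm_one, norm_mul, hτn, one_mul] at h1
    linarith
  have hd0 : 0 < ‖1 + τ * X‖ := by linarith
  have hn : ‖τ * Y / (1 + τ * X)‖ ≤ 8 / 7 * ‖Y‖ := by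
    rw [norm_div, norm_mul, hτn, one_mul, div_le_iff₀ hd0]
    nlinarith [norm_nonneg Y]
  have hhalf : ‖τ * Y / (1 + τ * X)‖ ≤ 1 / 2 := by linarith
  refine ⟨hhalf, ?_⟩
  have h3 := norm_log_one_add_half_le_self hhalf
  have := norm_nonneg Y
  linarith

end Pool.Agent.MP07129f
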