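import Pool.Agent.Lib.MP_07129f_an.XP.BdyA

/-!
XP-BdyB: the boundary inequality. Type `0`: `|α Im l| ≤ α (π/2 - δ)` eventually, and
`|Im log| ≤ 2 ‖Y z‖ ≤ α δ`. Type `s = ±1`: eventually `s Im l ≥ - (π/2 - δ)`, `Im X ≥ 0`, and
`Y` is almost real with `s Re Y` almost nonnegative, so `s Im log ≤ κ`.
-/

namespace Pool.Agent.MP07129f

open Complex Metric Set Filter Topology MeasureTheory

/-- XP-BdyB: the boundary inequality. -/
lemma bdy_im_le {α : ℝ} (hα : 0 < α) {l X Y : ℂ → ℂ} {F : Set ℂ} {s : ℂ → ℝ}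
    {δ : ℝ} (hl : ∀ z ∈ ball (0 : ℂ) 1, |(l z).im| < Real.pi / 2)
    (ht : TameL l F s δ)
    (hXb : ∀ z ∈ ball (0 : ℂ) 1, ‖X z‖ ≤ 1 / 8)
    (hYb : ∀ z ∈ ball (0 : ℂ) 1, ‖Y z‖ ≤ 1 / 4 ∧ ‖Y z‖ ≤ α * δ / 2)
    (hXY : ∀ ζ ∈ sphere (0 : ℂ) 1 \ F, s ζ ≠ 0 → (∀ᶠ z in 𝓝[ball 0 1] ζ, 0 ≤ (X z).im) ∧
      ∃ y : ℝ, 0 ≤ s ζ * y ∧ Tendsto Y (𝓝[ball 0 1] ζ) (𝓝 (y : ℂ)))
    {τ : ℝ} (hτ : τ = 1 ∨ τ = -1) {ζ : ℂ} (hζ : ζ ∈ sphere (0 : ℂ) 1 \ F) {κ : ℝ} (hκ : 0 < κ) :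
    ∀ᶠ z in 𝓝[ball 0 1] ζ,
      |(α * l z + log (1 + τ * Y z / (1 + τ * X z))).im| ≤ α * Real.pi / 2 + κ := by
  have hball : ∀ᶠ z in 𝓝[ball (0 : ℂ) 1] ζ, z ∈ ball (0 : ℂ) 1 := eventually_mem_nhdsWithin
  have him : ∀ z : ℂ, (α * l z + log (1 + τ * Y z / (1 + τ * X z))).im =
      α * (l z).im + (log (1 + τ * Y z / (1 + τ * X z))).im := by
    intro z
    rw [add_im, im_ofReal_mul]
  have hlogle : ∀ z ∈ ball (0 : ℂ) 1,
      |(log (1 + τ * Y z / (1 + τ * X z))).im| ≤ α * δ := by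
    intro z hz
    have h1 := (norm_log_le hτ (hXb z hz) (hYb z hz).1).2
    have h2 := abs_im_le_norm (log (1 + τ * Y z / (1 + τ * X z)))
    have h3 := (hYb z hz).2
    linarith
  have hpi := Real.pi_gt_three
  by_cases hs0 : s ζ = 0
  · have hn1 : s ζ ≠ -1 := by rw [hs0]; norm_num
    have hn2 : s ζ ≠ 1 := by rw [hs0]; norm_num
    filter_upwards [hball, ht.lower ζ hζ hn1, ht.upper ζ hζ hn2] with z hz hlz hlz'
    rw [him z]
    have h1 := hlogle z hz
    have h2 : |α * (l z).im| ≤ α * (Real.pi / 2 - δ) := by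
      rw [abs_mul, abs_of_pos hα]
      exact mul_le_mul_of_nonneg_left (abs_le.2 ⟨hlz, hlz'⟩) hα.le
    have h3 := abs_add_le (α * (l z).im) (log (1 + τ * Y z / (1 + τ * X z))).im
    nlinarith
  · have hs : s ζ = 1 ∨ s ζ = -1 := by
      rcases ht.vals ζ hζ with h | h | h
      · exact Or.inr h
      · exact absurd h hs0
      · exact Or.inl h
    obtain ⟨hX, y, hy, hY⟩ := hXY ζ hζ hs0
    have hκ' : 0 < κ / 4 := by linarith
    have hYn : ∀ᶠ z in 𝓝[ball (0 : ℂ) 1] ζ, ‖Y z - y‖ < κ / 4 := by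
      have h1 := Metric.tendsto_nhds.1 hY (κ / 4) hκ'
      filter_upwards [h1] with z hz
      rwa [← dist_eq_norm]
    have hgap : ∀ᶠ z in 𝓝[ball (0 : ℂ) 1] ζ, -(Real.pi / 2 - δ) ≤ s ζ * (l z).im := by
      rcases hs with h | h
      · filter_upwards [ht.lower ζ hζ (by rw [h]; norm_num)] with z hz
        rw [h, one_mul]; exact hz
      · filter_upwards [ht.upper ζ hζ (by rw [h]; norm_num)] with z hz
        rw [h]; linarith
    filter_upwards [hball, hgap, hX, hYn] with z hz hlz hXz hYz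
    rw [him z]
    have hre : |(Y z).re - y| ≤ κ / 4 := by
      have h1 := abs_re_le_norm (Y z - y)
      rw [sub_re, ofReal_re] at h1
      exact h1.trans hYz.le
    have hYi : |(Y z).im| ≤ κ / 4 := by
      have h1 := abs_im_le_norm (Y z - y)
      rw [sub_im, ofReal_im, sub_zero] at h1
      exact h1.trans hYz.le
    have hYr : -(κ / 4) ≤ s ζ * (Y z).re := by
      have h1 := abs_le.1 hre
      rcases hs with h | h
      · rw [h] at hy ⊢
        linarith [h1.1]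
      · rw [h] at hy ⊢
        linarith [h1.2]
    have h1 := sign_im_div_le hs hτ hκ'.le (hXb z hz) hXz hYi hYr
    have h2 := sign_log_im_le hs (by linarith : (0 : ℝ) ≤ 2 * (κ / 4))
      (norm_log_le hτ (hXb z hz) (hYb z hz).1).1 h1
    have h3 : s ζ * (l z).im ≤ Real.pi / 2 := by
      have h4 := abs_lt.1 (hl z hz)
      rcases hs with h | h
      · rw [h]
        linarith [h4.2]
      · rw [h]
        linarith [h4.1]
    have h5 : -(α * δ) ≤ s ζ * (log (1 + τ * Y z / (1 + τ * X z))).im := by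
      have h6 := abs_le.1 (hlogle z hz)
      rcases hs with h | h
      · rw [h]
        linarith [h6.1]
      · rw [h]
        linarith [h6.2]
    have h7 : |α * (l z).im + (log (1 + τ * Y z / (1 + τ * X z))).im| =
        |s ζ * (α * (l z).im + (log (1 + τ * Y z / (1 + τ * X z))).im)| := by
      rw [abs_mul]
      rcases hs with h | h
      · rw [h]
        simp
      · rw [h]
        simp
    rw [h7, abs_le]
    have h8 : α * (s ζ * (l z).im) ≤ α * (Real.pi / 2) := mul_le_mul_of_nonneg_left h3 hα.le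
    have h9 : α * -(Real.pi / 2 - δ) ≤ α * (s ζ * (l z).im) := mul_le_mul_of_nonneg_left hlz hα.le
    constructor
    · nlinarith
    · nlinarith

end Pool.Agent.MP07129f
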