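import Pool.Agent.Lib.MP_07129f_an.XP.Defs

/-!
XP-Max. Proof.
(1) For each `ζ` in the circle there is an open `U_ζ ∋ ζ` with `P` on `U_ζ ∩ D`. Let
`V = ⋃ U_ζ`, open, containing the circle. `closedBall 0 1 \ V` is compact and inside the open disc;
if empty take `r₀ = 0`, otherwise `r₀` = the maximum of the norm on it, `< 1`.
(2) Let `z` in the disc, `ε > 0`. For a natural number `N ≥ 1` let
`G w = exp (- I N h w) ∏_{ζ ∈ F} ((w - ζ)/2)` (`F` as a Finset; only the points of `F` on the circle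
are needed: replace `F` by `F ∩ sphere`, so that `‖(w - ζ)/2‖ ≤ 1` on the disc and is `→ 0` at `ζ`).
`‖G w‖ = exp (N Im h w) ∏ ‖(w - ζ)/2‖`. Near `ζ ∉ F`: `≤ exp (N (c + ε))`. Near `ζ ∈ F`: at most
`exp (N B) ‖(w - ζ)/2‖ → 0`, so eventually `≤ exp (N (c + ε))`. By (1) there is `r₀ < 1` with
`‖G‖ ≤ exp (N (c + ε))` for `r₀ < ‖w‖ < 1`; take `r` with `max r₀ ‖z‖ < r < 1`, `0 < r`, and
`Complex.norm_le_of_forall_mem_frontier_norm_le` on `ball 0 r`: `‖G z‖ ≤ exp (N (c + ε))`, i.e.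
`Im h z + (1/N) log (∏ ‖(z - ζ)/2‖) ≤ c + ε` (the product is a fixed positive number, as `z` is
inside and `ζ` on the circle). Let `N → ∞`, then `ε → 0`.
(3) By (2) `Im h ≤ c` in the disc. If `Im h z = c` at some `z`, then `‖exp (- I h)‖` has a maximum
at `z`, so it is constant on the disc (`Complex.norm_eqOn_of_isPreconnected_of_isMaxOn`), and
`Im h 0 = c`, a contradiction.
-/

namespace Pool.Agent.MP07129f

open Complex Metric Set Filter Topology MeasureTheory

/-- XP-Max (1): compactness of the circle. -/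
lemma exists_tube {P : ℂ → Prop}
    (hP : ∀ ζ ∈ sphere (0 : ℂ) 1, ∀ᶠ z in 𝓝[ball 0 1] ζ, P z) :
    ∃ r₀ < (1 : ℝ), ∀ z : ℂ, r₀ < ‖z‖ → ‖z‖ < 1 → P z := by
  set V : Set ℂ := interior {z | z ∈ ball (0 : ℂ) 1 → P z} with hV
  have hVo : IsOpen V := isOpen_interior
  have hsub : sphere (0 : ℂ) 1 ⊆ V := by
    intro ζ hζ
    have := hP ζ hζ
    rw [eventually_nhdsWithin_iff] at this
    exact mem_interior_iff_mem_nhds.2 this
  have hK : IsCompact (closedBall (0 : ℂ) 1 \ V) := (isCompact_closedBall _ _).diff hVo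
  rcases (closedBall (0 : ℂ) 1 \ V).eq_empty_or_nonempty with he | hne
  · refine ⟨0, one_pos, fun z _ hz1 => ?_⟩
    have : z ∈ V := by
      by_contra hcon
      have h2 : z ∈ closedBall (0 : ℂ) 1 \ V := ⟨by simpa using hz1.le, hcon⟩
      rw [he] at h2
      exact h2
    exact interior_subset this (by simpa using hz1)
  · obtain ⟨w, hw, hmax⟩ := hK.exists_isMaxOn hne continuous_norm.continuousOn
    have hw1 : ‖w‖ < 1 := by
      have h1 : ‖w‖ ≤ 1 := by simpa using hw.1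
      rcases h1.lt_or_eq with h | h
      · exact h
      · exact absurd (hsub (by simpa using h)) hw.2
    refine ⟨‖w‖, hw1, fun z hz hz1 => ?_⟩
    have : z ∈ V := by
      by_contra hcon
      have h2 : z ∈ closedBall (0 : ℂ) 1 \ V := ⟨by simpa using hz1.le, hcon⟩
      exact absurd (hmax h2) (not_le.2 hz)
    exact interior_subset this (by simpa using hz1)

/-- XP-Max (2): maximum principle with finitely many exceptional boundary points. -/
lemma im_le_of_bdy {h : ℂ → ℂ} (hd : DifferentiableOn ℂ h (ball 0 1)) {B c : ℝ}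
    (hB : ∀ z ∈ ball (0 : ℂ) 1, (h z).im ≤ B) {F : Set ℂ} (hF : F.Finite)
    (hbd : ∀ ζ ∈ sphere (0 : ℂ) 1 \ F, ∀ κ > 0, ∀ᶠ z in 𝓝[ball 0 1] ζ, (h z).im ≤ c + κ)
    {z : ℂ} (hz : z ∈ ball (0 : ℂ) 1) : (h z).im ≤ c := by
  classical
  have hz1 : ‖z‖ < 1 := by simpa using hz
  set S : Finset ℂ := hF.toFinset.filter (fun ζ => ζ ∈ sphere (0 : ℂ) 1) with hS
  have hSmem : ∀ ζ, ζ ∈ S ↔ ζ ∈ F ∧ ζ ∈ sphere (0 : ℂ) 1 := by
    intro ζ
    rw [hS, Finset.mem_filter, Set.Finite.mem_toFinset]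
  have hS1 : ∀ ζ ∈ S, ‖ζ‖ = 1 := fun ζ hζ => by simpa using ((hSmem ζ).1 hζ).2
  set q : ℂ → ℂ := fun w => ∏ ζ ∈ S, ((w - ζ) / 2) with hq
  have hqd : Differentiable ℂ q := by
    rw [hq]
    exact Differentiable.fun_finsetProd fun ζ _ => (differentiable_id.sub_const ζ).div_const 2
  have hq1 : ∀ w : ℂ, ‖w‖ ≤ 1 → ‖q w‖ ≤ 1 := by
    intro w hw
    have : ‖q w‖ = ∏ ζ ∈ S, ‖(w - ζ) / 2‖ := by rw [hq]; exact norm_prod _ _
    rw [this]
    refine Finset.prod_le_one (fun _ _ => norm_nonneg _) (fun ζ hζ => ?_)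
    have h1 := hS1 ζ hζ
    have h2 : ‖w - ζ‖ ≤ 2 := (norm_sub_le _ _).trans (by linarith)
    rw [norm_div, Complex.norm_ofNat, div_le_one (by norm_num)]
    exact_mod_cast h2
  have hqz : q z ≠ 0 := by
    rw [hq]
    refine Finset.prod_ne_zero_iff.2 fun ζ hζ => ?_
    have h1 := hS1 ζ hζ
    refine div_ne_zero (sub_ne_zero.2 fun e => ?_) two_ne_zero
    rw [e] at hz1
    linarith
  have key : ∀ N : ℕ, ∀ ε > (0 : ℝ),
      Real.exp (N * (h z).im) * ‖q z‖ ≤ Real.exp (N * (c + ε)) := by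
    intro N ε hε
    set G : ℂ → ℂ := fun w => exp (-(I * (N : ℂ) * h w)) * q w with hG
    have hGnorm : ∀ w, ‖G w‖ = Real.exp (N * (h w).im) * ‖q w‖ := by
      intro w
      have : (-(I * (N : ℂ) * h w)).re = N * (h w).im := by
        simp [Complex.mul_re, Complex.mul_im]
      rw [hG]
      simp only [norm_mul, Complex.norm_exp, this]
    have hev : ∀ ζ ∈ sphere (0 : ℂ) 1, ∀ᶠ w in 𝓝[ball 0 1] ζ,
        ‖G w‖ ≤ Real.exp (N * (c + ε)) := by
      intro ζ hζ
      by_cases hζF : ζ ∈ F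
      · have hq0 : q ζ = 0 := by
          rw [hq]
          exact Finset.prod_eq_zero ((hSmem ζ).2 ⟨hζF, hζ⟩) (by simp)
        have hcont : Tendsto (fun w => Real.exp (N * B) * ‖q w‖) (𝓝[ball 0 1] ζ)
            (𝓝 (Real.exp (N * B) * 0)) := by
          refine Tendsto.const_mul _ ?_
          have := hqd.continuous.norm.tendsto ζ
          rw [hq0, norm_zero] at this
          exact this.mono_left nhdsWithin_le_nhds
        rw [mul_zero] at hcont
        filter_upwards [hcont.eventually_lt_const (Real.exp_pos (N * (c + ε))),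
          self_mem_nhdsWithin] with w hw hw1
        rw [hGnorm]
        refine le_trans ?_ hw.le
        have := hB w hw1
        gcongr
      · filter_upwards [hbd ζ ⟨hζ, hζF⟩ ε hε, self_mem_nhdsWithin] with w hw hw1
        rw [hGnorm]
        have h3 : ‖q w‖ ≤ 1 := by
          refine hq1 w ?_
          have : ‖w‖ < 1 := by simpa using hw1
          exact this.le
        calc Real.exp (N * (h w).im) * ‖q w‖ ≤ Real.exp (N * (c + ε)) * 1 := by gcongr
          _ = _ := mul_one _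
    obtain ⟨r₀, hr₀, htube⟩ := exists_tube hev
    obtain ⟨r, hr1, hr2⟩ := exists_between (max_lt (max_lt hr₀ hz1) one_pos)
    have hr0 : 0 < r := lt_of_le_of_lt (le_max_right _ _) hr1
    have hrz : ‖z‖ < r := lt_of_le_of_lt ((le_max_right _ _).trans (le_max_left _ _)) hr1
    have hrr : r₀ < r := lt_of_le_of_lt ((le_max_left _ _).trans (le_max_left _ _)) hr1
    have hGd : DifferentiableOn ℂ G (ball 0 1) := by
      rw [hG]
      exact ((hd.const_mul _).neg.cexp).mul hqd.differentiableOn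
    rw [← hGnorm]
    refine Complex.norm_le_of_forall_mem_frontier_norm_le (U := ball (0 : ℂ) r)
      isBounded_ball ?_ ?_ ?_
    · refine DifferentiableOn.diffContOnCl ?_
      rw [closure_ball _ hr0.ne']
      exact hGd.mono (closedBall_subset_ball hr2)
    · intro w hw
      rw [frontier_ball _ hr0.ne'] at hw
      have hw' : ‖w‖ = r := by simpa using hw
      exact htube w (by rw [hw']; exact hrr) (by rw [hw']; exact hr2)
    · exact subset_closure (by simpa using hrz)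
  refine le_of_forall_pos_le_add fun ε hε => ?_
  set L : ℝ := -Real.log ‖q z‖ with hL
  obtain ⟨N, hN⟩ := exists_nat_gt (max 1 (L / (ε / 2)))
  have hN1 : (1 : ℝ) < N := lt_of_le_of_lt (le_max_left _ _) hN
  have hNL : L < N * (ε / 2) :=
    (div_lt_iff₀ (by positivity)).1 (lt_of_le_of_lt (le_max_right _ _) hN)
  have h1 := key N (ε / 2) (by positivity)
  have hqpos : 0 < ‖q z‖ := norm_pos_iff.2 hqz
  have h2 := Real.log_le_log (by positivity) h1
  rw [Real.log_mul (Real.exp_pos _).ne' hqpos.ne', Real.log_exp, Real.log_exp] at h2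
  have h3 : N * (h z).im ≤ N * (c + ε) := by
    have e1 : (N : ℝ) * (c + ε / 2) + N * (ε / 2) = N * (c + ε) := by ring
    linarith
  exact le_of_mul_le_mul_left h3 (by linarith)

/-- XP-Max (3): the strict form. -/
lemma im_lt_of_bdy {h : ℂ → ℂ} (hd : DifferentiableOn ℂ h (ball 0 1)) {B c : ℝ}
    (hB : ∀ z ∈ ball (0 : ℂ) 1, (h z).im ≤ B) {F : Set ℂ} (hF : F.Finite)
    (hbd : ∀ ζ ∈ sphere (0 : ℂ) 1 \ F, ∀ κ > 0, ∀ᶠ z in 𝓝[ball 0 1] ζ, (h z).im ≤ c + κ)
    (h0 : (h 0).im < c) {z : ℂ} (hz : z ∈ ball (0 : ℂ) 1) : (h z).im < c := by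
  have hle : ∀ w ∈ ball (0 : ℂ) 1, (h w).im ≤ c := fun w hw => im_le_of_bdy hd hB hF hbd hw
  refine lt_of_le_of_ne (hle z hz) fun heq => ?_
  set G : ℂ → ℂ := fun w => exp (-(I * h w)) with hG
  have hGnorm : ∀ w, ‖G w‖ = Real.exp ((h w).im) := by
    intro w
    have : (-(I * h w)).re = (h w).im := by simp [Complex.mul_re]
    rw [hG]
    simp only [Complex.norm_exp, this]
  have hGd : DifferentiableOn ℂ G (ball 0 1) := by
    rw [hG]
    exact (hd.const_mul _).neg.cexp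
  have hmax : IsMaxOn (norm ∘ G) (ball 0 1) z := by
    intro w hw
    show ‖G w‖ ≤ ‖G z‖
    rw [hGnorm, hGnorm, heq]
    exact Real.exp_le_exp.2 (hle w hw)
  have h1 := Complex.norm_eqOn_of_isPreconnected_of_isMaxOn
    (convex_ball (0 : ℂ) 1).isPreconnected isOpen_ball hGd hz hmax
  have h2 : ‖G 0‖ = ‖G z‖ := h1 (mem_ball_self one_pos)
  rw [hGnorm, hGnorm, heq, Real.exp_eq_exp] at h2
  linarith

end Pool.Agent.MP07129f
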