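import Pool.Agent.Lib.MP_07129f_an.XP.FunC
import Pool.Agent.Lib.MP_07129f_an.XP.Max
import Pool.Agent.Lib.MP_07129f_an.XP.BdyB

/-!
XP-Core: scaling the perturbing pair and the maximum principle.
-/

namespace Pool.Agent.MP07129f

open Complex Metric Set Filter Topology MeasureTheory

/-- XP-Core: the two members of the class, `s 1 = 0`. -/
theorem exists_pair {α : ℝ} (hα : 0 < α) (hα1 : α < 1) {F l P : ℂ → ℂ} (h : Dat α F l P)
    {E : Set ℂ} {s : ℂ → ℝ} {δ : ℝ} (ht : TameL l E s δ) (h1 : (1 : ℂ) ∉ E) (hs1 : s 1 = 0) :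
    ∃ (H h1 : ℂ → ℂ), DifferentiableOn ℂ H (ball 0 1) ∧ DifferentiableOn ℂ h1 (ball 0 1) ∧
      H 0 = 0 ∧ (∀ z ∈ ball (0 : ℂ) 1, z * deriv H z = exp (α * l z) * h1 z) ∧
      (∀ z ∈ ball (0 : ℂ) 1, ‖H z‖ ≤ 1 / 8 ∧ ‖h1 z‖ ≤ 1 / 4) ∧
      (∃ z ∈ ball (0 : ℂ) 1, H z ≠ 0) ∧
      ∀ τ : ℝ, (τ = 1 ∨ τ = -1) → ∀ z ∈ ball (0 : ℂ) 1,
        |(α * l z + log (1 + τ * h1 z / (1 + τ * H z))).im| < α * Real.pi / 2 := by
  have hδ0 := ht.pos
  obtain ⟨X, Y, M, hX, hY, hX0, hXd, hM, ⟨z₀, hz₀, hXz⟩, hXY⟩ := exists_XY hα hα1 h ht h1 hs1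
  have hM0 : 0 ≤ M := (norm_nonneg _).trans (hM 0 zero_mem_D).1
  -- the scale
  obtain ⟨ε, hε, hε1, hε2⟩ : ∃ ε : ℝ, 0 < ε ∧ ε * M ≤ 1 / 8 ∧ ε * M ≤ α * δ / 2 := by
    refine ⟨min (1 / 8) (α * δ / 2) / (M + 1), by positivity, ?_, ?_⟩
    · rw [div_mul_eq_mul_div, div_le_iff₀ (by positivity)]
      have := min_le_left (1 / 8 : ℝ) (α * δ / 2)
      have h2 : 0 ≤ min (1 / 8 : ℝ) (α * δ / 2) := by positivity
      nlinarith
    · rw [div_mul_eq_mul_div, div_le_iff₀ (by positivity)]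
      have := min_le_right (1 / 8 : ℝ) (α * δ / 2)
      have h2 : 0 ≤ min (1 / 8 : ℝ) (α * δ / 2) := by positivity
      have h3 : 0 ≤ α * δ / 2 := by positivity
      nlinarith
  have hn : ∀ w : ℂ, ‖(ε : ℂ) * w‖ = ε * ‖w‖ := fun w => by
    rw [norm_mul, norm_real, Real.norm_eq_abs, abs_of_pos hε]
  set H : ℂ → ℂ := fun z => (ε : ℂ) * X z with hHdef
  set k : ℂ → ℂ := fun z => (ε : ℂ) * Y z with hkdef
  have hH : DifferentiableOn ℂ H (ball 0 1) := hX.const_mul _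
  have hk : DifferentiableOn ℂ k (ball 0 1) := hY.const_mul _
  have hHd : ∀ z ∈ ball (0 : ℂ) 1, z * deriv H z = exp (α * l z) * k z := by
    intro z hz
    have hXz := (hX.differentiableAt (ball_nhds hz)).hasDerivAt.const_mul (ε : ℂ)
    rw [hXz.deriv]
    simp only [hkdef]
    linear_combination (ε : ℂ) * hXd z hz
  have hHb : ∀ z ∈ ball (0 : ℂ) 1, ‖H z‖ ≤ 1 / 8 := fun z hz => by
    simp only [hHdef]
    rw [hn]
    exact (mul_le_mul_of_nonneg_left (hM z hz).1 hε.le).trans hε1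
  have hkb : ∀ z ∈ ball (0 : ℂ) 1, ‖k z‖ ≤ 1 / 4 ∧ ‖k z‖ ≤ α * δ / 2 := fun z hz => by
    simp only [hkdef]
    rw [hn]
    have h2 := mul_le_mul_of_nonneg_left (hM z hz).2 hε.le
    exact ⟨by linarith, h2.trans hε2⟩
  have hk0 : k 0 = 0 := by
    have := hHd 0 zero_mem_D
    rw [h.l_zero] at this
    simpa using this.symm
  have hHk : ∀ ζ ∈ sphere (0 : ℂ) 1 \ E, s ζ ≠ 0 → (∀ᶠ z in 𝓝[ball 0 1] ζ, 0 ≤ (H z).im) ∧
      ∃ y : ℝ, 0 ≤ s ζ * y ∧ Tendsto k (𝓝[ball 0 1] ζ) (𝓝 (y : ℂ)) := by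
    intro ζ hζ hsζ
    obtain ⟨ha, y, hy, hyt⟩ := hXY ζ hζ hsζ
    refine ⟨?_, ε * y, ?_, ?_⟩
    · filter_upwards [ha] with z hz
      simp only [hHdef]
      rw [im_ofReal_mul]
      positivity
    · have : s ζ * (ε * y) = ε * (s ζ * y) := by ring
      rw [this]
      positivity
    · rw [ofReal_mul]
      exact hyt.const_mul _
  refine ⟨H, k, hH, hk, by simp [hHdef, hX0], hHd, fun z hz => ⟨hHb z hz, (hkb z hz).1⟩,
    ⟨z₀, hz₀, mul_ne_zero (by exact_mod_cast hε.ne') hXz⟩, ?_⟩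
  intro τ hτ
  set g : ℂ → ℂ := fun z => α * l z + log (1 + τ * k z / (1 + τ * H z)) with hg
  have hτn : ‖(τ : ℂ)‖ = 1 := by
    rcases hτ with rfl | rfl <;> simp
  have hne : ∀ z ∈ ball (0 : ℂ) 1, 1 + τ * H z ≠ 0 := by
    intro z hz h0
    have h2 : ‖(τ : ℂ) * H z‖ = 1 := by
      have : (τ : ℂ) * H z = -1 := by linear_combination h0
      rw [this]; simp
    rw [norm_mul, hτn, one_mul] at h2
    have := hHb z hz
    linarith
  have hslit : ∀ z ∈ ball (0 : ℂ) 1, 1 + τ * k z / (1 + τ * H z) ∈ slitPlane := by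
    intro z hz
    left
    have h2 := (norm_log_le hτ (hHb z hz) (hkb z hz).1).1
    have h3 := (abs_le.1 ((abs_re_le_norm _).trans h2)).1
    rw [add_re, one_re]
    linarith
  have hgd : DifferentiableOn ℂ g (ball 0 1) := by
    refine (h.l_diff.const_mul _).add (DifferentiableOn.clog ?_ hslit)
    exact ((hk.const_mul _).div ((hH.const_mul _).const_add 1) hne).const_add 1
  have hg0 : g 0 = 0 := by simp [hg, h.l_zero, hk0]
  have hgb : ∀ z ∈ ball (0 : ℂ) 1, |(g z).im| ≤ α * Real.pi / 2 + 1 / 2 := by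
    intro z hz
    have h2 := (norm_log_le hτ (hHb z hz) (hkb z hz).1).2
    have h3 := (abs_im_le_norm _).trans h2
    have h4 := h.im_abs_lt hα hz
    have h5 := (hkb z hz).1
    simp only [hg]
    rw [add_im]
    refine (abs_add_le _ _).trans ?_
    linarith
  have hbd : ∀ ζ ∈ sphere (0 : ℂ) 1 \ E, ∀ κ > 0, ∀ᶠ z in 𝓝[ball 0 1] ζ,
      |(g z).im| ≤ α * Real.pi / 2 + κ := fun ζ hζ κ hκ =>
    bdy_im_le hα h.im_lt ht hHb hkb hHk hτ hζ hκ
  have hc0 : 0 < α * Real.pi / 2 := by have := Real.pi_pos; positivity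
  intro z hz
  rw [abs_lt]
  constructor
  · have h2 := im_lt_of_bdy (h := fun z => -g z) (B := α * Real.pi / 2 + 1 / 2)
      (c := α * Real.pi / 2) hgd.neg (fun z hz => by
        rw [neg_im]; linarith [(abs_le.1 (hgb z hz)).1]) ht.finite (fun ζ hζ κ hκ => by
        filter_upwards [hbd ζ hζ κ hκ] with w hw
        rw [neg_im]; linarith [(abs_le.1 hw).1]) (by simp only [hg0]; simpa using hc0) hz
    rw [neg_im] at h2
    linarith
  · exact im_lt_of_bdy (B := α * Real.pi / 2 + 1 / 2) (c := α * Real.pi / 2) hgd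
      (fun z hz => (abs_le.1 (hgb z hz)).2) ht.finite (fun ζ hζ κ hκ => by
        filter_upwards [hbd ζ hζ κ hκ] with w hw
        exact (abs_le.1 hw).2) (by rw [hg0]; simpa using hc0) hz

end Pool.Agent.MP07129f
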