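import Pool.Agent.Lib.MP_07129f_an.Nec

/-!
Definitions: tame Schwarz functions, and the square root coordinate of the disc.
-/

namespace Pool.Agent.MP07129f

open Complex Metric Set Filter Topology MeasureTheory

/-- `f` is tame: off a finite subset `E` of the circle there is a locally constant function `s` with
values `-1, 0, 1` (a type for each of the finitely many open arcs), and near each point `ζ` of an
arc, inside the disc, `arg (z f' / f)` is at least `- α π / 2 + δ` if the type is `0` or `1`, and at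
most `α π / 2 - δ` if the type is `0` or `-1`. (Only the values of `F` on the disc matter, where
`F = f`.) -/
def Tame (α : ℝ) (f : C(ball (0 : ℂ) 1, ℂ)) (E : Set ℂ) (s : ℂ → ℝ) : Prop :=
  E.Finite ∧ ContinuousOn s (sphere 0 1 \ E) ∧
    (∀ ζ ∈ sphere (0 : ℂ) 1 \ E, s ζ = -1 ∨ s ζ = 0 ∨ s ζ = 1) ∧
    ∃ (F : ℂ → ℂ) (δ : ℝ), (∀ z : ball (0 : ℂ) 1, f z = F z) ∧ 0 < δ ∧
      ∀ ζ ∈ sphere (0 : ℂ) 1 \ E,
        (s ζ ≠ -1 → ∀ᶠ z in 𝓝[ball 0 1] ζ, -(α * Real.pi / 2) + δ ≤ arg (z * deriv F z / F z)) ∧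
        (s ζ ≠ 1 → ∀ᶠ z in 𝓝[ball 0 1] ζ, arg (z * deriv F z / F z) ≤ α * Real.pi / 2 - δ)

/-- For some `δ > 0` and off a finite subset `E` of the unit circle: at each point where
`|ω| > 1 - δ`, `ω` is not `1` or `-1`, and its imaginary part has the sign prescribed by a locally
constant function `s` with values `1, -1`. (On the part of the circle where `|ω| > 1 - δ` the values
`1, -1` are taken only finitely often and `Im ω` changes sign only finitely often.) -/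
def FinSign (ω : ℂ → ℂ) : Prop :=
  ∃ (E : Set ℂ) (s : ℂ → ℝ) (δ : ℝ), E.Finite ∧ ContinuousOn s (sphere 0 1 \ E) ∧ 0 < δ ∧
    ∀ ζ ∈ sphere (0 : ℂ) 1 \ E, (s ζ = -1 ∨ s ζ = 1) ∧
      (‖ω ζ‖ ≤ 1 - δ ∨ (ω ζ ≠ 1 ∧ ω ζ ≠ -1 ∧ 0 ≤ s ζ * (ω ζ).im))

/-- tameness in terms of `l = log (z f' / f) / α` -/
structure TameL (l : ℂ → ℂ) (F : Set ℂ) (s : ℂ → ℝ) (δ : ℝ) : Prop where
  finite : F.Finite
  cont : ContinuousOn s (sphere 0 1 \ F)
  vals : ∀ ζ ∈ sphere (0 : ℂ) 1 \ F, s ζ = -1 ∨ s ζ = 0 ∨ s ζ = 1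
  pos : 0 < δ
  lower : ∀ ζ ∈ sphere (0 : ℂ) 1 \ F, s ζ ≠ -1 →
    ∀ᶠ z in 𝓝[ball 0 1] ζ, -(Real.pi / 2 - δ) ≤ (l z).im
  upper : ∀ ζ ∈ sphere (0 : ℂ) 1 \ F, s ζ ≠ 1 →
    ∀ᶠ z in 𝓝[ball 0 1] ζ, (l z).im ≤ Real.pi / 2 - δ

/-- the end point `e^{iη}` of the small arc -/
noncomputable def cc (η : ℝ) : ℂ := exp (η * I)

/-- Möbius map of the disc onto the upper half plane; the arc `Re ζ < cos η` goes to `(0, ∞)` -/
noncomputable def ww (η : ℝ) (z : ℂ) : ℂ := (cc η - z) / (1 - cc η * z)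

/-- its square root, mapping the disc onto the first quadrant -/
noncomputable def vv (η : ℝ) (z : ℂ) : ℂ := exp (log (ww η z) / 2)

/-- the inverse of `vv` on `(0, ∞)` -/
noncomputable def psi (η : ℝ) (v : ℝ) : ℂ := (cc η - (v : ℂ) ^ 2) / (1 - cc η * (v : ℂ) ^ 2)

/-- a function vanishing at `vv η 0 = e^{iη/2}`, nonnegative on the positive axis -/
noncomputable def NN (η : ℝ) (v : ℂ) : ℂ :=
  (v ^ 2 - 2 * (Real.cos (η / 2) : ℂ) * v + 1) / (1 + v) ^ 2

/-- a function with values in `[0, 1]` on the positive axis and large at `e^{iη/2}` -/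
noncomputable def MM (v : ℂ) : ℂ := 4 * v / (1 + v) ^ 2

/-- the sign pattern, times a factor turning the value at `e^{iη/2}` -/
noncomputable def KK (σ : ℝ) (L : Finset ℝ) (b : ℕ) (v : ℂ) : ℂ :=
  (σ : ℂ) * (∏ a ∈ L, ((v - (a : ℂ)) / (1 + v))) * (v / (1 + v)) ^ b

/-- the perturbing function -/
noncomputable def YY (η σ : ℝ) (L : Finset ℝ) (b n : ℕ) (z : ℂ) : ℂ :=
  NN η (vv η z) * KK σ L b (vv η z) * MM (vv η z) ^ n

/-- the values of `MM ∘ vv` on the radius opposite to the small arc -/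
noncomputable def muf (η t : ℝ) : ℝ :=
  4 / (2 + √(2 + 2 * ((Real.cos η * (1 + t ^ 2) + 2 * t) / (1 + t ^ 2 + 2 * t * Real.cos η))))

end Pool.Agent.MP07129f
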