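import Pool.Agent.Lib.MP_07129f_an.XP.Defs

/-!
XP-MobB. Proof. `c = cc η = e^{iη}`, `Im c = sin η > 0`. For real `v`, `1 - c v^2 ≠ 0` (if `v ≠ 0`
its imaginary part is `- v^2 sin η ≠ 0`). `|c - w| = |1 - c w|` for real `w` (both squares are
`1 - 2 w cos η + w^2`), so `|psi η v| = 1`; with `w = v^2 > 0`,
`Re ((c - w)/(1 - c w)) = (cos η (1 + w^2) - 2 w)/(1 + w^2 - 2 w cos η)` and this minus `cos η` is
`- 2 w sin^2 η / (1 + w^2 - 2 w cos η) < 0`. Injectivity: `(c - w)/(1 - c w) = (c - w')/(1 - c w')`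
gives `(w' - w)(1 - c^2) = 0` and `c^2 ≠ 1`; then `v^2 = v'^2`, `v, v' > 0`.
`exists_psi`: `1 - c ζ ≠ 0` (otherwise `ζ = conj c`, `Re ζ = cos η`), and
`(c - ζ)/(1 - c ζ) = 2 (cos η - Re ζ)/|1 - c ζ|^2 =: w0 > 0` is real. Put `v = √w0`; then
`psi η v = (c - w0)/(1 - c w0) = ζ` (the map is an involution). `ww η` is continuous at `ζ`, `log`
is continuous at `w0` (slit plane), so `vv η z → exp (log w0 / 2) = √w0` already for `z → ζ` in `𝓝 ζ`.
-/

namespace Pool.Agent.MP07129f

open Complex Metric Set Filter Topology MeasureTheory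

variable {η : ℝ}

private lemma xpMobB_c_re : (cc η).re = Real.cos η := by
  unfold cc
  rw [Complex.exp_ofReal_mul_I_re]

private lemma xpMobB_c_im : (cc η).im = Real.sin η := by
  unfold cc
  rw [Complex.exp_ofReal_mul_I_im]

private lemma xpMobB_sin (hη : 0 < η) (hη1 : η ≤ 1) : 0 < Real.sin η :=
  Real.sin_pos_of_pos_of_lt_pi hη (by linarith [Real.pi_gt_three])

/-- the denominator does not vanish for real `w` -/
private lemma xpMobB_den (hη : 0 < η) (hη1 : η ≤ 1) (w : ℝ) : 1 - cc η * (w : ℂ) ≠ 0 := by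
  intro h
  have hs := xpMobB_sin hη hη1
  have him : (1 - cc η * (w : ℂ)).im = - (Real.sin η * w) := by
    simp [xpMobB_c_im]
  have hre : (1 - cc η * (w : ℂ)).re = 1 - Real.cos η * w := by
    simp [xpMobB_c_re]
  rw [h] at him hre
  simp only [Complex.zero_im, Complex.zero_re] at him hre
  have hw : w = 0 := by
    have : Real.sin η * w = 0 := by linarith
    rcases mul_eq_zero.1 this with h0 | h0
    · exact absurd h0 hs.ne'
    · exact h0
  rw [hw] at hre
  norm_num at hre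

private lemma xpMobB_normSq (w : ℝ) :
    Complex.normSq (1 - cc η * (w : ℂ)) = 1 + w ^ 2 - 2 * w * Real.cos η := by
  have hsc := Real.sin_sq_add_cos_sq η
  rw [Complex.normSq_apply]
  have him : (1 - cc η * (w : ℂ)).im = - (Real.sin η * w) := by
    simp [xpMobB_c_im]
  have hre : (1 - cc η * (w : ℂ)).re = 1 - Real.cos η * w := by
    simp [xpMobB_c_re]
  rw [him, hre]
  linear_combination w ^ 2 * hsc

private lemma xpMobB_normSq' (w : ℝ) :
    Complex.normSq (cc η - (w : ℂ)) = 1 + w ^ 2 - 2 * w * Real.cos η := by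
  have hsc := Real.sin_sq_add_cos_sq η
  rw [Complex.normSq_apply]
  have him : (cc η - (w : ℂ)).im = Real.sin η := by
    simp [xpMobB_c_im]
  have hre : (cc η - (w : ℂ)).re = Real.cos η - w := by
    simp [xpMobB_c_re]
  rw [him, hre]
  linear_combination hsc

private lemma xpMobB_pos (hη : 0 < η) (hη1 : η ≤ 1) (w : ℝ) :
    0 < 1 + w ^ 2 - 2 * w * Real.cos η := by
  rw [← xpMobB_normSq]
  exact Complex.normSq_pos.2 (xpMobB_den hη hη1 w)

private lemma xpMobB_psi (v : ℝ) :
    psi η v = (cc η - ((v ^ 2 : ℝ) : ℂ)) / (1 - cc η * ((v ^ 2 : ℝ) : ℂ)) := by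
  unfold psi
  push_cast
  rfl

/-- XP-MobB (1) -/
lemma psi_mem (hη : 0 < η) (hη1 : η ≤ 1) {v : ℝ} (hv : 0 < v) :
    psi η v ∈ sphere (0 : ℂ) 1 ∧ (psi η v).re < Real.cos η := by
  have hs := xpMobB_sin hη hη1
  have hsc := Real.sin_sq_add_cos_sq η
  have hw : 0 < v ^ 2 := by positivity
  have hpos := xpMobB_pos hη hη1 (v ^ 2)
  constructor
  · rw [mem_sphere_zero_iff_norm, xpMobB_psi]
    have h1 : Complex.normSq ((cc η - ((v ^ 2 : ℝ) : ℂ)) / (1 - cc η * ((v ^ 2 : ℝ) : ℂ))) = 1 := by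
      rw [Complex.normSq_div, xpMobB_normSq, xpMobB_normSq', div_self hpos.ne']
    rw [Complex.normSq_eq_norm_sq] at h1
    have h2 := norm_nonneg ((cc η - ((v ^ 2 : ℝ) : ℂ)) / (1 - cc η * ((v ^ 2 : ℝ) : ℂ)))
    nlinarith
  · rw [xpMobB_psi]
    set w : ℝ := v ^ 2 with hwdef
    have key : ((cc η - (w : ℂ)) / (1 - cc η * (w : ℂ))).re
        = (Real.cos η * (1 + w ^ 2) - 2 * w) / (1 + w ^ 2 - 2 * w * Real.cos η) := by
      rw [Complex.div_re, xpMobB_normSq, ← add_div]
      congr 1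
      have him : (cc η - (w : ℂ)).im = Real.sin η := by
        simp [xpMobB_c_im]
      have hre : (cc η - (w : ℂ)).re = Real.cos η - w := by
        simp [xpMobB_c_re]
      have him' : (1 - cc η * (w : ℂ)).im = - (Real.sin η * w) := by
        simp [xpMobB_c_im]
      have hre' : (1 - cc η * (w : ℂ)).re = 1 - Real.cos η * w := by
        simp [xpMobB_c_re]
      rw [him, hre, him', hre']
      linear_combination (-w) * hsc
    rw [key, div_lt_iff₀ hpos]
    have : 0 < 2 * w * Real.sin η ^ 2 := by positivity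
    nlinarith

/-- XP-MobB (2) -/
lemma psi_injOn (hη : 0 < η) (hη1 : η ≤ 1) : InjOn (psi η) (Ioi 0) := by
  intro v hv v' hv' h
  have hv0 : 0 < v := hv
  have hv0' : 0 < v' := hv'
  have hs := xpMobB_sin hη hη1
  rw [xpMobB_psi, xpMobB_psi] at h
  rw [div_eq_div_iff (xpMobB_den hη hη1 _) (xpMobB_den hη hη1 _)] at h
  have h1 : ((v' ^ 2 : ℝ) - (v ^ 2 : ℝ) : ℂ) * (1 - cc η ^ 2) = 0 := by
    push_cast at h ⊢
    linear_combination h
  have hc : (1 - cc η ^ 2) ≠ 0 := by
    intro h0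
    have h2 : (cc η - 1) * (cc η + 1) = 0 := by linear_combination -h0
    rcases mul_eq_zero.1 h2 with h3 | h3
    · have h4 : (cc η - 1).im = 0 := by rw [h3]; rfl
      rw [Complex.sub_im, Complex.one_im, xpMobB_c_im] at h4
      linarith
    · have h4 : (cc η + 1).im = 0 := by rw [h3]; rfl
      rw [Complex.add_im, Complex.one_im, xpMobB_c_im] at h4
      linarith
  rcases mul_eq_zero.1 h1 with h2 | h2
  · have h3 : v' ^ 2 - v ^ 2 = 0 := by exact_mod_cast h2
    have h4 : (v' - v) * (v' + v) = 0 := by linear_combination h3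
    rcases mul_eq_zero.1 h4 with h5 | h5
    · linarith
    · linarith
  · exact absurd h2 hc

/-- XP-MobB (3) -/
lemma psi_continuous (hη : 0 < η) (hη1 : η ≤ 1) : Continuous (psi η) := by
  unfold psi
  refine Continuous.div (by fun_prop) (by fun_prop) ?_
  intro v
  have := xpMobB_den hη hη1 (v ^ 2)
  push_cast at this
  exact this

/-- XP-MobB (4) -/
lemma exists_psi (hη : 0 < η) (hη1 : η ≤ 1) {ζ : ℂ} (hζ : ζ ∈ sphere (0 : ℂ) 1)
    (hre : ζ.re < Real.cos η) :
    ∃ v : ℝ, 0 < v ∧ psi η v = ζ ∧ Tendsto (vv η) (𝓝[ball 0 1] ζ) (𝓝 (v : ℂ)) := by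
  have hs := xpMobB_sin hη hη1
  have hsc := Real.sin_sq_add_cos_sq η
  have hζ1 : ζ.re ^ 2 + ζ.im ^ 2 = 1 := by
    have h1 : ‖ζ‖ = 1 := by rwa [mem_sphere_zero_iff_norm] at hζ
    have h2 : ‖ζ‖ ^ 2 = 1 := by rw [h1]; norm_num
    rw [← Complex.normSq_eq_norm_sq, Complex.normSq_apply] at h2
    nlinarith
  have dre : (1 - cc η * ζ).re = 1 - (Real.cos η * ζ.re - Real.sin η * ζ.im) := by
    simp [xpMobB_c_re, xpMobB_c_im]
  have dim : (1 - cc η * ζ).im = - (Real.cos η * ζ.im + Real.sin η * ζ.re) := by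
    simp [xpMobB_c_re, xpMobB_c_im]
  have nre : (cc η - ζ).re = Real.cos η - ζ.re := by
    simp [xpMobB_c_re]
  have nim : (cc η - ζ).im = Real.sin η - ζ.im := by
    simp [xpMobB_c_im]
  have hden : 1 - cc η * ζ ≠ 0 := by
    intro h
    rw [h] at dre dim
    simp only [Complex.zero_re, Complex.zero_im] at dre dim
    -- c ζ = 1
    have h1 : Real.cos η * ζ.re - Real.sin η * ζ.im = 1 := by linarith
    have h2 : Real.cos η * ζ.im + Real.sin η * ζ.re = 0 := by linarith
    have h3 : ζ.re = Real.cos η := by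
      linear_combination (Real.cos η) * h1 + (Real.sin η) * h2 - ζ.re * hsc
    linarith
  have hN : 0 < Complex.normSq (1 - cc η * ζ) := Complex.normSq_pos.2 hden
  set w0 : ℝ := 2 * (Real.cos η - ζ.re) / Complex.normSq (1 - cc η * ζ) with hw0
  have hw0pos : 0 < w0 := by
    rw [hw0]
    apply div_pos _ hN
    linarith
  have hww : ww η ζ = (w0 : ℂ) := by
    unfold ww
    apply Complex.ext
    · rw [Complex.div_re, Complex.ofReal_re, hw0, ← add_div]
      congr 1
      rw [dre, dim, nre, nim]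
      linear_combination (-ζ.re) * hsc + (Real.cos η) * hζ1
    · rw [Complex.div_im, Complex.ofReal_im, ← sub_div]
      rw [dre, dim, nre, nim]
      rw [div_eq_zero_iff]
      left
      linear_combination (ζ.im) * hsc - Real.sin η * hζ1
  have hcont : ContinuousAt (ww η) ζ := by
    unfold ww
    exact ContinuousAt.div (by fun_prop) (by fun_prop) hden
  have hslit : ww η ζ ∈ Complex.slitPlane := by
    rw [hww, Complex.mem_slitPlane_iff]
    left
    simpa using hw0pos
  have hvv : ContinuousAt (vv η) ζ := by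
    unfold vv
    exact (ContinuousAt.cexp ((hcont.clog hslit).div_const 2))
  refine ⟨√w0, Real.sqrt_pos.2 hw0pos, ?_, ?_⟩
  · rw [xpMobB_psi, Real.sq_sqrt hw0pos.le, div_eq_iff (xpMobB_den hη hη1 _)]
    have h1 : (w0 : ℂ) * (1 - cc η * ζ) = cc η - ζ := by
      rw [← hww]
      unfold ww
      rw [div_mul_cancel₀ _ hden]
    linear_combination -h1
  · have hval : vv η ζ = ((√w0 : ℝ) : ℂ) := by
      unfold vv
      rw [hww, ← Complex.ofReal_log hw0pos.le]
      rw [show ((Real.log w0 : ℝ) : ℂ) / 2 = ((Real.log w0 / 2 : ℝ) : ℂ) by push_cast; ring]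
      rw [← Complex.ofReal_exp]
      congr 1
      rw [Real.sqrt_eq_rpow, Real.rpow_def_of_pos hw0pos]
      congr 1
      ring
    rw [← hval]
    exact hvv.tendsto.mono_left nhdsWithin_le_nhds

end Pool.Agent.MP07129f
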