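import Pool.Agent.Lib.MP_07129f_an.XP.Pat
import Pool.Agent.Lib.MP_07129f_an.XP.MobB

/-!
XP-FunA. Proof. `1 ∈ sphere \ F`, `s` is continuous there within `sphere \ F` and `F` is finite
without `1`, so there is `ρ > 0` such that every `ζ` in the circle with `‖ζ - 1‖ < ρ` is not in `F`
and has `|s ζ| < 1/2`, hence `s ζ = 0`. Take `η = min 1 (ρ/2)`: if `‖ζ‖ = 1` and `cos η ≤ Re ζ` then
`‖ζ - 1‖^2 = 2 - 2 Re ζ ≤ 2 - 2 cos η ≤ η^2` (`Real.one_sub_sq_div_two_le_cos`).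
Let `F' = {v : 0 < v, psi η v ∈ F}`: finite by `psi_injOn` (`Set.Finite.preimage`), a Finset.
`v ↦ s (psi η v)` is continuous on `Ioi 0 \ F'` and has values `-1, 0, 1` there (`psi_mem`,
`psi_continuous`). Apply `pattern`.
-/

namespace Pool.Agent.MP07129f

open Complex Metric Set Filter Topology MeasureTheory

/-- XP-FunA: choice of the small arc and of the sign pattern. -/
lemma exists_arc {F : Set ℂ} {s : ℂ → ℝ} (hF : F.Finite)
    (hc : ContinuousOn s (sphere 0 1 \ F))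
    (hv : ∀ ζ ∈ sphere (0 : ℂ) 1 \ F, s ζ = -1 ∨ s ζ = 0 ∨ s ζ = 1) (h1 : (1 : ℂ) ∉ F)
    (hs1 : s 1 = 0) :
    ∃ (η σ : ℝ) (L : Finset ℝ), 0 < η ∧ η ≤ 1 ∧ (σ = 1 ∨ σ = -1) ∧
      (∀ ζ ∈ sphere (0 : ℂ) 1, Real.cos η ≤ ζ.re → s ζ = 0) ∧
      ∀ v : ℝ, 0 < v → psi η v ∉ F → 0 ≤ s (psi η v) * (σ * ∏ a ∈ L, (v - a)) := by
  have h1s : (1 : ℂ) ∈ sphere (0 : ℂ) 1 := by simp
  have hval := hv
  obtain ⟨ρ1, hρ1, hs⟩ := Metric.continuousOn_iff.1 hc 1 ⟨h1s, h1⟩ (1 / 2) (by norm_num)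
  obtain ⟨ρ2, hρ2, hb⟩ := Metric.isOpen_iff.1 hF.isClosed.isOpen_compl 1 h1
  set η : ℝ := min 1 (min ρ1 ρ2 / 2) with hη
  have hρ : 0 < min ρ1 ρ2 := lt_min hρ1 hρ2
  have hη0 : 0 < η := lt_min one_pos (by positivity)
  have hη1 : η ≤ 1 := min_le_left _ _
  have hηρ : η < min ρ1 ρ2 := lt_of_le_of_lt (min_le_right _ _) (by linarith)
  obtain ⟨σ, L, hσ, -, hL⟩ := pattern
    (Set.Finite.of_injOn (f := psi η) (s := {v : ℝ | 0 < v ∧ psi η v ∈ F}) (t := F)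
      (fun v hv => hv.2) ((psi_injOn hη0 hη1).mono fun v hv => hv.1) hF).toFinset
    (fun v => s (psi η v)) (by
      refine hc.comp (psi_continuous hη0 hη1).continuousOn fun v hv => ?_
      have hv1 : 0 < v := hv.1
      refine ⟨(psi_mem hη0 hη1 hv1).1, fun hF' => hv.2 ?_⟩
      simp only [Set.Finite.coe_toFinset, Set.mem_ofPred_eq]
      exact ⟨hv1, hF'⟩) (by
      intro v hv
      have hv1 : 0 < v := hv.1
      refine hval _ ⟨(psi_mem hη0 hη1 hv1).1, fun hF' => hv.2 ?_⟩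
      simp only [Set.Finite.coe_toFinset, Set.mem_ofPred_eq]
      exact ⟨hv1, hF'⟩)
  refine ⟨η, σ, L, hη0, hη1, hσ, ?_, ?_⟩
  · intro ζ hζ hre
    have hn : ‖ζ‖ = 1 := by simpa using hζ
    have hsq : ‖ζ - 1‖ ^ 2 ≤ η ^ 2 := by
      have e1 : ‖ζ‖ ^ 2 = ζ.re * ζ.re + ζ.im * ζ.im := by
        rw [← Complex.normSq_eq_norm_sq, Complex.normSq_apply]
      have e2 : ‖ζ - 1‖ ^ 2 = (ζ.re - 1) * (ζ.re - 1) + ζ.im * ζ.im := by
        rw [← Complex.normSq_eq_norm_sq, Complex.normSq_apply]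
        simp
      have e3 := Real.one_sub_sq_div_two_le_cos (x := η)
      rw [hn] at e1
      nlinarith
    have hle : ‖ζ - 1‖ ≤ η := (pow_le_pow_iff_left₀ (norm_nonneg _) hη0.le two_ne_zero).1 hsq
    have hd : dist ζ 1 < min ρ1 ρ2 := by
      rw [dist_eq_norm]
      exact lt_of_le_of_lt hle hηρ
    have hζF : ζ ∉ F := hb (Metric.mem_ball.2 (lt_of_lt_of_le hd (min_le_right _ _)))
    have hsm := hs ζ ⟨hζ, hζF⟩ (lt_of_lt_of_le hd (min_le_left _ _))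
    rw [hs1, Real.dist_eq, sub_zero] at hsm
    rcases hval ζ ⟨hζ, hζF⟩ with h | h | h
    · rw [h] at hsm
      norm_num at hsm
    · exact h
    · rw [h] at hsm
      norm_num at hsm
  · intro v hv hvF
    refine hL v ⟨hv, fun hF' => hvF ?_⟩
    simp only [Set.Finite.coe_toFinset, Set.mem_ofPred_eq] at hF'
    exact hF'.2

end Pool.Agent.MP07129f
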