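import Pool.Agent.Lib.MP_07129f_an.XP.Defs

/-!
XP-GbdA. Proof. For `0 ≤ Re v`: `‖v‖ ≤ ‖1 + v‖` and `1 ≤ ‖1 + v‖` (compare squares).
`‖NN‖ ≤ (‖v‖^2 + 2 ‖v‖ + 1)/‖1+v‖^2 ≤ 4`. `‖(v - a)/(1 + v)‖ ≤ (‖v‖ + |a|)/‖1+v‖ ≤ 1 + |a|`,
`‖v/(1+v)‖ ≤ 1`. `‖4 v/(1+v)^2‖ ≤ 4`; for real `v ≥ 0`, `4 v ≤ (1 + v)^2`.
-/

namespace Pool.Agent.MP07129f

open Complex Metric Set Filter Topology MeasureTheory

variable {η σ : ℝ} {L : Finset ℝ} {b n : ℕ}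

/-- XP-GbdA (0) -/
lemma norm_le_norm_one_add {v : ℂ} (hv : 0 ≤ v.re) : ‖v‖ ≤ ‖1 + v‖ ∧ 1 ≤ ‖1 + v‖ := by
  have e1 : ‖1 + v‖ ^ 2 = (1 + v.re) ^ 2 + v.im ^ 2 := by
    rw [Complex.sq_norm, Complex.normSq_apply]
    simp
    ring
  have e2 : ‖v‖ ^ 2 = v.re ^ 2 + v.im ^ 2 := by
    rw [Complex.sq_norm, Complex.normSq_apply]
    ring
  constructor
  · refine abs_le_of_sq_le_sq' ?_ (norm_nonneg _) |>.2
    rw [e1, e2]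
    nlinarith
  · refine abs_le_of_sq_le_sq' ?_ (norm_nonneg _) |>.2
    rw [e1]
    nlinarith [sq_nonneg v.im, sq_nonneg v.re]

/-- XP-GbdA (1) -/
lemma NN_le {v : ℂ} (hv : 0 ≤ v.re) : ‖NN η v‖ ≤ 4 := by
  obtain ⟨h1, h2⟩ := norm_le_norm_one_add hv
  have hpos : 0 < ‖1 + v‖ := lt_of_lt_of_le one_pos h2
  have hc : ‖(Real.cos (η / 2) : ℂ)‖ ≤ 1 := by
    rw [Complex.norm_real, Real.norm_eq_abs]
    exact Real.abs_cos_le_one _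
  unfold NN
  rw [norm_div, norm_pow, div_le_iff₀ (by positivity)]
  have t1 : ‖v ^ 2 - 2 * (Real.cos (η / 2) : ℂ) * v + 1‖ ≤ ‖v‖ ^ 2 + 2 * ‖v‖ + 1 := by
    refine (norm_add_le _ _).trans ?_
    rw [norm_one]
    have t2 : ‖v ^ 2 - 2 * (Real.cos (η / 2) : ℂ) * v‖ ≤ ‖v‖ ^ 2 + 2 * ‖v‖ := by
      refine (norm_sub_le _ _).trans ?_
      rw [norm_pow, norm_mul, norm_mul, Complex.norm_ofNat]
      have t3 : 2 * ‖(Real.cos (η / 2) : ℂ)‖ * ‖v‖ ≤ 2 * ‖v‖ :=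
        mul_le_mul_of_nonneg_right (by linarith) (norm_nonneg _)
      linarith
    linarith
  refine t1.trans ?_
  have s1 : ‖v‖ ^ 2 ≤ ‖1 + v‖ ^ 2 := pow_le_pow_left₀ (norm_nonneg _) h1 2
  have s2 : ‖v‖ ≤ ‖1 + v‖ ^ 2 := by
    have : ‖1 + v‖ ≤ ‖1 + v‖ ^ 2 := by nlinarith
    linarith
  have s3 : 1 ≤ ‖1 + v‖ ^ 2 := one_le_pow₀ h2
  linarith

/-- XP-GbdA (2) -/
lemma KK_le (hσ : σ = 1 ∨ σ = -1) {v : ℂ} (hv : 0 ≤ v.re) :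
    ‖KK σ L b v‖ ≤ ∏ a ∈ L, (1 + |a|) := by
  obtain ⟨h1, h2⟩ := norm_le_norm_one_add hv
  have hpos : 0 < ‖1 + v‖ := lt_of_lt_of_le one_pos h2
  have hs : ‖(σ : ℂ)‖ = 1 := by
    rcases hσ with h | h
    · rw [h]; simp
    · rw [h]; simp
  have hv1 : ‖v / (1 + v)‖ ≤ 1 := by
    rw [norm_div]
    exact div_le_one_of_le₀ h1 hpos.le
  have hprod : ‖∏ a ∈ L, ((v - (a : ℂ)) / (1 + v))‖ ≤ ∏ a ∈ L, (1 + |a|) := by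
    rw [norm_prod]
    refine Finset.prod_le_prod (fun a _ => norm_nonneg _) fun a _ => ?_
    rw [norm_div, div_le_iff₀ hpos]
    have t1 : ‖v - (a : ℂ)‖ ≤ ‖v‖ + |a| := by
      refine (norm_sub_le _ _).trans ?_
      rw [Complex.norm_real, Real.norm_eq_abs]
    have t2 : |a| ≤ |a| * ‖1 + v‖ := le_mul_of_one_le_right (abs_nonneg a) h2
    calc ‖v - (a : ℂ)‖ ≤ ‖v‖ + |a| := t1
      _ ≤ ‖1 + v‖ + |a| * ‖1 + v‖ := add_le_add h1 t2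
      _ = (1 + |a|) * ‖1 + v‖ := by ring
  unfold KK
  rw [norm_mul, norm_mul, hs, one_mul, norm_pow]
  calc ‖∏ a ∈ L, ((v - (a : ℂ)) / (1 + v))‖ * ‖v / (1 + v)‖ ^ b
      ≤ ‖∏ a ∈ L, ((v - (a : ℂ)) / (1 + v))‖ * 1 :=
        mul_le_mul_of_nonneg_left (pow_le_one₀ (norm_nonneg _) hv1) (norm_nonneg _)
    _ = ‖∏ a ∈ L, ((v - (a : ℂ)) / (1 + v))‖ := mul_one _
    _ ≤ _ := hprod

/-- XP-GbdA (3) -/
lemma MM_le {v : ℂ} (hv : 0 ≤ v.re) : ‖MM v‖ ≤ 4 := by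
  obtain ⟨h1, h2⟩ := norm_le_norm_one_add hv
  have hpos : 0 < ‖1 + v‖ := lt_of_lt_of_le one_pos h2
  unfold MM
  rw [norm_div, norm_pow, norm_mul, Complex.norm_ofNat, div_le_iff₀ (by positivity)]
  have s2 : ‖v‖ ≤ ‖1 + v‖ ^ 2 := by
    have : ‖1 + v‖ ≤ ‖1 + v‖ ^ 2 := by nlinarith
    linarith
  linarith

/-- XP-GbdA (4) -/
lemma MM_real_le {v : ℝ} (hv : 0 ≤ v) : ‖MM (v : ℂ)‖ ≤ 1 := by
  have hpos : 0 < 1 + v := by linarith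
  have e : MM (v : ℂ) = ((4 * v / (1 + v) ^ 2 : ℝ) : ℂ) := by
    unfold MM
    push_cast
    rfl
  rw [e, Complex.norm_real, Real.norm_eq_abs, abs_of_nonneg (by positivity),
    div_le_iff₀ (by positivity)]
  nlinarith [sq_nonneg (1 - v)]

end Pool.Agent.MP07129f
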