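import Pool.Agent.Lib.MP_07129f_an.XP.MobA
import Pool.Agent.Lib.MP_07129f_an.XP.MobB
import Pool.Agent.Lib.MP_07129f_an.XP.GbdA

/-!
XP-GbdB. Proof. (1) `NN η`, `KK σ L b`, `MM` are differentiable at every `v` with `0 < Re v`
(`1 + v ≠ 0`), `vv η` is differentiable on the disc with `0 < Re`. (2) product of GbdA bounds.
(3) By `exists_psi`, `vv η z → v > 0` real, `psi η v = ζ`; `YY` is a continuous function of
`vv η z` near `v`, and its value at the real number `v` is `p * (σ * ∏ (v - a))` with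
`p = (v^2 - 2 cos(η/2) v + 1)/(1+v)^2 * (1/(1+v))^(card L) * (v/(1+v))^b * (4v/(1+v)^2)^n ≥ 0`
(`v^2 - 2 cos(η/2) v + 1 ≥ (v-1)^2 ≥ 0` as `v > 0`, `cos ≤ 1`). The bound: its norm is
`‖NN‖ ‖KK‖ ‖MM‖^n ≤ 4 * ∏ (1 + |a|) * 1` by `NN_le`, `KK_le`, `MM_real_le`.
-/

namespace Pool.Agent.MP07129f

open Complex Metric Set Filter Topology MeasureTheory

variable {η σ : ℝ} {L : Finset ℝ} {b n : ℕ}

private lemma gbdB_ne {v : ℂ} (hv : 0 ≤ v.re) : 1 + v ≠ 0 := by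
  intro h
  have h1 := congrArg Complex.re h
  rw [add_re, one_re, zero_re] at h1
  linarith

private lemma gbdB_NN_diff {v : ℂ} (hv : 0 ≤ v.re) : DifferentiableAt ℂ (NN η) v := by
  unfold NN
  exact DifferentiableAt.div (by fun_prop) (by fun_prop) (pow_ne_zero 2 (gbdB_ne hv))

private lemma gbdB_MM_diff {v : ℂ} (hv : 0 ≤ v.re) : DifferentiableAt ℂ MM v := by
  unfold MM
  exact DifferentiableAt.div (by fun_prop) (by fun_prop) (pow_ne_zero 2 (gbdB_ne hv))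

/-- XP-GbdB (0) -/
lemma KK_diff {v : ℂ} (hv : 0 ≤ v.re) : DifferentiableAt ℂ (KK σ L b) v := by
  have hne := gbdB_ne hv
  have h1 : DifferentiableAt ℂ (fun v : ℂ => ∏ a ∈ L, ((v - (a : ℂ)) / (1 + v))) v := by
    have h2 := DifferentiableAt.finset_prod (u := L) (f := fun (a : ℝ) (v : ℂ) => (v - (a : ℂ)) / (1 + v))
      (x := v) (fun a _ => DifferentiableAt.div (by fun_prop) (by fun_prop) hne)
    have h3 : (∏ a ∈ L, (fun v : ℂ => (v - (a : ℂ)) / (1 + v))) =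
        (fun v : ℂ => ∏ a ∈ L, ((v - (a : ℂ)) / (1 + v))) := by
      funext v
      rw [Finset.prod_apply]
    first
      | exact h2
      | (rw [← h3]; exact h2)
  have h4 : DifferentiableAt ℂ (fun v : ℂ => v / (1 + v)) v :=
    DifferentiableAt.div (by fun_prop) (by fun_prop) hne
  unfold KK
  exact (h1.const_mul _).mul (h4.pow b)

/-- XP-GbdB (1) -/
lemma YY_diff (hη : 0 < η) (hη1 : η ≤ 1) : DifferentiableOn ℂ (YY η σ L b n) (ball 0 1) := by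
  intro z hz
  have hv := (vv_re_pos hη hη1 hz).le
  have hd : DifferentiableAt ℂ (vv η) z :=
    (vv_diff hη hη1).differentiableAt (isOpen_ball.mem_nhds hz)
  have h1 : DifferentiableAt ℂ (fun z => NN η (vv η z)) z := (gbdB_NN_diff hv).comp z hd
  have h2 : DifferentiableAt ℂ (fun z => KK σ L b (vv η z)) z := (KK_diff hv).comp z hd
  have h3 : DifferentiableAt ℂ (fun z => MM (vv η z)) z := (gbdB_MM_diff hv).comp z hd
  exact ((h1.mul h2).mul (h3.pow n)).differentiableWithinAt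

/-- XP-GbdB (2) -/
lemma YY_le (hη : 0 < η) (hη1 : η ≤ 1) (hσ : σ = 1 ∨ σ = -1) {z : ℂ} (hz : z ∈ ball (0 : ℂ) 1) :
    ‖YY η σ L b n z‖ ≤ 4 * (∏ a ∈ L, (1 + |a|)) * 4 ^ n := by
  have hv := (vv_re_pos hη hη1 hz).le
  unfold YY
  rw [norm_mul, norm_mul, norm_pow]
  have h1 := NN_le (η := η) hv
  have h2 := KK_le (L := L) (b := b) hσ hv
  have h3 := MM_le hv
  have h4 : (0 : ℝ) ≤ ∏ a ∈ L, (1 + |a|) :=
    Finset.prod_nonneg fun a _ => by positivity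
  exact mul_le_mul (mul_le_mul h1 h2 (norm_nonneg _) (by norm_num))
    (pow_le_pow_left₀ (norm_nonneg _) h3 n) (by positivity) (by positivity)

/-- XP-GbdB (3): boundary values on the arc `Re ζ < cos η`: real, with the sign of
`σ ∏ (v - a)`, and bounded independently of `n`. -/
lemma YY_bdy (hη : 0 < η) (hη1 : η ≤ 1) (hσ : σ = 1 ∨ σ = -1) {ζ : ℂ} (hζ : ζ ∈ sphere (0 : ℂ) 1)
    (hre : ζ.re < Real.cos η) :
    ∃ v p : ℝ, 0 < v ∧ psi η v = ζ ∧ 0 ≤ p ∧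
      |p * (σ * ∏ a ∈ L, (v - a))| ≤ 4 * ∏ a ∈ L, (1 + |a|) ∧
      Tendsto (YY η σ L b n) (𝓝[ball 0 1] ζ) (𝓝 ((p * (σ * ∏ a ∈ L, (v - a)) : ℝ) : ℂ)) := by
  obtain ⟨v, hv, hpsi, hten⟩ := exists_psi hη hη1 hζ hre
  have h1v : 0 < 1 + v := by linarith
  have hvre : 0 ≤ ((v : ℂ)).re := by rw [ofReal_re]; exact hv.le
  set p : ℝ := (v ^ 2 - 2 * Real.cos (η / 2) * v + 1) / (1 + v) ^ 2 *
    (1 / (1 + v)) ^ L.card * (v / (1 + v)) ^ b * (4 * v / (1 + v) ^ 2) ^ n with hp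
  have hp0 : 0 ≤ p := by
    have h1 : 0 ≤ v ^ 2 - 2 * Real.cos (η / 2) * v + 1 := by
      nlinarith [Real.cos_le_one (η / 2), sq_nonneg (v - 1)]
    rw [hp]
    positivity
  have hval : NN η (v : ℂ) * KK σ L b (v : ℂ) * MM (v : ℂ) ^ n =
      ((p * (σ * ∏ a ∈ L, (v - a)) : ℝ) : ℂ) := by
    have hne : (1 : ℂ) + (v : ℂ) ≠ 0 := gbdB_ne hvre
    have hprod : ∏ a ∈ L, (((v : ℂ) - (a : ℂ)) / (1 + (v : ℂ))) =
        (∏ a ∈ L, ((v : ℂ) - (a : ℂ))) * (1 / (1 + (v : ℂ))) ^ L.card := by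
      rw [Finset.prod_div_distrib, Finset.prod_const, one_div, inv_pow, div_eq_mul_inv]
    unfold NN KK MM
    rw [hprod, hp]
    push_cast
    ring
  have hc1 : ContinuousAt (fun w : ℂ => NN η w * KK σ L b w * MM w ^ n) (v : ℂ) :=
    (((gbdB_NN_diff hvre).mul (KK_diff hvre)).mul ((gbdB_MM_diff hvre).pow n)).continuousAt
  refine ⟨v, p, hv, hpsi, hp0, ?_, ?_⟩
  · have h1 := NN_le (η := η) hvre
    have h2 := KK_le (L := L) (b := b) hσ hvre
    have h3 := MM_real_le hv.le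
    have h4 : (0 : ℝ) ≤ ∏ a ∈ L, (1 + |a|) :=
      Finset.prod_nonneg fun a _ => by positivity
    have h5 : |p * (σ * ∏ a ∈ L, (v - a))| = ‖NN η (v : ℂ) * KK σ L b (v : ℂ) * MM (v : ℂ) ^ n‖ := by
      rw [hval, norm_real, Real.norm_eq_abs]
    rw [h5, norm_mul, norm_mul, norm_pow]
    calc ‖NN η (v : ℂ)‖ * ‖KK σ L b (v : ℂ)‖ * ‖MM (v : ℂ)‖ ^ n
        ≤ (4 * ∏ a ∈ L, (1 + |a|)) * 1 ^ n :=
          mul_le_mul (mul_le_mul h1 h2 (norm_nonneg _) (by norm_num))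
            (pow_le_pow_left₀ (norm_nonneg _) h3 n) (by positivity) (by positivity)
      _ = 4 * ∏ a ∈ L, (1 + |a|) := by rw [one_pow, mul_one]
  · rw [← hval]
    exact hc1.tendsto.comp hten

end Pool.Agent.MP07129f
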