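import Pool.Agent.Lib.MP_07129f_an.XP.MobA

/-!
XP-GbdC. Proof. `v0 = vv η 0 = e^{iη/2}`, not real, so `G = σ ∏ ((v0 - a)/(1 + v0)) ≠ 0`.
`1 + v0 = 2 cos(η/4) e^{iη/4}`, so `v0/(1 + v0) = ρ e^{iβ}`, `ρ = 1/(2 cos(η/4)) > 0`, `β = η/4`,
`0 < β < π`. `KK = ρ^b |G| e^{i(θ + bβ)}` with `θ = arg G ∈ (-π, π]`. Choose
`b = ⌊(2π - θ)/β⌋₊ + 1`: then `2π < θ + bβ ≤ 2π + β < 3π`, so the sine is positive.
-/

namespace Pool.Agent.MP07129f

open Complex Metric Set Filter Topology MeasureTheory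

variable {η σ : ℝ}

/-- XP-GbdC (1) -/
lemma exists_turn {G : ℂ} (hG : G ≠ 0) {ρ β : ℝ} (hρ : 0 < ρ) (hβ : 0 < β) (hβ1 : β < Real.pi) :
    ∃ b : ℕ, 0 < (G * ((ρ : ℂ) * exp (β * I)) ^ b).im := by
  set θ : ℝ := arg G with hθ
  have hθ1 : -Real.pi < θ := neg_pi_lt_arg G
  have hθ2 : θ ≤ Real.pi := arg_le_pi G
  have hpi := Real.pi_pos
  set x : ℝ := (2 * Real.pi - θ) / β with hx
  have hx0 : 0 ≤ x := by
    rw [hx]
    apply div_nonneg _ hβ.le
    linarith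
  refine ⟨⌊x⌋₊ + 1, ?_⟩
  set b : ℕ := ⌊x⌋₊ + 1 with hb
  have h1 : x < (b : ℝ) := by
    rw [hb]
    push_cast
    exact Nat.lt_floor_add_one x
  have h2 : (b : ℝ) ≤ x + 1 := by
    rw [hb]
    push_cast
    have := Nat.floor_le hx0
    linarith
  have hxβ : x * β = 2 * Real.pi - θ := by
    rw [hx]
    field_simp
  have h3 : 2 * Real.pi < θ + b * β := by
    have := mul_lt_mul_of_pos_right h1 hβ
    linarith
  have h4 : θ + b * β ≤ 2 * Real.pi + β := by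
    have := mul_le_mul_of_nonneg_right h2 hβ.le
    nlinarith
  have h5 : G * ((ρ : ℂ) * exp (β * I)) ^ b =
      ((‖G‖ * ρ ^ b : ℝ) : ℂ) * exp (((θ + b * β : ℝ) : ℂ) * I) := by
    conv_lhs => rw [← norm_mul_exp_arg_mul_I G]
    rw [mul_pow, ← exp_nat_mul, ← hθ]
    push_cast
    rw [add_mul, exp_add, mul_assoc (b : ℂ)]
    ring
  rw [h5, im_ofReal_mul, exp_ofReal_mul_I_im]
  have h6 : 0 < Real.sin (θ + b * β) := by
    rw [← Real.sin_sub_two_pi]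
    apply Real.sin_pos_of_pos_of_lt_pi
    · linarith
    · linarith
  have h7 : 0 < ‖G‖ := norm_pos_iff.2 hG
  positivity

/-- XP-GbdC (2): choice of `b`. -/
lemma exists_b (hη : 0 < η) (hη1 : η ≤ 1) (hσ : σ = 1 ∨ σ = -1) (L : Finset ℝ) :
    ∃ b : ℕ, 0 < (KK σ L b (vv η 0)).im := by
  have hpi := Real.pi_gt_three
  have him : 0 < (exp (((η / 2 : ℝ) : ℂ) * I)).im := by
    rw [exp_ofReal_mul_I_im]
    apply Real.sin_pos_of_pos_of_lt_pi
    · linarith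
    · linarith
  rw [vv_zero hη hη1]
  set v0 : ℂ := exp (((η / 2 : ℝ) : ℂ) * I) with hv0
  have h1 : (1 + v0) ≠ 0 := by
    intro h
    have := congrArg Complex.im h
    simp only [add_im, one_im, zero_im, zero_add] at this
    exact him.ne' this
  have h2 : ∀ a : ℝ, v0 - (a : ℂ) ≠ 0 := by
    intro a h
    have := congrArg Complex.im h
    simp only [sub_im, ofReal_im, zero_im, sub_zero] at this
    exact him.ne' this
  have hσ0 : (σ : ℂ) ≠ 0 := by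
    rcases hσ with h | h <;> simp [h]
  have hG : (σ : ℂ) * (∏ a ∈ L, ((v0 - (a : ℂ)) / (1 + v0))) ≠ 0 := by
    refine mul_ne_zero hσ0 (Finset.prod_ne_zero_iff.2 fun a _ => div_ne_zero (h2 a) h1)
  have hc : 0 < Real.cos (η / 4) := by
    apply Real.cos_pos_of_mem_Ioo
    constructor <;> linarith
  have h3 : v0 / (1 + v0) = ((1 / (2 * Real.cos (η / 4)) : ℝ) : ℂ) * exp (((η / 4 : ℝ) : ℂ) * I) := by
    have h4 : 1 + v0 = ((2 * Real.cos (η / 4) : ℝ) : ℂ) * exp (((η / 4 : ℝ) : ℂ) * I) := by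
      push_cast
      rw [two_cos, add_mul, ← exp_add, neg_mul, ← exp_add, hv0]
      rw [show -((η : ℂ) / 4 * I) + (η : ℂ) / 4 * I = 0 by ring, exp_zero,
        show (η : ℂ) / 4 * I + (η : ℂ) / 4 * I = ((η / 2 : ℝ) : ℂ) * I by push_cast; ring]
      ring
    have h5 : v0 = exp (((η / 4 : ℝ) : ℂ) * I) * exp (((η / 4 : ℝ) : ℂ) * I) := by
      rw [← exp_add, hv0]
      congr 1
      push_cast
      ring
    have h6 : ((2 * Real.cos (η / 4) : ℝ) : ℂ) ≠ 0 := by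
      have : (2 * Real.cos (η / 4)) ≠ 0 := by positivity
      exact_mod_cast this
    have h7 := exp_ne_zero (((η / 4 : ℝ) : ℂ) * I)
    rw [h4]
    nth_rewrite 1 [h5]
    rw [div_eq_iff (mul_ne_zero h6 h7)]
    have h8 : ((1 / (2 * Real.cos (η / 4)) : ℝ) : ℂ) * ((2 * Real.cos (η / 4) : ℝ) : ℂ) = 1 := by
      rw [← ofReal_mul, one_div, inv_mul_cancel₀ (by positivity), ofReal_one]
    linear_combination (-(exp (((η / 4 : ℝ) : ℂ) * I) * exp (((η / 4 : ℝ) : ℂ) * I))) * h8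
  obtain ⟨b, hb⟩ := exists_turn hG (ρ := 1 / (2 * Real.cos (η / 4))) (β := η / 4)
    (by positivity) (by linarith) (by linarith)
  refine ⟨b, ?_⟩
  rw [KK, h3]
  exact hb

end Pool.Agent.MP07129f
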