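import Pool.Agent.Lib.MP_07129f_an.XP.Defs

/-!
XP-Lap. Proof. Choose `t₀ ∈ (0, 1/2]` with `a t ≥ a 0 / 2` on `[0, t₀]`, and `C` from `hab` for `t₀`
(so `C ≥ 0`). Put `m₁ = μ (t₀/2) > m₀ = μ t₀ ≥ 1`.
`(ψ n)' = a μ^n ≥ (a 0 / 2) m₁^n` on `[0, t₀/2]` and `≥ 0` on `[t₀/2, t₀]`, so
`ψ n t₀ ≥ (t₀/2)(a 0/2) m₁^n =: c₁ m₁^n` (monotonicity or the mean value inequality).
On `[t₀, 1)`, `(ψ n)' ≥ - C (1 - t)^(-α) m₀^n` (as `μ t ≤ m₀`), and
`t ↦ ψ n t - C m₀^n/(1-α) * (1 - t)^(1-α)` has derivative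
`a μ^n + C m₀^n (1-t)^(-α) ≥ 0`, so it is monotone on `[t₀, 1)`, which gives
`ψ n r ≥ ψ n t₀ - C m₀^n /(1-α)` for `r ∈ [t₀, 1)`, in particular for `r ∈ [1/2, 1)`.
So `ψ n r ≥ m₀^n (c₁ (m₁/m₀)^n - C/(1-α)) ≥ B` for `n` large, because `m₀^n ≥ 1` and
`(m₁/m₀)^n → ∞`.
-/

namespace Pool.Agent.MP07129f

open Complex Metric Set Filter Topology MeasureTheory

private lemma le_of_hasDeriv {f f' : ℝ → ℝ} {x y : ℝ} (hxy : x ≤ y)
    (h : ∀ t ∈ Icc x y, HasDerivAt f (f' t) t) (h0 : ∀ t ∈ Ioo x y, 0 ≤ f' t) : f x ≤ f y := by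
  have := monotoneOn_of_deriv_nonneg (convex_Icc x y)
    (fun t ht => (h t ht).continuousAt.continuousWithinAt)
    (fun t ht => (h t (interior_subset ht)).differentiableAt.differentiableWithinAt)
    (fun t ht => by
      rw [interior_Icc] at ht
      rw [(h t (Ioo_subset_Icc_self ht)).deriv]
      exact h0 t ht)
  exact this (left_mem_Icc.2 hxy) (right_mem_Icc.2 hxy) hxy

/-- XP-Lap: a Laplace type lower bound, uniform up to `t = 1`. -/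
lemma laplace {α : ℝ} (hα : 0 < α) (hα1 : α < 1) {a μ : ℝ → ℝ} {ψ : ℕ → ℝ → ℝ} (ha0 : 0 < a 0)
    (hac : ContinuousWithinAt a (Ici 0) 0)
    (hab : ∀ t₀ ∈ Ioo (0 : ℝ) 1, ∃ C : ℝ, ∀ t ∈ Ico t₀ 1, |a t| ≤ C * (1 - t) ^ (-α))
    (hμ : StrictAntiOn μ (Ico 0 1)) (hμ1 : ∀ t ∈ Ico (0 : ℝ) 1, 1 ≤ μ t)
    (hψ0 : ∀ n, ψ n 0 = 0)
    (hψ : ∀ n, ∀ t ∈ Ico (0 : ℝ) 1, HasDerivAt (ψ n) (a t * μ t ^ n) t) (B : ℝ) :
    ∃ n : ℕ, ∀ r ∈ Ico (1 / 2 : ℝ) 1, B ≤ ψ n r := by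
  obtain ⟨t₀, ht0, ht0', hat⟩ : ∃ t₀ : ℝ, 0 < t₀ ∧ t₀ ≤ 1 / 2 ∧ ∀ t ∈ Icc 0 t₀, a 0 / 2 ≤ a t := by
    have h1 : ∀ᶠ t in 𝓝[Ici 0] (0 : ℝ), a 0 / 2 < a t :=
      hac.eventually (lt_mem_nhds (by linarith))
    obtain ⟨ε, hε, h2⟩ := Metric.mem_nhdsWithin_iff.1 h1
    refine ⟨min (ε / 2) (1 / 2), by positivity, min_le_right _ _, fun t ht => ?_⟩
    have h3 : t ≤ ε / 2 := ht.2.trans (min_le_left _ _)
    have h4 : t ∈ ball (0 : ℝ) ε ∩ Ici 0 := by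
      refine ⟨?_, ht.1⟩
      rw [mem_ball, Real.dist_eq, sub_zero, abs_of_nonneg ht.1]
      linarith
    exact (h2 h4).le
  obtain ⟨C, hC⟩ := hab t₀ ⟨ht0, by linarith⟩
  have hpos : ∀ t : ℝ, t < 1 → 0 < (1 - t) ^ (-α) := fun t ht =>
    Real.rpow_pos_of_pos (by linarith) _
  have hC0 : 0 ≤ C := by
    have h1 := hC t₀ ⟨le_rfl, by linarith⟩
    have h2 := hpos t₀ (by linarith)
    by_contra h
    push Not at h
    have h3 : C * (1 - t₀) ^ (-α) < 0 := mul_neg_of_neg_of_pos h h2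
    linarith [abs_nonneg (a t₀)]
  set m₀ := μ t₀ with hm0
  set m₁ := μ (t₀ / 2) with hm1
  have hm01 : 1 ≤ m₀ := hμ1 t₀ ⟨ht0.le, by linarith⟩
  have hlt : m₀ < m₁ := hμ (show t₀ / 2 ∈ Ico (0 : ℝ) 1 from ⟨by linarith, by linarith⟩)
    (show t₀ ∈ Ico (0 : ℝ) 1 from ⟨ht0.le, by linarith⟩) (by linarith)
  have hm1pos : 0 < m₁ := by linarith
  have hm0pos : 0 < m₀ := by linarith
  have hα' : 0 < 1 - α := by linarith
  -- the first part of the interval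
  have hA : ∀ n, t₀ / 2 * (a 0 / 2) * m₁ ^ n ≤ ψ n t₀ := by
    intro n
    have h1 : ψ n 0 - a 0 / 2 * m₁ ^ n * 0 ≤ ψ n (t₀ / 2) - a 0 / 2 * m₁ ^ n * (t₀ / 2) := by
      refine le_of_hasDeriv (f := fun t => ψ n t - a 0 / 2 * m₁ ^ n * t)
        (f' := fun t => a t * μ t ^ n - a 0 / 2 * m₁ ^ n * 1) (by linarith) (fun t ht => ?_)
        (fun t ht => ?_)
      · exact (hψ n t ⟨ht.1, by linarith [ht.2]⟩).sub ((hasDerivAt_id t).const_mul _)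
      · have h2 : m₁ ≤ μ t := (hμ.antitoneOn) (show t ∈ Ico (0 : ℝ) 1 from
          ⟨ht.1.le, by linarith [ht.2]⟩) (show t₀ / 2 ∈ Ico (0 : ℝ) 1 from
          ⟨by linarith, by linarith⟩) ht.2.le
        have h3 : m₁ ^ n ≤ μ t ^ n := pow_le_pow_left₀ hm1pos.le h2 n
        have h4 : a 0 / 2 ≤ a t := hat t ⟨ht.1.le, by linarith [ht.2]⟩
        have h5 : a 0 / 2 * m₁ ^ n ≤ a t * μ t ^ n :=
          mul_le_mul h4 h3 (by positivity) (by linarith)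
        show 0 ≤ a t * μ t ^ n - a 0 / 2 * m₁ ^ n * 1
        linarith
    have h2 : ψ n (t₀ / 2) ≤ ψ n t₀ := by
      refine le_of_hasDeriv (f' := fun t => a t * μ t ^ n) (by linarith) (fun t ht => ?_)
        (fun t ht => ?_)
      · exact hψ n t ⟨by linarith [ht.1], by linarith [ht.2]⟩
      · have h3 : a 0 / 2 ≤ a t := hat t ⟨by linarith [ht.1], ht.2.le⟩
        have h4 : 1 ≤ μ t := hμ1 t ⟨by linarith [ht.1], by linarith [ht.2]⟩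
        have h5 : 0 ≤ a t := by linarith
        show 0 ≤ a t * μ t ^ n
        positivity
    rw [hψ0 n] at h1
    nlinarith [h1, h2]
  -- the second part
  have hB : ∀ n, ∀ r ∈ Ico (1 / 2 : ℝ) 1, ψ n t₀ - C * m₀ ^ n / (1 - α) ≤ ψ n r := by
    intro n r hr
    set D := C * m₀ ^ n / (1 - α) with hD
    have hD0 : 0 ≤ D := by positivity
    have h1 : ψ n t₀ - D * (1 - t₀) ^ (1 - α) ≤ ψ n r - D * (1 - r) ^ (1 - α) := by
      refine le_of_hasDeriv (f := fun t => ψ n t - D * (1 - t) ^ (1 - α))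
        (f' := fun t => a t * μ t ^ n - D * ((-1) * (1 - α) * (1 - t) ^ (1 - α - 1)))
        (by linarith [hr.1]) (fun t ht => ?_) (fun t ht => ?_)
      · have h2 : t < 1 := lt_of_le_of_lt ht.2 hr.2
        have h3 : HasDerivAt (fun t : ℝ => (1 - t) ^ (1 - α))
            ((-1) * (1 - α) * (1 - t) ^ (1 - α - 1)) t := by
          have h4 : HasDerivAt (fun t : ℝ => 1 - t) (-1) t := by
            simpa using (hasDerivAt_id t).const_sub 1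
          exact h4.rpow_const (Or.inl (by linarith))
        exact (hψ n t ⟨by linarith [ht.1], h2⟩).sub (h3.const_mul D)
      · have h2 : t < 1 := lt_trans ht.2 hr.2
        have h3 : (1 - α - 1) = -α := by ring
        have h4 : D * ((-1) * (1 - α) * (1 - t) ^ (1 - α - 1)) = - (C * m₀ ^ n * (1 - t) ^ (-α)) := by
          rw [h3, hD]
          field_simp
        show 0 ≤ a t * μ t ^ n - D * ((-1) * (1 - α) * (1 - t) ^ (1 - α - 1))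
        rw [h4]
        have h5 := hC t ⟨ht.1.le, h2⟩
        have h6 : 1 ≤ μ t := hμ1 t ⟨by linarith [ht.1], h2⟩
        have h7 : μ t ≤ m₀ := hμ.antitoneOn (show t₀ ∈ Ico (0 : ℝ) 1 from
          ⟨ht0.le, by linarith⟩) (show t ∈ Ico (0 : ℝ) 1 from ⟨by linarith [ht.1], h2⟩) ht.1.le
        have h8 : μ t ^ n ≤ m₀ ^ n := pow_le_pow_left₀ (by linarith) h7 n
        have h9 : 0 ≤ μ t ^ n := by positivity
        have h10 : |a t * μ t ^ n| ≤ C * (1 - t) ^ (-α) * m₀ ^ n := by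
          rw [abs_mul, abs_of_nonneg h9]
          exact mul_le_mul h5 h8 h9 (mul_nonneg hC0 (hpos t h2).le)
        have h11 := (abs_le.1 h10).1
        nlinarith [h11]
    have h2 : (1 - t₀) ^ (1 - α) ≤ 1 := Real.rpow_le_one (by linarith) (by linarith) hα'.le
    have h3 : 0 ≤ (1 - r) ^ (1 - α) := Real.rpow_nonneg (by linarith [hr.2]) _
    have h4 : D * (1 - t₀) ^ (1 - α) ≤ D := by
      calc D * (1 - t₀) ^ (1 - α) ≤ D * 1 := mul_le_mul_of_nonneg_left h2 hD0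
        _ = D := mul_one D
    have h5 : 0 ≤ D * (1 - r) ^ (1 - α) := mul_nonneg hD0 h3
    linarith
  -- the choice of n
  have hc1 : 0 < t₀ / 2 * (a 0 / 2) := by positivity
  have hq : 1 < m₁ / m₀ := (one_lt_div hm0pos).2 hlt
  obtain ⟨n, hn⟩ := pow_unbounded_of_one_lt ((C / (1 - α) + |B|) / (t₀ / 2 * (a 0 / 2))) hq
  refine ⟨n, fun r hr => ?_⟩
  refine le_trans ?_ (hB n r hr)
  have h1 := hA n
  have h2 : C / (1 - α) + |B| ≤ t₀ / 2 * (a 0 / 2) * (m₁ / m₀) ^ n := by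
    rw [div_lt_iff₀ hc1] at hn
    linarith
  have h3 : 1 ≤ m₀ ^ n := one_le_pow₀ hm01
  have h4 : t₀ / 2 * (a 0 / 2) * m₁ ^ n = m₀ ^ n * (t₀ / 2 * (a 0 / 2) * (m₁ / m₀) ^ n) := by
    rw [div_pow]
    field_simp
  have h5 : m₀ ^ n * (C / (1 - α) + |B|) ≤ t₀ / 2 * (a 0 / 2) * m₁ ^ n := by
    rw [h4]
    exact mul_le_mul_of_nonneg_left h2 (by positivity)
  have h6 : |B| ≤ m₀ ^ n * |B| := le_mul_of_one_le_left (abs_nonneg B) h3
  have h7 : m₀ ^ n * (C / (1 - α) + |B|) = C * m₀ ^ n / (1 - α) + m₀ ^ n * |B| := by ring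
  have h8 := le_abs_self B
  linarith

end Pool.Agent.MP07129f
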