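import Pool.Agent.Lib.MP_07129f_an.XP.Defs

/-!
XP-Pri. Proof. (1) `‖exp (α l)‖ = exp (α Re l) ≤ exp (α ‖l‖)` and
`‖l z‖ ≤ log (1+‖z‖) - log (1-‖z‖)` (`Dat.norm_l_le`), so it is at most
`(1+‖z‖)^α (1-‖z‖)^(-α) ≤ 2^α (1-‖z‖)^(-α) ≤ 2 (1-‖z‖)^(-α)`.
(2) `Re exp (α l) = ‖exp (α l)‖ cos (α Im l)`, `|α Im l| < α π/2 < π/2`, cosine decreasing.
(3) For fixed `z` let `f t = X (t z) - X 0`, `B t = C/(1-α) * (1 - (1 - t ‖z‖)^(1-α))` on `[0,1]`.
`f' t = z k (t z)`, `‖f' t‖ ≤ ‖z‖ C (1 - t ‖z‖)^(-α) = B' t`; use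
`image_norm_le_of_norm_deriv_right_le_deriv_boundary` (or a similar lemma), or copy the method of
`radial_bound` in `Dat.lean`. Then `‖f 1‖ ≤ B 1 ≤ C/(1-α)`.
-/

namespace Pool.Agent.MP07129f

open Complex Metric Set Filter Topology MeasureTheory

/-- XP-Pri (1) -/
lemma Dat.norm_Q_le {α : ℝ} {F l P : ℂ → ℂ} (h : Dat α F l P) (hα : 0 < α) (hα1 : α < 1) {z : ℂ}
    (hz : z ∈ ball (0 : ℂ) 1) : ‖exp (α * l z)‖ ≤ 2 * (1 - ‖z‖) ^ (-α) := by
  have hr0 : 0 ≤ ‖z‖ := norm_nonneg z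
  have hr1 : ‖z‖ < 1 := mem_ball_zero_iff.1 hz
  have h1 : ‖exp (α * l z)‖ ≤ Real.exp (α * (Real.log (1 + ‖z‖) - Real.log (1 - ‖z‖))) := by
    rw [norm_exp]
    apply Real.exp_le_exp.2
    have h2 : ((α : ℂ) * l z).re = α * (l z).re := by simp
    rw [h2]
    exact mul_le_mul_of_nonneg_left (((le_abs_self _).trans (abs_re_le_norm _)).trans
      (h.norm_l_le hz)) hα.le
  have h3 : Real.exp (α * (Real.log (1 + ‖z‖) - Real.log (1 - ‖z‖))) =
      (1 + ‖z‖) ^ α * (1 - ‖z‖) ^ (-α) := by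
    rw [Real.rpow_def_of_pos (by linarith), Real.rpow_def_of_pos (by linarith), ← Real.exp_add]
    congr 1
    ring
  rw [h3] at h1
  refine h1.trans (mul_le_mul_of_nonneg_right ?_ (Real.rpow_nonneg (by linarith) _))
  calc (1 + ‖z‖) ^ α ≤ (1 + ‖z‖) ^ (1 : ℝ) :=
        Real.rpow_le_rpow_of_exponent_le (by linarith) hα1.le
    _ = 1 + ‖z‖ := Real.rpow_one _
    _ ≤ 2 := by linarith

/-- XP-Pri (2) -/
lemma Dat.re_Q_ge {α : ℝ} {F l P : ℂ → ℂ} (h : Dat α F l P) (hα : 0 < α) (hα1 : α < 1) {z : ℂ}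
    (hz : z ∈ ball (0 : ℂ) 1) :
    Real.cos (α * Real.pi / 2) * ‖exp (α * l z)‖ ≤ (exp (α * l z)).re := by
  have h1 : ((α : ℂ) * l z).im = α * (l z).im := by simp
  rw [norm_exp, exp_re, h1, mul_comm]
  refine mul_le_mul_of_nonneg_left ?_ (Real.exp_pos _).le
  have h2 := h.im_lt z hz
  have h3 : |α * (l z).im| ≤ α * Real.pi / 2 := by
    rw [abs_mul, abs_of_pos hα]
    calc α * |(l z).im| ≤ α * (Real.pi / 2) := mul_le_mul_of_nonneg_left h2.le hα.le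
      _ = α * Real.pi / 2 := by ring
  rw [← Real.cos_abs (α * (l z).im)]
  have hpi := Real.pi_pos
  exact Real.cos_le_cos_of_nonneg_of_le_pi (abs_nonneg _) (by nlinarith) h3

/-- XP-Pri (3): a primitive of a function of growth `(1 - |z|)^(-α)` is bounded. -/
lemma prim_bound {α C : ℝ} (hα : 0 < α) (hα1 : α < 1) (hC : 0 ≤ C) {X k : ℂ → ℂ}
    (hX : ∀ z ∈ ball (0 : ℂ) 1, HasDerivAt X (k z) z)
    (hk : ∀ z ∈ ball (0 : ℂ) 1, ‖k z‖ ≤ C * (1 - ‖z‖) ^ (-α)) {z : ℂ}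
    (hz : z ∈ ball (0 : ℂ) 1) : ‖X z - X 0‖ ≤ C / (1 - α) := by
  set r : ℝ := ‖z‖ with hr
  have hr0 : 0 ≤ r := norm_nonneg z
  have hr1 : r < 1 := mem_ball_zero_iff.1 hz
  have hmem : ∀ t ∈ Icc (0 : ℝ) 1, (t : ℂ) * z ∈ ball (0 : ℂ) 1 := by
    intro t ht
    rw [mem_ball_zero_iff, norm_mul, norm_real, Real.norm_eq_abs, abs_of_nonneg ht.1]
    nlinarith [ht.2]
  have hnorm : ∀ t ∈ Icc (0 : ℝ) 1, ‖(t : ℂ) * z‖ = t * r := by
    intro t ht
    rw [norm_mul, norm_real, Real.norm_eq_abs, abs_of_nonneg ht.1]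
  have hfd : ∀ t ∈ Icc (0 : ℝ) 1,
      HasDerivAt (fun t : ℝ => X ((t : ℂ) * z) - X 0) (k ((t : ℂ) * z) * z) t := by
    intro t ht
    have h1 : HasDerivAt (fun t : ℝ => (t : ℂ) * z) z t := by
      have := (ofRealCLM.hasDerivAt (x := t)).mul_const z
      simpa using this
    exact ((hX _ (hmem t ht)).comp t h1).sub_const _
  have hbase : ∀ t ∈ Icc (0 : ℝ) 1, 0 < 1 - t * r := by
    intro t ht
    nlinarith [ht.1, ht.2]
  have hBd : ∀ t ∈ Icc (0 : ℝ) 1,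
      HasDerivAt (fun t : ℝ => C / (1 - α) * (1 - (1 - t * r) ^ (1 - α)))
        (C * (1 - t * r) ^ (-α) * r) t := by
    intro t ht
    have h1 : HasDerivAt (fun t : ℝ => 1 - t * r) (-r) t := by
      have := ((hasDerivAt_id t).mul_const r).const_sub 1
      simpa using this
    have h2 := h1.rpow_const (p := 1 - α) (Or.inl (hbase t ht).ne')
    have h3 := (h2.const_sub 1).const_mul (C / (1 - α))
    refine h3.congr_deriv ?_
    have h4 : (1 : ℝ) - α ≠ 0 := by linarith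
    have h5 : (1 : ℝ) - α - 1 = -α := by ring
    rw [h5]
    field_simp
    try ring
  have key := image_norm_le_of_norm_deriv_right_le_deriv_boundary'
    (f := fun t : ℝ => X ((t : ℂ) * z) - X 0) (f' := fun t : ℝ => k ((t : ℂ) * z) * z)
    (a := 0) (b := 1)
    (B := fun t : ℝ => C / (1 - α) * (1 - (1 - t * r) ^ (1 - α)))
    (B' := fun t : ℝ => C * (1 - t * r) ^ (-α) * r)
    (fun t ht => (hfd t ht).continuousAt.continuousWithinAt)
    (fun t ht => (hfd t (Ico_subset_Icc_self ht)).hasDerivWithinAt)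
    (by simp)
    (fun t ht => (hBd t ht).continuousAt.continuousWithinAt)
    (fun t ht => (hBd t (Ico_subset_Icc_self ht)).hasDerivWithinAt)
    (by
      intro t ht
      have ht' := Ico_subset_Icc_self ht
      have h1 := hk _ (hmem t ht')
      rw [hnorm t ht'] at h1
      rw [norm_mul]
      exact mul_le_mul_of_nonneg_right h1 hr0)
    (right_mem_Icc.2 zero_le_one)
  have h1 : ‖X z - X 0‖ ≤ C / (1 - α) * (1 - (1 - r) ^ (1 - α)) := by
    simpa using key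
  refine h1.trans ?_
  have h2 : 0 ≤ (1 - r) ^ (1 - α) := Real.rpow_nonneg (by linarith) _
  have h3 : 0 ≤ C / (1 - α) := div_nonneg hC (by linarith)
  calc C / (1 - α) * (1 - (1 - r) ^ (1 - α)) ≤ C / (1 - α) * 1 :=
        mul_le_mul_of_nonneg_left (by linarith) h3
    _ = C / (1 - α) := mul_one _

end Pool.Agent.MP07129f
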