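import Pool.Agent.Lib.MP_07129f_an.XP.MobC
import Pool.Agent.Lib.MP_07129f_an.XP.GbdB
import Pool.Agent.Lib.MP_07129f_an.XP.GbdC
import Pool.Agent.Lib.MP_07129f_an.XP.Lap
import Pool.Agent.Lib.MP_07129f_an.XP.Pri

/-!
XP-FunB. Proof. `b` from `exists_b`. `N z = NN η (vv η z)` is analytic in the disc, `N 0 = 0`
(`NN_vv_zero`), so `V = dslope N 0` is analytic in the disc (as in `exists_gen` in `Nec.lean`),
`z * V z = N z`, `V 0 = D < 0` (`NN_vv_deriv`). `V` is bounded in the disc: `‖V z‖ ≤ 4/(1/2) = 8`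
for `‖z‖ ≥ 1/2` (`NN_le`), and continuous on the compact `closedBall 0 (1/2)`. Let
`k n z = exp (α l z) * V z * KK σ L b (vv η z) * MM (vv η z)^n` and `X n` its primitive
(`exists_primitive`), so `z * deriv (X n) z = exp (α l z) * YY η σ L b n z`. `X n` is bounded by
`prim_bound` and `Dat.norm_Q_le`, `KK_le`, `MM_le`.
`ψ n t = (X n (-t)).im` has derivative `- (k n (-t)).im = a t * muf η t ^ n` with
`a t = - (exp (α l (-t)) * V (-t) * KK σ L b (vv η (-t))).im` for `t ∈ [0, 1)` (`MM_vv_neg`);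
`a 0 = - D * (KK σ L b (vv η 0)).im > 0`; `a` is continuous at `0`; `|a t| ≤ C (1 - t)^(-α)`.
Apply `laplace`.
-/

namespace Pool.Agent.MP07129f

open Complex Metric Set Filter Topology MeasureTheory

/-- XP-FunB: the primitive and its growth along the opposite radius. -/
lemma exists_X {α : ℝ} (hα : 0 < α) (hα1 : α < 1) {F l P : ℂ → ℂ} (h : Dat α F l P) {η σ : ℝ}
    (hη : 0 < η) (hη1 : η ≤ 1) (hσ : σ = 1 ∨ σ = -1) (L : Finset ℝ) (B : ℝ) :
    ∃ (b n : ℕ) (X : ℂ → ℂ) (M : ℝ), DifferentiableOn ℂ X (ball 0 1) ∧ X 0 = 0 ∧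
      (∀ z ∈ ball (0 : ℂ) 1, z * deriv X z = exp (α * l z) * YY η σ L b n z) ∧
      (∀ z ∈ ball (0 : ℂ) 1, ‖X z‖ ≤ M) ∧ ∀ r ∈ Ico (1 / 2 : ℝ) 1, B ≤ (X (-(r : ℂ))).im := by
  obtain ⟨b, hb⟩ := exists_b (σ := σ) hη hη1 hσ L
  obtain ⟨D, hD, hDd⟩ := NN_vv_deriv hη hη1
  have hv : ∀ z ∈ ball (0 : ℂ) 1, 0 ≤ (vv η z).re := fun z hz => (vv_re_pos hη hη1 hz).le
  have hvne : ∀ z ∈ ball (0 : ℂ) 1, 1 + vv η z ≠ 0 := by
    intro z hz h0
    have h1 := congrArg Complex.re h0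
    rw [add_re, one_re, zero_re] at h1
    linarith [hv z hz]
  have hvd := vv_diff hη hη1
  set N : ℂ → ℂ := fun z => NN η (vv η z) with hN
  have hNd : DifferentiableOn ℂ N (ball 0 1) := by
    have h1 : DifferentiableOn ℂ (fun z => (vv η z ^ 2 - 2 * (Real.cos (η / 2) : ℂ) * vv η z + 1) /
        (1 + vv η z) ^ 2) (ball 0 1) :=
      (((hvd.pow 2).sub (hvd.const_mul _)).add_const 1).div ((hvd.const_add 1).pow 2)
        fun z hz => pow_ne_zero 2 (hvne z hz)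
    exact h1
  have hN0 : N 0 = 0 := NN_vv_zero hη hη1
  set V : ℂ → ℂ := dslope N 0 with hV
  have hVd : DifferentiableOn ℂ V (ball 0 1) :=
    (differentiableOn_dslope (ball_nhds zero_mem_D)).2 hNd
  have hzV : ∀ z, z * V z = N z := by
    intro z
    have := sub_smul_dslope N 0 z
    rw [sub_zero, hN0, sub_zero, smul_eq_mul] at this
    exact this
  have hV0 : V 0 = (D : ℂ) := by
    rw [hV, dslope_same]
    exact hDd.deriv
  -- bound of V
  obtain ⟨MV, hMV0, hMV⟩ : ∃ MV : ℝ, 0 ≤ MV ∧ ∀ z ∈ ball (0 : ℂ) 1, ‖V z‖ ≤ MV := by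
    have hc : ContinuousOn V (closedBall 0 (1 / 2)) :=
      hVd.continuousOn.mono fun z hz => by
        rw [mem_closedBall] at hz
        rw [mem_ball]
        linarith
    obtain ⟨M1, hM1⟩ := (isCompact_closedBall (0 : ℂ) (1 / 2)).exists_bound_of_continuousOn hc
    refine ⟨max M1 8, le_max_of_le_right (by norm_num), fun z hz => ?_⟩
    by_cases hz2 : ‖z‖ ≤ 1 / 2
    · exact (hM1 z (by rwa [mem_closedBall, dist_zero_right])).trans (le_max_left _ _)
    · refine le_trans ?_ (le_max_right _ _)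
      push Not at hz2
      have h1 : ‖z‖ * ‖V z‖ ≤ 4 := by
        rw [← norm_mul, hzV]
        exact NN_le (hv z hz)
      nlinarith [norm_nonneg (V z)]
  set Kd : ℝ := ∏ a ∈ L, (1 + |a|) with hKd
  have hKd0 : 0 ≤ Kd := Finset.prod_nonneg fun a _ => by positivity
  have hKl : ∀ z ∈ ball (0 : ℂ) 1, ‖KK σ L b (vv η z)‖ ≤ Kd := fun z hz => KK_le hσ (hv z hz)
  have hKc : DifferentiableOn ℂ (fun z => KK σ L b (vv η z)) (ball 0 1) := fun z hz =>
    ((KK_diff (σ := σ) (L := L) (b := b) (hv z hz)).comp_differentiableWithinAt z (hvd z hz))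
  have hMd : DifferentiableOn ℂ (fun z => MM (vv η z)) (ball 0 1) := by
    have h1 : DifferentiableOn ℂ (fun z => 4 * vv η z / (1 + vv η z) ^ 2) (ball 0 1) :=
      (hvd.const_mul 4).div ((hvd.const_add 1).pow 2) fun z hz => pow_ne_zero 2 (hvne z hz)
    exact h1
  set Q : ℂ → ℂ := fun z => exp (α * l z) * V z * KK σ L b (vv η z) with hQ
  have hQd : DifferentiableOn ℂ Q (ball 0 1) :=
    (((h.l_diff.const_mul (α : ℂ)).cexp.mul hVd).mul hKc)
  have hQle : ∀ z ∈ ball (0 : ℂ) 1, ‖Q z‖ ≤ (2 * MV * Kd) * (1 - ‖z‖) ^ (-α) := by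
    intro z hz
    have h1 := h.norm_Q_le hα hα1 hz
    have hz1 : ‖z‖ < 1 := by rwa [mem_ball, dist_zero_right] at hz
    have h2 : 0 ≤ (1 - ‖z‖) ^ (-α) := Real.rpow_nonneg (by linarith) _
    calc ‖Q z‖ = ‖exp (α * l z)‖ * ‖V z‖ * ‖KK σ L b (vv η z)‖ := by
          simp only [hQ, norm_mul]
      _ ≤ (2 * (1 - ‖z‖) ^ (-α)) * MV * Kd := by
          refine mul_le_mul (mul_le_mul h1 (hMV z hz) (norm_nonneg _) (by positivity)) (hKl z hz)
            (norm_nonneg _) (by positivity)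
      _ = (2 * MV * Kd) * (1 - ‖z‖) ^ (-α) := by ring
  set k : ℕ → ℂ → ℂ := fun n z => Q z * MM (vv η z) ^ n with hk
  have hkd : ∀ n, DifferentiableOn ℂ (k n) (ball 0 1) := fun n => hQd.mul (hMd.pow n)
  choose X hX1 hX2 hX3 using fun n => exists_primitive (hkd n)
  have hneg : ∀ t ∈ Ico (0 : ℝ) 1, (-(t : ℂ)) ∈ ball (0 : ℂ) 1 := by
    intro t ht
    rw [mem_ball, dist_zero_right, norm_neg, norm_real, Real.norm_eq_abs, abs_of_nonneg ht.1]
    exact ht.2
  set a : ℝ → ℝ := fun t => -(Q (-(t : ℂ))).im with ha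
  have ha0 : 0 < a 0 := by
    simp only [ha, hQ, ofReal_zero, neg_zero, h.l_zero, mul_zero, exp_zero, one_mul, hV0,
      im_ofReal_mul]
    nlinarith
  have hac : ContinuousWithinAt a (Ici 0) 0 := by
    have h1 : ContinuousAt Q (-((0 : ℝ) : ℂ)) := by
      rw [ofReal_zero, neg_zero]
      exact (hQd.differentiableAt (ball_nhds zero_mem_D)).continuousAt
    have h2 : ContinuousAt (fun t : ℝ => -(t : ℂ)) 0 := by fun_prop
    have h3 : ContinuousAt (fun t : ℝ => Q (-(t : ℂ))) 0 :=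
      ContinuousAt.comp (f := fun t : ℝ => -(t : ℂ)) (g := Q) h1 h2
    have h4 : ContinuousAt a 0 := (continuous_im.continuousAt.comp h3).neg
    exact h4.continuousWithinAt
  have hab : ∀ t₀ ∈ Ioo (0 : ℝ) 1, ∃ C : ℝ, ∀ t ∈ Ico t₀ 1, |a t| ≤ C * (1 - t) ^ (-α) := by
    intro t₀ ht₀
    refine ⟨2 * MV * Kd, fun t ht => ?_⟩
    have ht' : t ∈ Ico (0 : ℝ) 1 := ⟨ht₀.1.le.trans ht.1, ht.2⟩
    have h1 := hQle _ (hneg t ht')
    rw [norm_neg, norm_real, Real.norm_eq_abs, abs_of_nonneg ht'.1] at h1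
    simp only [ha, abs_neg]
    exact (abs_im_le_norm _).trans h1
  have hψ : ∀ n, ∀ t ∈ Ico (0 : ℝ) 1,
      HasDerivAt (fun t : ℝ => (X n (-(t : ℂ))).im) (a t * muf η t ^ n) t := by
    intro n t ht
    have h1 : HasDerivAt (fun t : ℝ => -(t : ℂ)) (-1) t := by
      have := (ofRealCLM.hasDerivAt (x := t)).fun_neg
      simpa using this
    have h2 : HasDerivAt (fun t : ℝ => X n (-(t : ℂ))) (k n (-(t : ℂ)) * (-1)) t :=
      (hX3 n _ (hneg t ht)).comp t h1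
    have h3 := (imCLM.hasFDerivAt (x := X n (-(t : ℂ)))).comp_hasDerivAt t h2
    have h4 : imCLM (k n (-(t : ℂ)) * (-1)) = a t * muf η t ^ n := by
      simp only [hk, ha, imCLM_apply]
      rw [MM_vv_neg hη hη1 ht, ← ofReal_pow, mul_neg, mul_one, neg_im, im_mul_ofReal]
      ring
    rw [h4] at h3
    exact h3
  obtain ⟨n, hn⟩ := laplace (ψ := fun n t => (X n (-(t : ℂ))).im) hα hα1 ha0 hac hab
    (muf_strictAntiOn hη hη1) (fun t ht => one_le_muf hη hη1 ht)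
    (fun n => by simp [hX2 n]) hψ B
  refine ⟨b, n, X n, (2 * MV * Kd * 4 ^ n) / (1 - α), hX1 n, hX2 n, fun z hz => ?_,
    fun z hz => ?_, fun r hr => hn r hr⟩
  · rw [(hX3 n z hz).deriv]
    simp only [hk, hQ, YY]
    have := hzV z
    simp only [hN] at this
    rw [← this]
    ring
  · have h1 := prim_bound (C := 2 * MV * Kd * 4 ^ n) hα hα1 (by positivity) (hX3 n)
      (fun z hz => by
        have hz1 : ‖z‖ < 1 := by rwa [mem_ball, dist_zero_right] at hz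
        have h2 : 0 ≤ (1 - ‖z‖) ^ (-α) := Real.rpow_nonneg (by linarith) _
        calc ‖k n z‖ = ‖Q z‖ * ‖MM (vv η z)‖ ^ n := by simp only [hk, norm_mul, norm_pow]
          _ ≤ ((2 * MV * Kd) * (1 - ‖z‖) ^ (-α)) * 4 ^ n :=
            mul_le_mul (hQle z hz) (pow_le_pow_left₀ (norm_nonneg _) (MM_le (hv z hz)) n)
              (by positivity) (by positivity)
          _ = 2 * MV * Kd * 4 ^ n * (1 - ‖z‖) ^ (-α) := by ring) hz
    rwa [hX2 n, sub_zero] at h1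

end Pool.Agent.MP07129f
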