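import Pool.Agent.Lib.MP_07129f_an.XP.FunA
import Pool.Agent.Lib.MP_07129f_an.XP.FunB
import Pool.Agent.Lib.MP_07129f_an.XP.Arc

/-!
XP-FunC: the perturbing pair for a tame function.
-/

namespace Pool.Agent.MP07129f

open Complex Metric Set Filter Topology MeasureTheory

/-- XP-FunC: the perturbing pair for a tame function with `s 1 = 0`. -/
theorem exists_XY {α : ℝ} (hα : 0 < α) (hα1 : α < 1) {F l P : ℂ → ℂ} (h : Dat α F l P)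
    {E : Set ℂ} {s : ℂ → ℝ} {δ : ℝ} (ht : TameL l E s δ) (h1 : (1 : ℂ) ∉ E) (hs1 : s 1 = 0) :
    ∃ (X Y : ℂ → ℂ) (M : ℝ), DifferentiableOn ℂ X (ball 0 1) ∧ DifferentiableOn ℂ Y (ball 0 1) ∧
      X 0 = 0 ∧ (∀ z ∈ ball (0 : ℂ) 1, z * deriv X z = exp (α * l z) * Y z) ∧
      (∀ z ∈ ball (0 : ℂ) 1, ‖X z‖ ≤ M ∧ ‖Y z‖ ≤ M) ∧ (∃ z ∈ ball (0 : ℂ) 1, X z ≠ 0) ∧
      ∀ ζ ∈ sphere (0 : ℂ) 1 \ E, s ζ ≠ 0 → (∀ᶠ z in 𝓝[ball 0 1] ζ, 0 ≤ (X z).im) ∧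
        ∃ y : ℝ, 0 ≤ s ζ * y ∧ Tendsto Y (𝓝[ball 0 1] ζ) (𝓝 (y : ℂ)) := by
  obtain ⟨η, σ, L, hη, hη1, hσ, harc, hpat⟩ := exists_arc ht.finite ht.cont ht.vals h1 hs1
  have hpi := Real.pi_pos
  set K₀ : ℝ := ∏ a ∈ L, (1 + |a|) with hK₀
  have hK₀0 : 0 ≤ K₀ := Finset.prod_nonneg fun a _ => by positivity
  set κ : ℝ := Real.cos (α * Real.pi / 2) with hκdef
  have hκ : 0 < κ := Real.cos_pos_of_mem_Ioo ⟨by nlinarith, by nlinarith⟩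
  set K : ℝ := 4 * K₀ + 1 with hK
  have hK0 : 0 < K := by positivity
  set B : ℝ := 2 * Real.pi * K / κ with hB
  have hB0 : 0 < B := by positivity
  obtain ⟨b, n, X, M, hX, hX0, hXd, hXM, hXr⟩ := exists_X hα hα1 h hη hη1 hσ L B
  have hY : DifferentiableOn ℂ (YY η σ L b n) (ball 0 1) := YY_diff hη hη1
  have hQ : DifferentiableOn ℂ (fun z => exp (α * l z)) (ball 0 1) :=
    (h.l_diff.const_mul (α : ℂ)).cexp
  have hYb : ∀ ζ ∈ sphere (0 : ℂ) 1, ζ.re < Real.cos η →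
      ∀ᶠ z in 𝓝[ball 0 1] ζ, ‖YY η σ L b n z‖ ≤ K := by
    intro ζ hζ hre
    obtain ⟨v, p, hv, hpsi, hp, hle, hT⟩ := YY_bdy (b := b) (n := n) (L := L) hη hη1 hσ hζ hre
    have h2 := hT.norm
    rw [norm_real, Real.norm_eq_abs] at h2
    have h3 : |p * (σ * ∏ a ∈ L, (v - a))| < K := by rw [hK]; linarith
    exact (h2.eventually (gt_mem_nhds h3)).mono fun z hz => hz.le
  have him := arc_im hκ hK0.le hη hη1 hQ (by simp [h.l_zero])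
    (fun z hz => h.re_Q_ge hα hα1 hz) hX hY hXd hYb le_rfl hXr
  have hmem : (-((1 / 2 : ℝ) : ℂ)) ∈ ball (0 : ℂ) 1 := by
    rw [mem_ball_zero_iff, norm_neg, norm_real]; norm_num
  refine ⟨X, YY η σ L b n, max M (4 * K₀ * 4 ^ n), hX, hY, hX0, hXd, fun z hz =>
    ⟨(hXM z hz).trans (le_max_left _ _), (YY_le hη hη1 hσ hz).trans (le_max_right _ _)⟩,
    ⟨_, hmem, fun h0 => ?_⟩, fun ζ hζ hsζ => ?_⟩
  · have h2 := hXr (1 / 2) ⟨le_rfl, by norm_num⟩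
    rw [h0] at h2
    simp only [zero_im] at h2
    linarith
  · have hre : ζ.re < Real.cos η := by
      by_contra hcon
      push Not at hcon
      exact hsζ (harc ζ hζ.1 hcon)
    refine ⟨him ζ hζ.1 hre, ?_⟩
    obtain ⟨v, p, hv, hpsi, hp, hle, hT⟩ := YY_bdy (b := b) (n := n) (L := L) hη hη1 hσ hζ.1 hre
    refine ⟨_, ?_, hT⟩
    have h2 := hpat v hv (by rw [hpsi]; exact hζ.2)
    rw [hpsi] at h2
    have e : s ζ * (p * (σ * ∏ a ∈ L, (v - a))) = p * (s ζ * (σ * ∏ a ∈ L, (v - a))) := by ring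
    rw [e]
    exact mul_nonneg hp h2

end Pool.Agent.MP07129f
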