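import Pool.Agent.Lib.MP_07129f_an.XP.Core

/-!
XP-MainB. Proof. `‖e‖ = 1`. The triple `z ↦ conj e * F (e z)`, `z ↦ l (e z)`, `z ↦ P (e z)` is again
`Dat α` (`z * deriv (P ∘ (e ·)) z = (e z) * P'(e z)`), and `TameL (l ∘ (e ·)) E' s' δ` with
`E' = {ζ | e ζ ∈ E}`, `s' ζ = s (e ζ)` (the map `z ↦ e z` is a homeomorphism preserving the disc and
the circle: `Tendsto (e * ·) (𝓝[ball 0 1] ζ) (𝓝[ball 0 1] (e ζ))`). `1 ∉ E'`, `s' 1 = 0`. From
`exists_pair` get `H', h1'` and put `H z = H' (conj e * z)`, `h1 z = h1' (conj e * z)`.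
-/

namespace Pool.Agent.MP07129f

open Complex Metric Set Filter Topology MeasureTheory

private lemma mainB_ball {e z : ℂ} (he : ‖e‖ = 1) (hz : z ∈ ball (0 : ℂ) 1) :
    e * z ∈ ball (0 : ℂ) 1 := by
  rw [mem_ball_zero_iff] at hz ⊢
  rw [norm_mul, he, one_mul]
  exact hz

private lemma mainB_sphere {e z : ℂ} (he : ‖e‖ = 1) (hz : z ∈ sphere (0 : ℂ) 1) :
    e * z ∈ sphere (0 : ℂ) 1 := by
  rw [mem_sphere_zero_iff_norm] at hz ⊢
  rw [norm_mul, he, one_mul]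
  exact hz

private lemma mainB_diff {e : ℂ} {f : ℂ → ℂ} (he : ‖e‖ = 1)
    (hf : DifferentiableOn ℂ f (ball 0 1)) :
    DifferentiableOn ℂ (fun z => f (e * z)) (ball 0 1) := by
  have h1 : DifferentiableOn ℂ (fun z : ℂ => e * z) (ball 0 1) :=
    (differentiable_id.const_mul e).differentiableOn
  exact hf.comp h1 (fun z hz => mainB_ball he hz)

private lemma mainB_deriv {e z : ℂ} {f : ℂ → ℂ} (he : ‖e‖ = 1)
    (hf : DifferentiableOn ℂ f (ball 0 1)) (hz : z ∈ ball (0 : ℂ) 1) :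
    z * deriv (fun z => f (e * z)) z = (e * z) * deriv f (e * z) := by
  have h1 : HasDerivAt f (deriv f (e * z)) (e * z) :=
    (hf.differentiableAt (ball_nhds (mainB_ball he hz))).hasDerivAt
  have h2 : HasDerivAt (fun z : ℂ => e * z) e z := by
    simpa using (hasDerivAt_id z).const_mul e
  have h3 : HasDerivAt (fun z => f (e * z)) (deriv f (e * z) * e) z := h1.comp z h2
  rw [h3.deriv]
  ring

private lemma mainB_tendsto {e ζ : ℂ} (he : ‖e‖ = 1) :
    Tendsto (fun z : ℂ => e * z) (𝓝[ball 0 1] ζ) (𝓝[ball 0 1] (e * ζ)) := by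
  have h1 : Continuous (fun z : ℂ => e * z) := continuous_const.mul continuous_id
  refine tendsto_nhdsWithin_of_tendsto_nhds_of_eventually_within _
    (h1.continuousAt.tendsto.mono_left nhdsWithin_le_nhds) ?_
  filter_upwards [self_mem_nhdsWithin] with z hz
  exact mainB_ball he hz

/-- XP-MainB: rotation. -/
lemma exists_pair_rot {α : ℝ} (hα : 0 < α) (hα1 : α < 1) {F l P : ℂ → ℂ} (h : Dat α F l P)
    {E : Set ℂ} {s : ℂ → ℝ} {δ : ℝ} (ht : TameL l E s δ) {e : ℂ} (he : e ∈ sphere (0 : ℂ) 1 \ E)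
    (hse : s e = 0) :
    ∃ (H h1 : ℂ → ℂ), DifferentiableOn ℂ H (ball 0 1) ∧ DifferentiableOn ℂ h1 (ball 0 1) ∧
      H 0 = 0 ∧ (∀ z ∈ ball (0 : ℂ) 1, z * deriv H z = exp (α * l z) * h1 z) ∧
      (∀ z ∈ ball (0 : ℂ) 1, ‖H z‖ ≤ 1 / 8 ∧ ‖h1 z‖ ≤ 1 / 4) ∧
      (∃ z ∈ ball (0 : ℂ) 1, H z ≠ 0) ∧
      ∀ τ : ℝ, (τ = 1 ∨ τ = -1) → ∀ z ∈ ball (0 : ℂ) 1,
        |(α * l z + log (1 + τ * h1 z / (1 + τ * H z))).im| < α * Real.pi / 2 := by
  obtain ⟨he1, heE⟩ := he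
  have hn : ‖e‖ = 1 := mem_sphere_zero_iff_norm.1 he1
  have hc : ‖(starRingEnd ℂ) e‖ = 1 := by rw [RCLike.norm_conj]; exact hn
  have hce : (starRingEnd ℂ) e * e = 1 := by
    rw [mul_comm, Complex.mul_conj, Complex.normSq_eq_norm_sq, hn]
    norm_num
  have hec : e * (starRingEnd ℂ) e = 1 := by rw [mul_comm]; exact hce
  have hdat : Dat α (fun z => (starRingEnd ℂ) e * F (e * z)) (fun z => l (e * z))
      (fun z => P (e * z)) := by
    refine ⟨mainB_diff hn h.l_diff, mainB_diff hn h.P_diff, ?_, ?_, ?_, ?_, ?_⟩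
    · simp only [mul_zero]
      exact h.l_zero
    · simp only [mul_zero]
      exact h.P_zero
    · exact fun z hz => h.im_lt _ (mainB_ball hn hz)
    · intro z hz
      rw [mainB_deriv hn h.P_diff hz]
      exact h.eq _ (mainB_ball hn hz)
    · intro z hz
      rw [h.F_eq _ (mainB_ball hn hz)]
      linear_combination (z * exp (P (e * z))) * hce
  have htame : TameL (fun z => l (e * z)) {ζ | e * ζ ∈ E} (fun ζ => s (e * ζ)) δ := by
    have he0 : e ≠ 0 := by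
      intro h0
      rw [h0, norm_zero] at hn
      exact zero_ne_one hn
    have hmem : ∀ ζ ∈ sphere (0 : ℂ) 1 \ {ζ | e * ζ ∈ E}, e * ζ ∈ sphere (0 : ℂ) 1 \ E :=
      fun ζ hζ => ⟨mainB_sphere hn hζ.1, hζ.2⟩
    refine ⟨?_, ?_, ?_, ht.pos, ?_, ?_⟩
    · exact ht.finite.preimage (fun a _ b _ hab => mul_left_cancel₀ he0 hab)
    · have h1 : ContinuousOn (fun z : ℂ => e * z) (sphere 0 1 \ {ζ | e * ζ ∈ E}) :=
        (continuous_const.mul continuous_id).continuousOn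
      exact ht.cont.comp h1 hmem
    · exact fun ζ hζ => ht.vals _ (hmem ζ hζ)
    · exact fun ζ hζ h0 => (mainB_tendsto hn).eventually (ht.lower _ (hmem ζ hζ) h0)
    · exact fun ζ hζ h0 => (mainB_tendsto hn).eventually (ht.upper _ (hmem ζ hζ) h0)
  obtain ⟨H', h1', hH, hh, hH0, hd, hb, ⟨z₀, hz₀, hHz⟩, him⟩ :=
    exists_pair hα hα1 hdat htame (by
      intro h1
      have h2 : e * 1 ∈ E := h1
      rw [mul_one] at h2
      exact heE h2) (by
      simp only [mul_one]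
      exact hse)
  have hez : ∀ z : ℂ, e * ((starRingEnd ℂ) e * z) = z := fun z => by
    rw [← mul_assoc, hec, one_mul]
  refine ⟨fun z => H' ((starRingEnd ℂ) e * z), fun z => h1' ((starRingEnd ℂ) e * z),
    mainB_diff hc hH, mainB_diff hc hh, ?_, ?_, ?_, ?_, ?_⟩
  · simp only [mul_zero]
    exact hH0
  · intro z hz
    rw [mainB_deriv hc hH hz, hd _ (mainB_ball hc hz), hez]
  · exact fun z hz => hb _ (mainB_ball hc hz)
  · refine ⟨e * z₀, mainB_ball hn hz₀, ?_⟩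
    show H' ((starRingEnd ℂ) e * (e * z₀)) ≠ 0
    rw [← mul_assoc, hce, one_mul]
    exact hHz
  · intro τ hτ z hz
    have h2 := him τ hτ _ (mainB_ball hc hz)
    rw [hez] at h2
    exact h2

end Pool.Agent.MP07129f
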