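import Pool.Agent.Lib.MP_07129f_an.Nec

/-!
XP-Per: perturbation of a member of the class, with the exact condition on the argument.
-/

namespace Pool.Agent.MP07129f

open Complex Metric Set Filter Topology MeasureTheory

/-- XP-Per: as `perturb` in `Nec.lean`, with the exact condition on the argument. -/
lemma perturb2 {α : ℝ} (hα : 0 < α) (hα1 : α < 1) {F l P H h1 : ℂ → ℂ} (h : Dat α F l P)
    (hH : DifferentiableOn ℂ H (ball 0 1)) (hH0 : H 0 = 0)
    (hHd : ∀ z ∈ ball (0 : ℂ) 1, z * deriv H z = exp (α * l z) * h1 z)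
    (hh1 : DifferentiableOn ℂ h1 (ball 0 1))
    (hHb : ∀ z ∈ ball (0 : ℂ) 1, ‖H z‖ ≤ 1 / 8)
    (hh1b : ∀ z ∈ ball (0 : ℂ) 1, ‖h1 z‖ ≤ 1 / 4)
    (hh1c : ∀ z ∈ ball (0 : ℂ) 1,
      |(α * l z + log (1 + h1 z / (1 + H z))).im| < α * Real.pi / 2) :
    ∃ f : C(ball (0 : ℂ) 1, ℂ), f ∈ SStar α ∧ ∀ z : ball (0 : ℂ) 1, f z = F z * (1 + H z) := by
  have hne : ∀ z ∈ ball (0 : ℂ) 1, 7 / 8 ≤ ‖1 + H z‖ := by
    intro z hz
    have h2 := norm_sub_norm_le (1 : ℂ) (-H z)
    rw [norm_one, norm_neg, sub_neg_eq_add] at h2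
    have := hHb z hz
    linarith
  have hne0 : ∀ z ∈ ball (0 : ℂ) 1, 1 + H z ≠ 0 := by
    intro z hz h0
    have := hne z hz
    rw [h0, norm_zero] at this
    linarith
  have hslit : ∀ z ∈ ball (0 : ℂ) 1, 1 + H z ∈ slitPlane := by
    intro z hz
    left
    have h2 := (abs_le.1 ((abs_re_le_norm (H z)).trans (hHb z hz))).1
    rw [add_re, one_re]
    linarith
  set w : ℂ → ℂ := fun z => 1 + h1 z / (1 + H z) with hw
  have hwd : DifferentiableOn ℂ w (ball 0 1) := (hh1.div (hH.const_add 1) hne0).const_add 1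
  have hwb : ∀ z ∈ ball (0 : ℂ) 1, ‖h1 z / (1 + H z)‖ ≤ 8 / 7 * ‖h1 z‖ := by
    intro z hz
    rw [norm_div, div_le_iff₀ (by linarith [hne z hz])]
    have h2 := hne z hz
    have h3 := norm_nonneg (h1 z)
    nlinarith
  have hwslit : ∀ z ∈ ball (0 : ℂ) 1, w z ∈ slitPlane := by
    intro z hz
    left
    have h2 := hwb z hz
    have h3 := hh1b z hz
    have h4 := (abs_le.1 ((abs_re_le_norm (h1 z / (1 + H z))).trans h2)).1
    simp only [hw]
    rw [add_re, one_re]
    linarith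
  have hαc : (α : ℂ) ≠ 0 := by exact_mod_cast hα.ne'
  have hh10 : h1 0 = 0 := by
    have := hHd 0 zero_mem_D
    rw [h.l_zero] at this
    simpa using this.symm
  have hd : Dat α (fun z => F z * (1 + H z)) (fun z => l z + (α : ℂ)⁻¹ * log (w z))
      (fun z => P z + log (1 + H z)) := by
    refine ⟨h.l_diff.add ((hwd.clog hwslit).const_mul _), h.P_diff.add ((hH.const_add 1).clog hslit),
      ?_, ?_, ?_, ?_, ?_⟩
    · simp [hw, h.l_zero, hh10, hH0]
    · simp [h.P_zero, hH0]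
    · intro z hz
      have e : (l z + (α : ℂ)⁻¹ * log (w z)).im = α⁻¹ * (α * l z + log (w z)).im := by
        rw [add_im, add_im, ← ofReal_inv, im_ofReal_mul, im_ofReal_mul, mul_add, ← mul_assoc,
          inv_mul_cancel₀ hα.ne', one_mul]
      rw [e, abs_mul, abs_of_pos (inv_pos.2 hα), inv_mul_lt_iff₀ hα]
      have h2 := hh1c z hz
      linarith
    · intro z hz
      have hPd := (h.P_diff.differentiableAt (ball_nhds hz)).hasDerivAt
      have hHd' := (hH.differentiableAt (ball_nhds hz)).hasDerivAt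
      have h2 : HasDerivAt (fun z => P z + log (1 + H z)) (deriv P z + deriv H z / (1 + H z)) z :=
        hPd.add ((hHd'.const_add 1).clog (hslit z hz))
      have hw0 : w z ≠ 0 := slitPlane_ne_zero (hwslit z hz)
      rw [h2.deriv, mul_add (α : ℂ), mul_inv_cancel_left₀ hαc, exp_add, exp_log hw0, mul_add z,
        h.eq z hz, ← mul_div_assoc, hHd z hz]
      simp only [hw]
      ring
    · intro z hz
      rw [h.F_eq z hz, exp_add, exp_log (hne0 z hz)]
      ring
  exact exists_mem_of_dat hα hα1 hd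

end Pool.Agent.MP07129f
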