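import Pool.Agent.Lib.MP_07129f_an.XP.MainA
import Pool.Agent.Lib.MP_07129f_an.XP.MainB
import Pool.Agent.Lib.MP_07129f_an.XP.Per

/-!
The midpoint theorem.
-/

namespace Pool.Agent.MP07129f

open Complex Metric Set Filter Topology MeasureTheory

/-- the midpoint theorem in terms of `l` -/
theorem midpoint_of_tameL {α : ℝ} (hα : 0 < α) (hα1 : α < 1) {f : C(ball (0 : ℂ) 1, ℂ)}
    {F l P : ℂ → ℂ} (hfF : ∀ z : ball (0 : ℂ) 1, f z = F z) (h : Dat α F l P) {E : Set ℂ}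
    {s : ℂ → ℝ} {δ : ℝ} (ht : TameL l E s δ) {e : ℂ} (he : e ∈ sphere (0 : ℂ) 1 \ E)
    (hse : s e = 0) :
    ∃ f₁ ∈ SStar α, ∃ f₂ ∈ SStar α, f₁ ≠ f₂ ∧ f = (1 / 2 : ℝ) • f₁ + (1 / 2 : ℝ) • f₂ := by
  obtain ⟨H, h1, hH, hh1, hH0, hHd, hb, ⟨z₀, hz₀, hHz⟩, harg⟩ := exists_pair_rot hα hα1 h ht he hse
  obtain ⟨fp, hfp, hfp'⟩ := perturb2 hα hα1 h hH hH0 hHd hh1 (fun z hz => (hb z hz).1)
    (fun z hz => (hb z hz).2) (fun z hz => by simpa using harg 1 (Or.inl rfl) z hz)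
  obtain ⟨fm, hfm, hfm'⟩ := perturb2 (H := fun z => -H z) (h1 := fun z => -h1 z) hα hα1 h hH.neg
    (by simp [hH0]) (fun z hz => by
      have e : deriv (fun z => -H z) z = -deriv H z := deriv.fun_neg
      rw [e, mul_neg, hHd z hz, mul_neg]) hh1.neg
    (fun z hz => by rw [norm_neg]; exact (hb z hz).1)
    (fun z hz => by rw [norm_neg]; exact (hb z hz).2)
    (fun z hz => by simpa using harg (-1) (Or.inr rfl) z hz)
  refine ⟨fp, hfp, fm, hfm, fun heq => ?_, ?_⟩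
  · have h2 := hfp' ⟨z₀, hz₀⟩
    rw [heq, hfm' ⟨z₀, hz₀⟩] at h2
    have hz0 : z₀ ≠ 0 := fun h0 => hHz (by rw [h0, hH0])
    have h3 : F z₀ ≠ 0 := by
      rw [h.F_eq z₀ hz₀]
      exact mul_ne_zero hz0 (exp_ne_zero _)
    simp only at h2
    have h4 : F z₀ * H z₀ = 0 := by linear_combination (-1 / 2 : ℂ) * h2
    exact hHz ((mul_eq_zero.1 h4).resolve_left h3)
  · ext z
    simp only [ContinuousMap.coe_add, ContinuousMap.coe_smul, Pi.add_apply, Pi.smul_apply,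
      real_smul]
    rw [hfp' z, hfm' z, hfF z]
    push_cast
    ring

/-- the midpoint theorem -/
theorem exists_midpoint {α : ℝ} (hα : 0 < α) (hα1 : α < 1) {f : C(ball (0 : ℂ) 1, ℂ)}
    (hf : f ∈ SStar α) {E : Set ℂ} {s : ℂ → ℝ} (ht : Tame α f E s) {e : ℂ}
    (he : e ∈ sphere (0 : ℂ) 1 \ E) (hse : s e = 0) :
    ∃ f₁ ∈ SStar α, ∃ f₂ ∈ SStar α, f₁ ≠ f₂ ∧ f = (1 / 2 : ℝ) • f₁ + (1 / 2 : ℝ) • f₂ := by
  obtain ⟨F, hfF, hF, hinj, hF0, hF1, hq⟩ := hf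
  obtain ⟨l, P, h⟩ := exists_dat hα hF hinj hF0 hF1 hq
  obtain ⟨δ, htL⟩ := ht.toL hα hα1 hfF h
  exact midpoint_of_tameL hα hα1 hfF h htL he hse

/-- proper midpoints are not extreme -/
lemma not_extreme_of_midpoint {S : Set C(ball (0 : ℂ) 1, ℂ)} {f : C(ball (0 : ℂ) 1, ℂ)}
    (h : ∃ f₁ ∈ S, ∃ f₂ ∈ S, f₁ ≠ f₂ ∧ f = (1 / 2 : ℝ) • f₁ + (1 / 2 : ℝ) • f₂) :
    f ∉ (closure (convexHull ℝ S)).extremePoints ℝ := by
  intro hext
  obtain ⟨f₁, hf₁, f₂, hf₂, hne, hmid⟩ := h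
  have hseg : f ∈ openSegment ℝ f₁ f₂ :=
    ⟨1 / 2, 1 / 2, by norm_num, by norm_num, by norm_num, hmid.symm⟩
  have h1 := hext.2 (subset_closure (subset_convexHull ℝ _ hf₁))
    (subset_closure (subset_convexHull ℝ _ hf₂)) hseg
  have hseg' : f ∈ openSegment ℝ f₂ f₁ := by rw [openSegment_symm]; exact hseg
  have h2 := hext.2 (subset_closure (subset_convexHull ℝ _ hf₂))
    (subset_closure (subset_convexHull ℝ _ hf₁)) hseg'
  exact hne (h1.trans h2.symm)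

end Pool.Agent.MP07129f
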