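import Pool.Agent.Lib.MP_07129f_an.XP.Defs

/-!
XP-MainA: from `f` to `l`.
-/

namespace Pool.Agent.MP07129f

open Complex Metric Set Filter Topology MeasureTheory

/-- XP-MainA: tameness in terms of `l`. -/
lemma Tame.toL {α : ℝ} (hα : 0 < α) (hα1 : α < 1) {f : C(ball (0 : ℂ) 1, ℂ)} {F l P : ℂ → ℂ}
    (hfF : ∀ z : ball (0 : ℂ) 1, f z = F z) (h : Dat α F l P) {E : Set ℂ} {s : ℂ → ℝ}
    (ht : Tame α f E s) : ∃ δ, TameL l E s δ := by
  obtain ⟨hE, hc, hv, G, δ, hfG, hδ, hgap⟩ := ht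
  have hFG : ∀ w ∈ ball (0 : ℂ) 1, G w = F w := fun w hw => by
    have h1 := hfF ⟨w, hw⟩
    have h2 := hfG ⟨w, hw⟩
    exact h2.symm.trans h1
  have harg : ∀ ζ ∈ sphere (0 : ℂ) 1, ∀ᶠ z in 𝓝[ball 0 1] ζ,
      arg (z * deriv G z / G z) = α * (l z).im := by
    intro ζ hζ
    have hζ0 : ζ ≠ 0 := by
      intro h0
      rw [h0] at hζ
      simp at hζ
    have h0 : ∀ᶠ z in 𝓝[ball 0 1] ζ, z ≠ 0 := nhdsWithin_le_nhds (isOpen_ne.mem_nhds hζ0)
    filter_upwards [h0, self_mem_nhdsWithin] with z hz0 hz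
    have hd : deriv G z = deriv F z := by
      apply Filter.EventuallyEq.deriv_eq
      filter_upwards [ball_nhds hz] with w hw using hFG w hw
    have hpi := Real.pi_pos
    have h2 := abs_lt.1 (h.im_abs_lt hα hz)
    have h3 : ((α : ℂ) * l z).im = α * (l z).im := by simp
    rw [hd, hFG z hz, h.quot hz hz0, ← log_im, log_exp (by nlinarith) (by nlinarith), h3]
  refine ⟨δ / α, hE, hc, hv, by positivity, fun ζ hζ hs => ?_, fun ζ hζ hs => ?_⟩
  · filter_upwards [(hgap ζ hζ).1 hs, harg ζ hζ.1] with z h1 h2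
    rw [h2] at h1
    have h3 : α * (-(Real.pi / 2 - δ / α)) = -(α * Real.pi / 2) + δ := by
      field_simp
      ring
    rw [← h3] at h1
    exact le_of_mul_le_mul_left h1 hα
  · filter_upwards [(hgap ζ hζ).2 hs, harg ζ hζ.1] with z h1 h2
    rw [h2] at h1
    have h3 : α * (Real.pi / 2 - δ / α) = α * Real.pi / 2 - δ := by
      field_simp
    rw [← h3] at h1
    exact le_of_mul_le_mul_left h1 hα

end Pool.Agent.MP07129f
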