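import Pool.Agent.Lib.MP_07129f_an.XP.Defs

/-!
XP-MobA. Proof.
`ww η z = (c - z)/(1 - c z)` with `c = cc η = e^{iη}`, `|c| = 1`; `1 - c z ≠ 0` for `|z| < 1`.
Multiply numerator and denominator by the conjugate of `1 - c z`:
`Im w = sin η (1 - |z|^2) / |1 - c z|^2 > 0`. So `w` is in the slit plane, `log w` is analytic,
`0 < Im (log w) = arg w < π`, `Im (log w / 2) ∈ (0, π/2)`, and `vv = exp (log w / 2)` has positive
real and imaginary part; `vv^2 = exp (log w) = w`.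
`ww η 0 = c`, `log c = η I` (`0 < η ≤ 1 < π`, `Complex.log_exp`), `vv η 0 = e^{iη/2}`.
`NN η v = (v - v0)(v - conj v0)/(1 + v)^2` with `v0 = e^{iη/2}`: so `NN η (vv η 0) = 0`
(`v0^2 - 2 cos(η/2) v0 + 1 = 0`, since `v0 + 1/v0 = 2 cos (η/2)`).
Derivative at `0`: numerator vanishes at `v0`, so the derivative of `NN η` at `v0` is
`(2 v0 - 2 cos(η/2))/(1 + v0)^2 = 2 i sin(η/2)/(1 + v0)^2`; `(1 + v0)^2 = v0 (2 + 2 cos(η/2))`.
`w'(0) = c^2 - 1`, `(log w)'(0) = (c^2 - 1)/c = 2 i sin η`, `vv'(0) = v0 * i sin η`. Product: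
`D = - 2 sin(η/2) sin η / (2 + 2 cos(η/2)) < 0`.
-/

namespace Pool.Agent.MP07129f

open Complex Metric Set Filter Topology MeasureTheory

variable {η : ℝ}

private lemma xpMobA_c_re : (cc η).re = Real.cos η := by
  unfold cc
  rw [Complex.exp_ofReal_mul_I_re]

private lemma xpMobA_c_im : (cc η).im = Real.sin η := by
  unfold cc
  rw [Complex.exp_ofReal_mul_I_im]

private lemma xpMobA_c_norm : ‖cc η‖ = 1 := by
  unfold cc
  exact Complex.norm_exp_ofReal_mul_I η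

private lemma xpMobA_den {z : ℂ} (hz : z ∈ ball (0 : ℂ) 1) : 1 - cc η * z ≠ 0 := by
  rw [mem_ball_zero_iff] at hz
  intro h
  have h1 : cc η * z = 1 := (sub_eq_zero.1 h).symm
  have h2 : ‖cc η * z‖ = 1 := by rw [h1, norm_one]
  rw [norm_mul, xpMobA_c_norm, one_mul] at h2
  linarith

private lemma xpMobA_sin (hη : 0 < η) (hη1 : η ≤ 1) : 0 < Real.sin η :=
  Real.sin_pos_of_pos_of_lt_pi hη (by linarith [Real.pi_gt_three])

/-- XP-MobA (1) -/
lemma ww_im_pos (hη : 0 < η) (hη1 : η ≤ 1) {z : ℂ} (hz : z ∈ ball (0 : ℂ) 1) :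
    0 < (ww η z).im := by
  have hden := xpMobA_den (η := η) hz
  have hN : 0 < Complex.normSq (1 - cc η * z) := Complex.normSq_pos.2 hden
  have hs := xpMobA_sin hη hη1
  have hsc := Real.sin_sq_add_cos_sq η
  have hz1 : z.re ^ 2 + z.im ^ 2 < 1 := by
    have h1 : ‖z‖ < 1 := by rwa [mem_ball_zero_iff] at hz
    have h2 : ‖z‖ ^ 2 < 1 := by
      have := norm_nonneg z
      nlinarith
    rw [← Complex.normSq_eq_norm_sq, Complex.normSq_apply] at h2
    nlinarith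
  have key : (ww η z).im = Real.sin η * (1 - (z.re ^ 2 + z.im ^ 2)) / Complex.normSq (1 - cc η * z) := by
    unfold ww
    rw [Complex.div_im]
    simp only [Complex.sub_im, Complex.sub_re, Complex.one_re, Complex.one_im, Complex.mul_re,
      Complex.mul_im, xpMobA_c_re, xpMobA_c_im]
    rw [← sub_div]
    congr 1
    linear_combination z.im * hsc
  rw [key]
  have : 0 < 1 - (z.re ^ 2 + z.im ^ 2) := by linarith
  positivity

private lemma xpMobA_ne {z : ℂ} (hη : 0 < η) (hη1 : η ≤ 1) (hz : z ∈ ball (0 : ℂ) 1) :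
    ww η z ≠ 0 := by
  intro h
  have := ww_im_pos hη hη1 hz
  rw [h] at this
  simp at this

/-- XP-MobA (2) -/
lemma vv_sq (hη : 0 < η) (hη1 : η ≤ 1) {z : ℂ} (hz : z ∈ ball (0 : ℂ) 1) :
    vv η z ^ 2 = ww η z := by
  unfold vv
  rw [← Complex.exp_nat_mul]
  have h : ((2 : ℕ) : ℂ) * (log (ww η z) / 2) = log (ww η z) := by
    push_cast
    ring
  rw [h, Complex.exp_log (xpMobA_ne hη hη1 hz)]

private lemma xpMobA_arg (hη : 0 < η) (hη1 : η ≤ 1) {z : ℂ} (hz : z ∈ ball (0 : ℂ) 1) :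
    0 < (log (ww η z) / 2).im ∧ (log (ww η z) / 2).im < Real.pi / 2 := by
  have him := ww_im_pos hη hη1 hz
  have h1 : 0 ≤ Complex.arg (ww η z) := Complex.arg_nonneg_iff.2 him.le
  have h2 : Complex.arg (ww η z) ≠ 0 := by
    intro h
    have := (Complex.arg_eq_zero_iff.1 h).2
    linarith
  have h3 : Complex.arg (ww η z) < Real.pi := Complex.arg_lt_pi_iff.2 (Or.inr him.ne')
  have h4 : (log (ww η z) / 2).im = Complex.arg (ww η z) / 2 := by
    rw [Complex.div_ofNat_im, Complex.log_im]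
  rw [h4]
  have h5 : 0 < Complex.arg (ww η z) := lt_of_le_of_ne h1 h2.symm
  constructor <;> linarith

/-- XP-MobA (3) -/
lemma vv_re_pos (hη : 0 < η) (hη1 : η ≤ 1) {z : ℂ} (hz : z ∈ ball (0 : ℂ) 1) :
    0 < (vv η z).re := by
  obtain ⟨h1, h2⟩ := xpMobA_arg hη hη1 hz
  unfold vv
  rw [Complex.exp_re]
  have hpi := Real.pi_pos
  exact mul_pos (Real.exp_pos _) (Real.cos_pos_of_mem_Ioo ⟨by linarith, h2⟩)

/-- XP-MobA (4) -/
lemma vv_im_pos (hη : 0 < η) (hη1 : η ≤ 1) {z : ℂ} (hz : z ∈ ball (0 : ℂ) 1) :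
    0 < (vv η z).im := by
  obtain ⟨h1, h2⟩ := xpMobA_arg hη hη1 hz
  unfold vv
  rw [Complex.exp_im]
  have hpi := Real.pi_pos
  exact mul_pos (Real.exp_pos _) (Real.sin_pos_of_pos_of_lt_pi h1 (by linarith))

private lemma xpMobA_slit (hη : 0 < η) (hη1 : η ≤ 1) {z : ℂ} (hz : z ∈ ball (0 : ℂ) 1) :
    ww η z ∈ slitPlane :=
  Or.inr (ww_im_pos hη hη1 hz).ne'

/-- XP-MobA (5) -/
lemma vv_diff (hη : 0 < η) (hη1 : η ≤ 1) : DifferentiableOn ℂ (vv η) (ball 0 1) := by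
  intro z hz
  have h1 : DifferentiableAt ℂ (ww η) z := by
    unfold ww
    exact (by fun_prop : DifferentiableAt ℂ (fun z => cc η - z) z).div
      (by fun_prop : DifferentiableAt ℂ (fun z => 1 - cc η * z) z) (xpMobA_den hz)
  have h2 : DifferentiableAt ℂ (fun z => log (ww η z)) z := h1.clog (xpMobA_slit hη hη1 hz)
  have h3 : DifferentiableAt ℂ (fun z => exp (log (ww η z) / 2)) z := (h2.div_const 2).cexp
  exact h3.differentiableWithinAt

private lemma xpMobA_ww0 : ww η 0 = cc η := by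
  unfold ww
  simp

private lemma xpMobA_log (hη : 0 < η) (hη1 : η ≤ 1) : log (cc η) = (η : ℂ) * I := by
  unfold cc
  have hpi := Real.pi_gt_three
  refine Complex.log_exp ?_ ?_
  · simp
    linarith
  · simp
    linarith

/-- XP-MobA (6) -/
lemma vv_zero (hη : 0 < η) (hη1 : η ≤ 1) : vv η 0 = exp ((η / 2 : ℝ) * I) := by
  unfold vv
  rw [xpMobA_ww0, xpMobA_log hη hη1]
  congr 1
  push_cast
  ring

private lemma xpMobA_v0 (hη : 0 < η) (hη1 : η ≤ 1) :
    vv η 0 = (Real.cos (η / 2) : ℂ) + (Real.sin (η / 2) : ℂ) * I := by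
  rw [vv_zero hη hη1, Complex.exp_mul_I, ← Complex.ofReal_cos, ← Complex.ofReal_sin]

private lemma xpMobA_cs : ((Real.sin (η / 2) : ℝ) : ℂ) ^ 2 + ((Real.cos (η / 2) : ℝ) : ℂ) ^ 2 = 1 := by
  have h := Real.sin_sq_add_cos_sq (η / 2)
  exact_mod_cast congrArg (fun r : ℝ => (r : ℂ)) h

private lemma xpMobA_quad (hη : 0 < η) (hη1 : η ≤ 1) :
    vv η 0 ^ 2 - 2 * (Real.cos (η / 2) : ℂ) * vv η 0 + 1 = 0 := by
  rw [xpMobA_v0 hη hη1]
  have h := xpMobA_cs (η := η)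
  have hI := Complex.I_sq
  linear_combination ((Real.sin (η / 2) : ℂ)) ^ 2 * hI - h

/-- XP-MobA (7) -/
lemma NN_vv_zero (hη : 0 < η) (hη1 : η ≤ 1) : NN η (vv η 0) = 0 := by
  unfold NN
  rw [xpMobA_quad hη hη1, zero_div]

/-- XP-MobA (8) -/
lemma NN_vv_deriv (hη : 0 < η) (hη1 : η ≤ 1) :
    ∃ D : ℝ, D < 0 ∧ HasDerivAt (fun z => NN η (vv η z)) (D : ℂ) 0 := by
  have h0 : (0 : ℂ) ∈ ball (0 : ℂ) 1 := mem_ball_self one_pos
  have hpi := Real.pi_gt_three
  have hs2 : 0 < Real.sin (η / 2) :=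
    Real.sin_pos_of_pos_of_lt_pi (by linarith) (by linarith)
  have hc2 : 0 < Real.cos (η / 2) :=
    Real.cos_pos_of_mem_Ioo ⟨by linarith, by linarith⟩
  have hcs := xpMobA_cs (η := η)
  have hquad := xpMobA_quad hη hη1
  have hv0 := xpMobA_v0 hη hη1
  have hre := vv_re_pos hη hη1 h0
  set v0 : ℂ := vv η 0 with hv0def
  have hv0ne : v0 ≠ 0 := by
    intro h
    rw [h] at hre
    simp at hre
  have h1v : 1 + v0 ≠ 0 := by
    intro h
    have h2 : (1 + v0).re = 0 := by rw [h, Complex.zero_re]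
    rw [Complex.add_re, Complex.one_re] at h2
    linarith
  have hcc : cc η = v0 ^ 2 := by
    rw [hv0def, vv_sq hη hη1 h0, xpMobA_ww0]
  have hcne : cc η ≠ 0 := by
    rw [hcc]
    exact pow_ne_zero 2 hv0ne
  -- derivative of ww
  have hw : HasDerivAt (ww η) (cc η ^ 2 - 1) 0 := by
    have h1 : HasDerivAt (fun z : ℂ => cc η - z) (-1) 0 := by
      simpa using (hasDerivAt_id (0 : ℂ)).const_sub (cc η)
    have h2 : HasDerivAt (fun z : ℂ => 1 - cc η * z) (-(cc η)) 0 := by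
      simpa using ((hasDerivAt_id (0 : ℂ)).const_mul (cc η)).const_sub 1
    have h3 := h1.div h2 (by simp)
    have h4 : ((-1) * (1 - cc η * 0) - (cc η - 0) * (-(cc η))) / (1 - cc η * 0) ^ 2 =
        cc η ^ 2 - 1 := by
      simp
      ring
    rw [h4] at h3
    exact h3
  have hl : HasDerivAt (fun z => log (ww η z)) ((cc η ^ 2 - 1) / ww η 0) 0 :=
    hw.clog (xpMobA_slit hη hη1 h0)
  have hv : HasDerivAt (vv η) (v0 * (((cc η ^ 2 - 1) / ww η 0) / 2)) 0 := by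
    have h1 := (hl.div_const 2).cexp
    exact h1
  -- derivative of NN at v0
  have hN : HasDerivAt (NN η) ((2 * v0 - 2 * (Real.cos (η / 2) : ℂ)) / (1 + v0) ^ 2) v0 := by
    have h1 : HasDerivAt (fun v : ℂ => v ^ 2 - 2 * (Real.cos (η / 2) : ℂ) * v + 1)
        (2 * v0 - 2 * (Real.cos (η / 2) : ℂ)) v0 := by
      have ha : HasDerivAt (fun v : ℂ => v ^ 2) (2 * v0) v0 := by
        simpa using hasDerivAt_pow 2 v0
      have hb : HasDerivAt (fun v : ℂ => 2 * (Real.cos (η / 2) : ℂ) * v)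
          (2 * (Real.cos (η / 2) : ℂ)) v0 := by
        simpa using (hasDerivAt_id v0).const_mul (2 * (Real.cos (η / 2) : ℂ))
      exact (ha.sub hb).add_const 1
    have h2 : HasDerivAt (fun v : ℂ => (1 + v) ^ 2) (2 * (1 + v0)) v0 := by
      have ha : HasDerivAt (fun v : ℂ => 1 + v) 1 v0 := by
        simpa using (hasDerivAt_id v0).const_add 1
      have hb := ha.fun_pow 2
      simpa using hb
    have h3 := h1.div h2 (pow_ne_zero 2 h1v)
    have h4 : ((2 * v0 - 2 * (Real.cos (η / 2) : ℂ)) * (1 + v0) ^ 2 -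
        (v0 ^ 2 - 2 * (Real.cos (η / 2) : ℂ) * v0 + 1) * (2 * (1 + v0))) / ((1 + v0) ^ 2) ^ 2 =
        (2 * v0 - 2 * (Real.cos (η / 2) : ℂ)) / (1 + v0) ^ 2 := by
      rw [hquad]
      field_simp
      ring
    rw [h4] at h3
    exact h3
  have hcomp : HasDerivAt (fun z => NN η (vv η z))
      ((2 * v0 - 2 * (Real.cos (η / 2) : ℂ)) / (1 + v0) ^ 2 *
        (v0 * (((cc η ^ 2 - 1) / ww η 0) / 2))) 0 := by
    have h := HasDerivAt.comp (0 : ℂ) (h₂ := NN η) (h := vv η) hN hv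
    exact h
  refine ⟨-(4 * Real.sin (η / 2) ^ 2 * Real.cos (η / 2)) / (2 + 2 * Real.cos (η / 2)), ?_, ?_⟩
  · apply div_neg_of_neg_of_pos
    · have : 0 < 4 * Real.sin (η / 2) ^ 2 * Real.cos (η / 2) := by positivity
      linarith
    · linarith
  · convert hcomp using 1
    rw [xpMobA_ww0, hcc]
    have hden : (2 + 2 * (Real.cos (η / 2) : ℂ)) ≠ 0 := by
      have : (2 + 2 * Real.cos (η / 2) : ℝ) ≠ 0 := by linarith
      exact_mod_cast this
    have h1v2 : (1 + v0) ^ 2 = v0 * (2 + 2 * (Real.cos (η / 2) : ℂ)) := by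
      linear_combination hquad
    have hd : 2 * v0 - 2 * (Real.cos (η / 2) : ℂ) = 2 * (Real.sin (η / 2) : ℂ) * I := by
      rw [hv0]
      ring
    have h4 : (v0 ^ 2) ^ 2 - 1 = 2 * v0 ^ 2 * (2 * (Real.sin (η / 2) : ℂ) * (Real.cos (η / 2) : ℂ)) * I := by
      have e1 : v0 ^ 2 + 1 = 2 * (Real.cos (η / 2) : ℂ) * v0 := by linear_combination hquad
      have e2 : v0 ^ 2 - 1 = 2 * (Real.sin (η / 2) : ℂ) * I * v0 := by
        have : v0 ^ 2 - 1 = v0 * (2 * v0 - 2 * (Real.cos (η / 2) : ℂ)) := by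
          linear_combination (-1 : ℂ) * hquad
        rw [this, hd]
        ring
      have e3 : (v0 ^ 2) ^ 2 - 1 = (v0 ^ 2 - 1) * (v0 ^ 2 + 1) := by ring
      rw [e3, e1, e2]
      ring
    rw [hd, h1v2, h4]
    have hI := Complex.I_sq
    clear hcomp hN hv hl hw hd h1v2 h4 hv0 hquad hcs
    generalize Real.sin (η / 2) = S at *
    generalize Real.cos (η / 2) = C at *
    push_cast
    have hden2 : (1 + (C : ℂ)) ≠ 0 := by
      intro h
      apply hden
      linear_combination 2 * h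
    field_simp
    linear_combination (-(4 : ℂ) * (S : ℂ) ^ 2 * (C : ℂ)) * hI

end Pool.Agent.MP07129f
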