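import Pool.Agent.Lib.MP_07129f_an.XP.MobA

/-!
XP-MobC. Proof. `z = -t`, `0 ≤ t < 1`, `c = e^{iη}`: `w = (c + t)/(1 + c t)`, `v = vv η z`,
`v^2 = w`, `Re v > 0`, `v ≠ 0`. With `D = 1 + t^2 + 2 t cos η > 0`:
`(c + t)(1 + c t) = c D` and `(c + t)^2 + (1 + c t)^2 = c (2 cos η (1 + t^2) + 4 t)`, hence
`w + 1/w = 2 C`, `C = (cos η (1 + t^2) + 2 t)/D`. So `(v + 1/v)^2 = 2 + 2 C`. Moreover
`0 ≤ 2 + 2 C` and `Re (v + 1/v) > 0`, therefore `v + 1/v = √(2 + 2 C)` (a complex number with real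
square `≥ 0` and positive real part is the square root). Finally
`MM v = 4 v/(1 + v)^2 = 4/(v + 1/v + 2)`.
Monotonicity: `1 - C = (1 - cos η)(1 - t)^2/D`, and `1 - cos η > 0` (`0 < η ≤ 1`), `cos η > 0`;
`(1 - t)^2` is strictly decreasing and `D` increasing on `[0, 1)`, so `C` is strictly increasing,
`muf` strictly decreasing. `C ≤ 1` gives `√(2 + 2 C) ≤ 2` and `muf ≥ 1`.
-/

namespace Pool.Agent.MP07129f

open Complex Metric Set Filter Topology MeasureTheory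

variable {η : ℝ}

private lemma xpMobC_cos (hη : 0 < η) (hη1 : η ≤ 1) :
    0 < Real.cos η ∧ Real.cos η < 1 := by
  have hpi := Real.pi_gt_three
  refine ⟨Real.cos_pos_of_mem_Ioo ⟨by linarith, by linarith⟩, ?_⟩
  have h := Real.cos_lt_cos_of_nonneg_of_le_pi (x := 0) (y := η) le_rfl (by linarith) hη
  rwa [Real.cos_zero] at h

private lemma xpMobC_cc : cc η ^ 2 + 1 = 2 * (Real.cos η : ℂ) * cc η := by
  have h : cc η = Complex.cos η + Complex.sin η * I := by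
    unfold cc
    exact Complex.exp_mul_I _
  have h2 := Complex.sin_sq_add_cos_sq (η : ℂ)
  rw [h, Complex.ofReal_cos]
  linear_combination (-1 : ℂ) * h2 + (Complex.sin (η : ℂ)) ^ 2 * Complex.I_sq

private lemma xpMobC_D (hη : 0 < η) (hη1 : η ≤ 1) {t : ℝ} (ht : t ∈ Ico (0 : ℝ) 1) :
    0 < 1 + t ^ 2 + 2 * t * Real.cos η := by
  have h1 := (xpMobC_cos hη hη1).1
  have h2 : 0 ≤ t * Real.cos η := mul_nonneg ht.1 h1.le
  nlinarith [sq_nonneg t]

private lemma xpMobC_nonneg (hη : 0 < η) (hη1 : η ≤ 1) {t : ℝ} (ht : t ∈ Ico (0 : ℝ) 1) :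
    0 ≤ 2 + 2 * ((Real.cos η * (1 + t ^ 2) + 2 * t) / (1 + t ^ 2 + 2 * t * Real.cos η)) := by
  have hD := xpMobC_D hη hη1 ht
  have h1 := (xpMobC_cos hη hη1).1
  have h2 : 0 ≤ (Real.cos η * (1 + t ^ 2) + 2 * t) / (1 + t ^ 2 + 2 * t * Real.cos η) := by
    refine div_nonneg ?_ hD.le
    have := ht.1
    positivity
  linarith

/-- XP-MobC (1) -/
lemma MM_vv_neg (hη : 0 < η) (hη1 : η ≤ 1) {t : ℝ} (ht : t ∈ Ico (0 : ℝ) 1) :
    MM (vv η (-(t : ℂ))) = (muf η t : ℂ) := by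
  have hz : (-(t : ℂ)) ∈ ball (0 : ℂ) 1 := by
    rw [mem_ball_zero_iff, norm_neg, Complex.norm_real, Real.norm_eq_abs, abs_of_nonneg ht.1]
    exact ht.2
  set v : ℂ := vv η (-(t : ℂ)) with hv
  have hsq : v ^ 2 = ww η (-(t : ℂ)) := vv_sq hη hη1 hz
  have hre : 0 < v.re := vv_re_pos hη hη1 hz
  have hv0 : v ≠ 0 := by
    intro h
    rw [h] at hre
    simp at hre
  have hD := xpMobC_D hη hη1 ht
  have hN := xpMobC_nonneg hη hη1 ht
  set D : ℝ := 1 + t ^ 2 + 2 * t * Real.cos η with hDdef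
  set C : ℝ := (Real.cos η * (1 + t ^ 2) + 2 * t) / D with hC
  have hcc := xpMobC_cc (η := η)
  have hc0 : cc η ≠ 0 := by
    unfold cc
    exact Complex.exp_ne_zero _
  have hDC : (D : ℂ) ≠ 0 := by exact_mod_cast hD.ne'
  have hDcast : (D : ℂ) = 1 + (t : ℂ) ^ 2 + 2 * t * (Real.cos η : ℂ) := by
    rw [hDdef]
    push_cast
    ring
  have hprod : (cc η + t) * (1 + cc η * t) = cc η * D := by
    rw [hDcast]
    linear_combination (t : ℂ) * hcc
  have hCD : (C : ℂ) * D = (Real.cos η : ℂ) * (1 + (t : ℂ) ^ 2) + 2 * t := by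
    have : C * D = Real.cos η * (1 + t ^ 2) + 2 * t := by
      rw [hC]
      exact div_mul_cancel₀ _ hD.ne'
    exact_mod_cast this
  have hsum : (cc η + t) ^ 2 + (1 + cc η * t) ^ 2 = 2 * (C : ℂ) * ((cc η + t) * (1 + cc η * t)) := by
    rw [hprod]
    linear_combination (1 + (t : ℂ) ^ 2) * hcc - 2 * cc η * hCD
  have hne : (cc η + t) * (1 + cc η * t) ≠ 0 := by
    rw [hprod]
    exact mul_ne_zero hc0 hDC
  have ha : cc η + t ≠ 0 := left_ne_zero_of_mul hne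
  have hb : 1 + cc η * t ≠ 0 := right_ne_zero_of_mul hne
  have hw : ww η (-(t : ℂ)) = (cc η + t) / (1 + cc η * t) := by
    unfold ww
    congr 1 <;> ring
  have hX : (v + v⁻¹) ^ 2 = 2 + 2 * (C : ℂ) := by
    have h1 : (v + v⁻¹) ^ 2 = v ^ 2 + 2 + (v ^ 2)⁻¹ := by
      field_simp
      ring
    rw [h1, hsq, hw, inv_div]
    have h2 : (cc η + t) / (1 + cc η * t) + (1 + cc η * t) / (cc η + t) = 2 * (C : ℂ) := by
      rw [div_add_div _ _ hb ha, div_eq_iff (mul_ne_zero hb ha)]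
      linear_combination hsum
    linear_combination h2
  have hXre : 0 < (v + v⁻¹).re := by
    rw [Complex.add_re, Complex.inv_re]
    have h3 : 0 < Complex.normSq v := Complex.normSq_pos.2 hv0
    have := div_pos hre h3
    linarith
  set s : ℝ := √(2 + 2 * C) with hs
  have hs0 : 0 ≤ s := Real.sqrt_nonneg _
  have hs2 : (s : ℂ) ^ 2 = 2 + 2 * (C : ℂ) := by
    have := Real.sq_sqrt hN
    rw [← hs] at this
    exact_mod_cast this
  have hXs : v + v⁻¹ = (s : ℂ) := by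
    have h4 : (v + v⁻¹) ^ 2 = (s : ℂ) ^ 2 := by rw [hX, hs2]
    rcases sq_eq_sq_iff_eq_or_eq_neg.1 h4 with h5 | h5
    · exact h5
    · exfalso
      rw [h5] at hXre
      simp at hXre
      linarith
  have hM : MM v = 4 / (2 + (s : ℂ)) := by
    unfold MM
    rw [← hXs]
    have h6 : (1 + v) ^ 2 = v * (2 + (v + v⁻¹)) := by
      field_simp
      ring
    rw [h6, mul_comm 4 v, mul_div_mul_left _ _ hv0]
  rw [hM]
  unfold muf
  rw [← hDdef, ← hC, ← hs]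
  push_cast
  rfl

/-- XP-MobC (2) -/
lemma muf_strictAntiOn (hη : 0 < η) (hη1 : η ≤ 1) : StrictAntiOn (muf η) (Ico 0 1) := by
  intro a ha b hb hab
  obtain ⟨hk0, hk1⟩ := xpMobC_cos hη hη1
  have hDa := xpMobC_D hη hη1 ha
  have hDb := xpMobC_D hη hη1 hb
  have hNa := xpMobC_nonneg hη hη1 ha
  have hC : (Real.cos η * (1 + a ^ 2) + 2 * a) / (1 + a ^ 2 + 2 * a * Real.cos η) <
      (Real.cos η * (1 + b ^ 2) + 2 * b) / (1 + b ^ 2 + 2 * b * Real.cos η) := by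
    rw [div_lt_div_iff₀ hDa hDb]
    have h1 : 0 < 1 - Real.cos η ^ 2 := by nlinarith
    have h2 : 0 < 1 - a * b := by nlinarith [ha.1, ha.2, hb.1, hb.2]
    have h3 : 0 < (1 - Real.cos η ^ 2) * ((b - a) * (1 - a * b)) :=
      mul_pos h1 (mul_pos (by linarith) h2)
    nlinarith
  have hs := Real.sqrt_lt_sqrt hNa (show 2 + 2 * ((Real.cos η * (1 + a ^ 2) + 2 * a) /
    (1 + a ^ 2 + 2 * a * Real.cos η)) < 2 + 2 * ((Real.cos η * (1 + b ^ 2) + 2 * b) /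
      (1 + b ^ 2 + 2 * b * Real.cos η)) by linarith)
  unfold muf
  refine div_lt_div_of_pos_left (by norm_num) ?_ ?_
  · have := Real.sqrt_nonneg (2 + 2 * ((Real.cos η * (1 + a ^ 2) + 2 * a) /
      (1 + a ^ 2 + 2 * a * Real.cos η)))
    linarith
  · linarith

/-- XP-MobC (3) -/
lemma one_le_muf (hη : 0 < η) (hη1 : η ≤ 1) {t : ℝ} (ht : t ∈ Ico (0 : ℝ) 1) : 1 ≤ muf η t := by
  obtain ⟨hk0, hk1⟩ := xpMobC_cos hη hη1
  have hD := xpMobC_D hη hη1 ht
  have hC : (Real.cos η * (1 + t ^ 2) + 2 * t) / (1 + t ^ 2 + 2 * t * Real.cos η) ≤ 1 := by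
    rw [div_le_one hD]
    nlinarith [mul_nonneg (by linarith : (0 : ℝ) ≤ 1 - Real.cos η) (sq_nonneg (1 - t))]
  have hs : √(2 + 2 * ((Real.cos η * (1 + t ^ 2) + 2 * t) /
      (1 + t ^ 2 + 2 * t * Real.cos η))) ≤ 2 := by
    rw [Real.sqrt_le_left (by norm_num)]
    linarith
  have hs0 := Real.sqrt_nonneg (2 + 2 * ((Real.cos η * (1 + t ^ 2) + 2 * t) /
      (1 + t ^ 2 + 2 * t * Real.cos η)))
  unfold muf
  rw [le_div_iff₀ (by linarith)]
  linarith

end Pool.Agent.MP07129f
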