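import Pool.Agent.Lib.MP_07129f_an.XP.Defs

/-!
XP-Pat. Proof: induction on `F` with `Finset.induction_on_max`.

`F = ∅`: `s` is continuous on the connected set `Ioi 0` with values in `{-1, 0, 1}`, hence constant
(`IsPreconnected.constant` needs a discrete codomain; or: image of a preconnected set in `ℝ` is
preconnected, `ordConnected`, and contained in a three point set). Take `L = ∅`, `σ = -1` if the
constant is `-1`, else `σ = 1`.

`insert m F`, `m > x` for all `x ∈ F`. If `m ≤ 0` then `Ioi 0 \ insert m F = Ioi 0 \ F`; use the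
induction hypothesis for `s`. If `0 < m`: choose `p` with `max 0 (max F) < p < m`. Let
`s' v = s (min v p)`. It is continuous on `Ioi 0 \ F` (as `min v p ∈ Ioi 0 \ insert m F` for
`v ∈ Ioi 0 \ F`) and takes the right values there. The induction hypothesis gives `σ`, `L ⊆ F`. For
`v > p`: `∏ (v - a) > 0`, so `0 ≤ s p * σ`. `s` is constant on `(q, m)`, where `q = max 0 (max F)`
(`q < p < m`), and constant, `= s1`, on `(m, ∞)`. If `0 ≤ s1 * σ` the same `σ, L` work for `s`. If
not, then `s1 = -σ` and `(-σ, insert m L)` works (`m ∉ L` because `L ⊆ F` and all elements of `F`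
are `< m`): the product is multiplied by `(v - m)`.
-/

namespace Pool.Agent.MP07129f

open Complex Metric Set Filter Topology MeasureTheory

private lemma pat_const {S : Set ℝ} (hS : IsPreconnected S) {s : ℝ → ℝ} (hc : ContinuousOn s S)
    (hv : ∀ v ∈ S, s v = -1 ∨ s v = 0 ∨ s v = 1) {x y : ℝ} (hx : x ∈ S) (hy : y ∈ S) : s x = s y := by
  have hfin : ({-1, 0, 1} : Set ℝ).Finite := Set.toFinite _
  refine hS.constant_of_mapsTo (T := ({-1, 0, 1} : Set ℝ)) hfin.isDiscrete hc ?_ hx hy
  intro v hvS
  rcases hv v hvS with h | h | h <;> simp [h]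

/-- XP-Pat: every finite sign pattern on `(0, ∞)` is matched by a polynomial with simple zeros. -/
lemma pattern (F : Finset ℝ) : ∀ s : ℝ → ℝ, ContinuousOn s (Ioi 0 \ (F : Set ℝ)) →
    (∀ v ∈ Ioi (0 : ℝ) \ (F : Set ℝ), s v = -1 ∨ s v = 0 ∨ s v = 1) →
    ∃ (σ : ℝ) (L : Finset ℝ), (σ = 1 ∨ σ = -1) ∧ L ⊆ F ∧
      ∀ v ∈ Ioi (0 : ℝ) \ (F : Set ℝ), 0 ≤ s v * (σ * ∏ a ∈ L, (v - a)) := by
  induction F using Finset.induction_on_max with
  | empty =>
    intro s hc hv
    have hS : IsPreconnected (Ioi (0 : ℝ) \ ((∅ : Finset ℝ) : Set ℝ)) := by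
      rw [Finset.coe_empty, sdiff_empty]
      exact isPreconnected_Ioi
    have h1 : (1 : ℝ) ∈ Ioi (0 : ℝ) \ ((∅ : Finset ℝ) : Set ℝ) := by
      rw [Finset.coe_empty, sdiff_empty]
      exact (one_pos : (0 : ℝ) < 1)
    rcases hv 1 h1 with h | h | h
    · refine ⟨-1, ∅, Or.inr rfl, subset_rfl, ?_⟩
      intro v hvS
      rw [pat_const hS hc hv hvS h1, h]
      simp
    · refine ⟨1, ∅, Or.inl rfl, subset_rfl, ?_⟩
      intro v hvS
      rw [pat_const hS hc hv hvS h1, h]
      simp
    · refine ⟨1, ∅, Or.inl rfl, subset_rfl, ?_⟩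
      intro v hvS
      rw [pat_const hS hc hv hvS h1, h]
      simp
  | insert m F hm ih =>
    intro s hc hv
    rcases le_or_gt m 0 with hm0 | hm0
    · have he : Ioi (0 : ℝ) \ ((insert m F : Finset ℝ) : Set ℝ) = Ioi (0 : ℝ) \ (F : Set ℝ) := by
        ext v
        simp only [Set.mem_sdiff, mem_Ioi, Finset.coe_insert, mem_insert_iff, Finset.mem_coe, not_or]
        constructor
        · rintro ⟨h1, h2, h3⟩
          exact ⟨h1, h3⟩
        · rintro ⟨h1, h3⟩
          exact ⟨h1, by rintro rfl; linarith, h3⟩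
      rw [he] at hc hv
      obtain ⟨σ, L, h1, h2, h3⟩ := ih s hc hv
      refine ⟨σ, L, h1, h2.trans (Finset.subset_insert _ _), ?_⟩
      rw [he]
      exact h3
    · -- the upper end of F
      obtain ⟨q, hq0, hqF, hqm⟩ : ∃ q : ℝ, 0 ≤ q ∧ (∀ x ∈ F, x ≤ q) ∧ q < m := by
        rcases F.eq_empty_or_nonempty with rfl | hne
        · exact ⟨0, le_rfl, by simp, hm0⟩
        · refine ⟨max 0 (F.max' hne), le_max_left _ _, ?_, ?_⟩
          · intro x hx
            exact (F.le_max' x hx).trans (le_max_right _ _)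
          · exact max_lt hm0 (hm _ (F.max'_mem hne))
      obtain ⟨p, hqp, hpm⟩ := exists_between hqm
      have hp0 : 0 < p := lt_of_le_of_lt hq0 hqp
      have hnotF : ∀ v : ℝ, q < v → v ∉ F := fun v hv1 hv2 => absurd (hqF v hv2) (not_le.2 hv1)
      -- the two intervals
      have hI1 : Ioo q m ⊆ Ioi (0 : ℝ) \ ((insert m F : Finset ℝ) : Set ℝ) := by
        intro v hv1
        refine ⟨lt_of_le_of_lt hq0 hv1.1, ?_⟩
        rw [Finset.mem_coe, Finset.mem_insert, not_or]
        exact ⟨hv1.2.ne, hnotF v hv1.1⟩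
      have hI2 : Ioi m ⊆ Ioi (0 : ℝ) \ ((insert m F : Finset ℝ) : Set ℝ) := by
        intro v hv1
        refine ⟨hm0.trans hv1, ?_⟩
        rw [Finset.mem_coe, Finset.mem_insert, not_or]
        exact ⟨(ne_of_gt hv1), hnotF v (hqm.trans hv1)⟩
      have hmin : MapsTo (fun v : ℝ => min v p) (Ioi (0 : ℝ) \ (F : Set ℝ))
          (Ioi (0 : ℝ) \ ((insert m F : Finset ℝ) : Set ℝ)) := by
        intro v hv1
        rcases le_total v p with h | h
        · have h2 : min v p = v := min_eq_left h
          show min v p ∈ _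
          rw [h2]
          refine ⟨hv1.1, ?_⟩
          rw [Finset.mem_coe, Finset.mem_insert, not_or]
          exact ⟨(lt_of_le_of_lt h hpm).ne, hv1.2⟩
        · have h2 : min v p = p := min_eq_right h
          show min v p ∈ _
          rw [h2]
          exact hI1 ⟨hqp, hpm⟩
      obtain ⟨σ, L, hσ, hLF, hL⟩ := ih (fun v => s (min v p))
        (hc.comp (continuous_id.min continuous_const).continuousOn hmin)
        (fun v hv1 => hv _ (hmin hv1))
      have hprod : ∀ v : ℝ, q < v → 0 < ∏ a ∈ L, (v - a) := by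
        intro v hv1
        refine Finset.prod_pos fun a ha => ?_
        have := hqF a (hLF ha)
        linarith
      have hmL : m ∉ L := fun h => (hm m (hLF h)).false
      have hsp : 0 ≤ s p * σ := by
        have h1 : p ∈ Ioi (0 : ℝ) \ (F : Set ℝ) := ⟨hp0, hnotF p hqp⟩
        have h2 := hL p h1
        simp only [min_self] at h2
        have h3 := hprod p hqp
        by_contra h4
        push Not at h4
        have h5 : s p * (σ * ∏ a ∈ L, (p - a)) < 0 := by
          rw [← mul_assoc]
          exact mul_neg_of_neg_of_pos h4 h3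
        linarith
      have hc1 : ∀ v ∈ Ioo q m, s v = s p := fun v hv1 =>
        pat_const isPreconnected_Ioo (hc.mono hI1) (fun w hw => hv w (hI1 hw)) hv1 ⟨hqp, hpm⟩
      have hm1 : m + 1 ∈ Ioi m := by
        rw [mem_Ioi]
        linarith
      have hc2 : ∀ v ∈ Ioi m, s v = s (m + 1) := fun v hv1 =>
        pat_const isPreconnected_Ioi (hc.mono hI2) (fun w hw => hv w (hI2 hw)) hv1 hm1
      -- below `q`
      have hlow : ∀ v ∈ Ioi (0 : ℝ) \ ((insert m F : Finset ℝ) : Set ℝ), v < m →
          0 ≤ s v * (σ * ∏ a ∈ L, (v - a)) := by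
        intro v hv1 hvm
        have hvF : v ∈ Ioi (0 : ℝ) \ (F : Set ℝ) := by
          refine ⟨hv1.1, ?_⟩
          intro h
          exact hv1.2 (Finset.mem_coe.2 (Finset.mem_insert_of_mem (Finset.mem_coe.1 h)))
        rcases le_or_gt v p with h | h
        · have h2 := hL v hvF
          simp only [min_eq_left h] at h2
          exact h2
        · rw [hc1 v ⟨hqp.trans h, hvm⟩, ← mul_assoc]
          exact mul_nonneg hsp (hprod v (hqp.trans h)).le
      by_cases hs1 : 0 ≤ s (m + 1) * σ
      · refine ⟨σ, L, hσ, hLF.trans (Finset.subset_insert _ _), ?_⟩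
        intro v hv1
        rcases lt_trichotomy v m with h | h | h
        · exact hlow v hv1 h
        · exfalso
          apply hv1.2
          rw [h]
          exact Finset.mem_coe.2 (Finset.mem_insert_self _ _)
        · rw [hc2 v h, ← mul_assoc]
          exact mul_nonneg hs1 (hprod v (hqm.trans h)).le
      · refine ⟨-σ, insert m L, ?_, Finset.insert_subset_insert _ hLF, ?_⟩
        · rcases hσ with h | h
          · exact Or.inr (by rw [h])
          · exact Or.inl (by rw [h, neg_neg])
        intro v hv1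
        rw [Finset.prod_insert hmL]
        rcases lt_trichotomy v m with h | h | h
        · have h1 := hlow v hv1 h
          have h2 : s v * (-σ * ((v - m) * ∏ a ∈ L, (v - a))) =
              (m - v) * (s v * (σ * ∏ a ∈ L, (v - a))) := by ring
          rw [h2]
          exact mul_nonneg (by linarith) h1
        · exfalso
          apply hv1.2
          rw [h]
          exact Finset.mem_coe.2 (Finset.mem_insert_self _ _)
        · rw [hc2 v h]
          push Not at hs1
          have h2 : s (m + 1) * (-σ * ((v - m) * ∏ a ∈ L, (v - a))) =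
              (-(s (m + 1) * σ)) * ((v - m) * ∏ a ∈ L, (v - a)) := by ring
          rw [h2]
          have h3 := hprod v (hqm.trans h)
          have h4 : 0 < v - m := by
            have : m < v := h
            linarith
          exact mul_nonneg (by linarith) (mul_nonneg h4.le h3.le)

end Pool.Agent.MP07129f
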